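import Mathlib

set_option autoImplicit false
set_option linter.style.haveILetI false
set_option linter.unusedSectionVars false

open Filter Topology Set

namespace Pool.Agent.Work.MP_326c77_gt

/-- Abstract data of a (compact) group `G` with an exponential map `E` defined on its Lie algebra
`L` and the adjoint action `Ad` of `G` on `L`. -/
structure GroupData (G L : Type*) [Group G] [TopologicalSpace G] [NormedAddCommGroup L]
    [InnerProductSpace ℝ L] where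
  E : L → G
  Ad : G →* (L ≃ₗᵢ[ℝ] L)
  E_zero : E 0 = 1
  E_add : ∀ (X : L) (s t : ℝ), E ((s + t) • X) = E (s • X) * E (t • X)
  conj : ∀ (g : G) (X : L), g * E X * g⁻¹ = E (Ad g X)
  cont_Ad : ∀ Y : L, Continuous fun g => Ad g Y
  ad_orth : ∀ 𝔰 : Submodule ℝ L, (∀ g, ∀ Y ∈ 𝔰, Ad g Y ∈ 𝔰) → ∀ Y ∈ 𝔰, ∀ Z ∈ 𝔰ᗮ,
    Ad (E Z) Y = Y ∧ E (Y + Z) = E Y * E Z
  lip : ∀ X Y : L, ‖Ad (E X) Y - Y‖ ≤ 2 * ‖X‖ * ‖Y‖
  fill : ∀ {m : ℕ} (P Q : Fin m → L), LinearIndependent ℝ (fun j => P j - Q j) →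
    Submodule.span ℝ (range fun j => P j - Q j) = ⊤ → ∀ c : ℝ, 0 < c →
    ∃ U ∈ 𝓝 (1 : G), ∀ᶠ z in 𝓝 (P, Q), ∀ x ∈ U, ∃ s : Fin m → ℝ, (∀ j, |s j| ≤ c) ∧
      (List.ofFn fun j => E (s j • z.1 j) * E (-(s j) • z.2 j)).prod = x

namespace GroupData

variable {G L : Type*} [Group G] [TopologicalSpace G] [NormedAddCommGroup L]
  [InnerProductSpace ℝ L] (D : GroupData G L)

/-! ### Elementary facts -/

theorem E_neg (X : L) : D.E (-X) = (D.E X)⁻¹ := by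
  have h := D.E_add X 1 (-1)
  simp only [add_neg_cancel, zero_smul, one_smul, neg_smul, D.E_zero] at h
  exact (inv_eq_of_mul_eq_one_right h.symm).symm

theorem Ad_mul (x y : G) (Y : L) : D.Ad (x * y) Y = D.Ad x (D.Ad y Y) := by
  rw [map_mul]
  rfl

theorem Ad_one (Y : L) : D.Ad 1 Y = Y := by
  rw [map_one]
  rfl

theorem Ad_inv_Ad (x : G) (Y : L) : D.Ad x⁻¹ (D.Ad x Y) = Y := by
  rw [← Ad_mul, inv_mul_cancel, Ad_one]

theorem Ad_Ad_inv (x : G) (Y : L) : D.Ad x (D.Ad x⁻¹ Y) = Y := by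
  rw [← Ad_mul, mul_inv_cancel, Ad_one]

theorem norm_Ad (x : G) (Y : L) : ‖D.Ad x Y‖ = ‖Y‖ := (D.Ad x).norm_map Y

theorem norm_Ad_inv_sub (x : G) (Y : L) : ‖D.Ad x⁻¹ Y - Y‖ = ‖D.Ad x Y - Y‖ := by
  rw [← D.norm_Ad x, map_sub, Ad_Ad_inv, norm_sub_rev]

/-- `𝔰` is invariant under the adjoint action. -/
def Inv (𝔰 : Submodule ℝ L) : Prop := ∀ g, ∀ Y ∈ 𝔰, D.Ad g Y ∈ 𝔰

theorem Inv.orth {𝔰 : Submodule ℝ L} (h : D.Inv 𝔰) : D.Inv 𝔰ᗮ := by
  intro g Z hZ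
  rw [Submodule.mem_orthogonal] at hZ ⊢
  intro Y hY
  have h1 := hZ (D.Ad g⁻¹ Y) (h _ _ hY)
  rw [← (D.Ad g).inner_map_map, Ad_Ad_inv] at h1
  exact h1

theorem Inv.inf {𝔰 𝔱 : Submodule ℝ L} (h : D.Inv 𝔰) (h' : D.Inv 𝔱) : D.Inv (𝔰 ⊓ 𝔱) :=
  fun g Y hY => ⟨h g Y hY.1, h' g Y hY.2⟩

/-- The subgroup of the elements acting trivially on `𝔰`. -/
def fixer (𝔰 : Submodule ℝ L) : Subgroup G where
  carrier := {x | ∀ Y ∈ 𝔰, D.Ad x Y = Y}
  mul_mem' := by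
    intro a b ha hb Y hY
    rw [Ad_mul, hb Y hY, ha Y hY]
  one_mem' := fun Y _ => D.Ad_one Y
  inv_mem' := by
    intro x hx Y hY
    rw [← hx Y hY, Ad_inv_Ad, hx Y hY]

theorem mem_fixer {𝔰 : Submodule ℝ L} {x : G} : x ∈ D.fixer 𝔰 ↔ ∀ Y ∈ 𝔰, D.Ad x Y = Y := Iff.rfl

theorem Inv.normal_fixer {𝔰 : Submodule ℝ L} (h : D.Inv 𝔰) : (D.fixer 𝔰).Normal := by
  constructor
  intro n hn g Y hY
  rw [Ad_mul, Ad_mul, hn _ (h _ _ hY), Ad_Ad_inv]

theorem inv_mul_mem_fixer {𝔰 : Submodule ℝ L} {x y : G} :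
    y⁻¹ * x ∈ D.fixer 𝔰 ↔ ∀ Y ∈ 𝔰, D.Ad x Y = D.Ad y Y := by
  rw [mem_fixer]
  refine forall₂_congr fun Y _ => ?_
  rw [Ad_mul]
  constructor
  · intro h
    rw [← h, Ad_Ad_inv, h]
  · intro h
    rw [h, Ad_inv_Ad]

/-! ### Reachable elements -/

/-- `x` is a product of exponentials of total `p`-length at most `t`. -/
def Reach (p : Seminorm ℝ L) (t : ℝ) (x : G) : Prop :=
  ∃ l : List L, (l.map D.E).prod = x ∧ (l.map p).sum ≤ t

variable {D} {p : Seminorm ℝ L}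

theorem Reach.mono {s t : ℝ} {x : G} (h : D.Reach p s x) (hst : s ≤ t) : D.Reach p t x := by
  obtain ⟨l, hl, hs⟩ := h
  exact ⟨l, hl, hs.trans hst⟩

theorem sum_map_nonneg (l : List L) : 0 ≤ (l.map p).sum := by
  apply List.sum_nonneg
  intro x hx
  rw [List.mem_map] at hx
  obtain ⟨a, _, rfl⟩ := hx
  exact apply_nonneg p a

theorem Reach.nonneg {t : ℝ} {x : G} (h : D.Reach p t x) : 0 ≤ t := by
  obtain ⟨l, _, hs⟩ := h
  exact (sum_map_nonneg l).trans hs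

theorem reach_one : D.Reach p 0 1 := ⟨[], by simp⟩

theorem reach_E (X : L) : D.Reach p (p X) (D.E X) := ⟨[X], by simp⟩

theorem Reach.mul {s t : ℝ} {x y : G} (hx : D.Reach p s x) (hy : D.Reach p t y) :
    D.Reach p (s + t) (x * y) := by
  obtain ⟨l, rfl, hl⟩ := hx
  obtain ⟨l', rfl, hl'⟩ := hy
  refine ⟨l ++ l', by simp, ?_⟩
  rw [List.map_append, List.sum_append]
  exact add_le_add hl hl'

theorem Reach.inv {t : ℝ} {x : G} (hx : D.Reach p t x) : D.Reach p t x⁻¹ := by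
  obtain ⟨l, rfl, hl⟩ := hx
  refine ⟨(l.map fun X => -X).reverse, ?_, ?_⟩
  · rw [List.prod_inv_reverse, List.map_reverse, List.map_map, List.map_map]
    congr 2
    apply List.map_congr_left
    intro X _
    simp [D.E_neg]
  · rw [List.map_reverse, List.sum_reverse, List.map_map]
    have : (p ∘ fun X : L => -X) = p := by
      funext X
      simp
    rwa [this]

theorem Reach.split {x : G} {s t : ℝ} (hs : 0 ≤ s) (ht : 0 ≤ t) (hx : D.Reach p (s + t) x) :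
    ∃ y z, x = y * z ∧ D.Reach p s y ∧ D.Reach p t z := by
  obtain ⟨l, rfl, hl⟩ := hx
  induction l generalizing s with
  | nil => exact ⟨1, 1, by simp, reach_one.mono hs, reach_one.mono ht⟩
  | cons X l ih =>
    rw [List.map_cons, List.sum_cons] at hl
    rw [List.map_cons, List.prod_cons]
    rcases le_or_gt (p X) s with h | h
    · obtain ⟨y, z, hyz, hy, hz⟩ := ih (s := s - p X) (by linarith) (by linarith)
      refine ⟨D.E X * y, z, by rw [hyz, mul_assoc], ?_, hz⟩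
      have := (reach_E X).mul hy
      exact this.mono (by linarith)
    · have hpX : 0 < p X := hs.trans_lt h
      set θ := s / p X with hθ
      have hθ0 : 0 ≤ θ := by positivity
      have hθ1 : θ ≤ 1 := by
        rw [hθ, div_le_one hpX]
        exact h.le
      refine ⟨D.E (θ • X), D.E ((1 - θ) • X) * (l.map D.E).prod, ?_, ?_, ?_⟩
      · rw [← mul_assoc, ← D.E_add]
        simp
      · have h1 : p (θ • X) = s := by
          rw [map_smul_eq_mul, Real.norm_of_nonneg hθ0, hθ, div_mul_cancel₀ _ hpX.ne']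
        have := reach_E (D := D) (p := p) (θ • X)
        rwa [h1] at this
      · have h1 : p ((1 - θ) • X) = p X - s := by
          rw [map_smul_eq_mul, Real.norm_of_nonneg (by linarith), sub_mul, one_mul, hθ,
            div_mul_cancel₀ _ hpX.ne']
        have h2 := (reach_E (D := D) (p := p) ((1 - θ) • X)).mul
          (⟨l, rfl, le_refl _⟩ : D.Reach p (l.map p).sum (l.map D.E).prod)
        exact h2.mono (by linarith)

/-- Reachability modulo a subgroup `N`. -/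
def ReachN (D : GroupData G L) (p : Seminorm ℝ L) (N : Subgroup G) (t : ℝ) (x : G) : Prop :=
  ∃ y, D.Reach p t y ∧ y⁻¹ * x ∈ N

variable {N : Subgroup G}

theorem Reach.reachN {t : ℝ} {x : G} (h : D.Reach p t x) : D.ReachN p N t x :=
  ⟨x, h, by simp [N.one_mem]⟩

theorem ReachN.mono {s t : ℝ} {x : G} (h : D.ReachN p N s x) (hst : s ≤ t) : D.ReachN p N t x := by
  obtain ⟨y, hy, hN⟩ := h
  exact ⟨y, hy.mono hst, hN⟩

theorem ReachN.nonneg {t : ℝ} {x : G} (h : D.ReachN p N t x) : 0 ≤ t := by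
  obtain ⟨y, hy, _⟩ := h
  exact hy.nonneg

theorem ReachN.congr {t : ℝ} {x x' : G} (h : D.ReachN p N t x) (hx : x⁻¹ * x' ∈ N) :
    D.ReachN p N t x' := by
  obtain ⟨y, hy, hN⟩ := h
  refine ⟨y, hy, ?_⟩
  have := N.mul_mem hN hx
  simpa [mul_assoc] using this

theorem ReachN.mul [N.Normal] {s t : ℝ} {x y : G} (hx : D.ReachN p N s x)
    (hy : D.ReachN p N t y) : D.ReachN p N (s + t) (x * y) := by
  obtain ⟨a, ha, haN⟩ := hx
  obtain ⟨b, hb, hbN⟩ := hy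
  refine ⟨a * b, ha.mul hb, ?_⟩
  have h1 : (a * b)⁻¹ * (x * y) = (b⁻¹ * (a⁻¹ * x) * b⁻¹⁻¹) * (b⁻¹ * y) := by group
  rw [h1]
  exact N.mul_mem (Subgroup.Normal.conj_mem inferInstance _ haN _) hbN

theorem ReachN.inv [N.Normal] {t : ℝ} {x : G} (hx : D.ReachN p N t x) : D.ReachN p N t x⁻¹ := by
  obtain ⟨a, ha, haN⟩ := hx
  refine ⟨a⁻¹, ha.inv, ?_⟩
  have h1 : a⁻¹⁻¹ * x⁻¹ = x * (a⁻¹ * x)⁻¹ * x⁻¹ := by group
  rw [h1]
  exact Subgroup.Normal.conj_mem inferInstance _ (N.inv_mem haN) _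

theorem ReachN.split {x : G} {s t : ℝ} (hs : 0 ≤ s) (ht : 0 ≤ t) (hx : D.ReachN p N (s + t) x) :
    ∃ y z, x = y * z ∧ D.ReachN p N s y ∧ D.ReachN p N t z := by
  obtain ⟨a, ha, haN⟩ := hx
  obtain ⟨y, z, rfl, hy, hz⟩ := ha.split hs ht
  refine ⟨y, y⁻¹ * x, by group, hy.reachN, ⟨z, hz, ?_⟩⟩
  simpa [mul_assoc] using haN

end GroupData

end Pool.Agent.Work.MP_326c77_gt
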