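import Pool.Agent.Work.MP_326c77_gt.Poincare

set_option autoImplicit false
set_option linter.style.haveILetI false
set_option linter.unusedSectionVars false

open NormedSpace Filter Topology Set MeasureTheory

namespace Pool.Agent.Work.MP_326c77_gt

namespace FRep

variable {G A : Type*} [Group G] [TopologicalSpace G] [NormedRing A] {R : FRep G A}
  [CompactSpace G] [NormedAlgebra ℝ A] [FiniteDimensional ℝ A] [InnerProductSpaceable A]
  [IsTopologicalGroup G]

/-- The peak function. -/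
noncomputable def peak (R : FRep G A) (z : G) : ℝ := 2 * ‖(1 : A)‖ ^ 2 + 1 - ‖R.ρ z - 1‖ ^ 2 / 2

theorem continuous_peak : Continuous R.peak := by
  unfold peak
  exact continuous_const.sub (((R.cont.sub continuous_const).norm.pow 2).div_const 2)

theorem norm_ρ (z : G) : ‖R.ρ z‖ = ‖(1 : A)‖ := by
  have := R.norm_mul z 1
  rwa [mul_one] at this

theorem one_le_peak (z : G) : 1 ≤ R.peak z := by
  unfold peak
  have h1 : ‖R.ρ z - 1‖ ≤ 2 * ‖(1 : A)‖ := by
    refine (norm_sub_le _ _).trans ?_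
    rw [norm_ρ]
    linarith
  have h2 : ‖R.ρ z - 1‖ ^ 2 ≤ (2 * ‖(1 : A)‖) ^ 2 := by gcongr
  nlinarith

theorem peak_lt {z : G} (hz : z ≠ 1) : R.peak z < R.peak 1 := by
  unfold peak
  rw [map_one, sub_self, norm_zero]
  have h1 : 0 < ‖R.ρ z - 1‖ := by
    rw [norm_pos_iff, sub_ne_zero]
    intro h
    apply hz
    apply R.inj
    rw [h, map_one]
  have h2 : 0 < ‖R.ρ z - 1‖ ^ 2 := by positivity
  linarith

theorem norm_ρ_mul_inv_sub (x y : G) : ‖R.ρ (x * y⁻¹) - 1‖ = ‖R.ρ x - R.ρ y‖ := by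
  rw [← R.mul_norm y, sub_mul, one_mul, ← map_mul, inv_mul_cancel_right]

theorem exists_functional (y : G) :
    ∃ φ : A →L[ℝ] ℝ, ∀ x : G, R.peak (x * y⁻¹) = φ (R.ρ x) + (‖(1 : A)‖ ^ 2 + 1) := by
  letI : InnerProductSpace ℝ A :=
    InnerProductSpace.ofNorm ℝ InnerProductSpaceable.parallelogram_identity
  refine ⟨innerSL ℝ (R.ρ y), fun x => ?_⟩
  unfold peak
  rw [norm_ρ_mul_inv_sub]
  have h1 := norm_sub_sq_real (R.ρ x) (R.ρ y)
  rw [h1, norm_ρ, norm_ρ, innerSL_apply_apply, real_inner_comm]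
  ring

/-- The kernels belong to `V d`. -/
theorem kernel_mem (d : ℕ) (y : G) :
    (⟨fun x => R.peak (x * y⁻¹) ^ d, (continuous_peak.comp
      (continuous_id.mul continuous_const)).pow d⟩ : C(G, ℝ)) ∈ R.V d := by
  obtain ⟨φ, hφ⟩ := exists_functional (R := R) y
  have h1 : (⟨fun x => R.peak (x * y⁻¹), continuous_peak.comp
      (continuous_id.mul continuous_const)⟩ : C(G, ℝ)) ∈ R.V₁ := by
    refine ⟨(φ, ‖(1 : A)‖ ^ 2 + 1), ?_⟩
    ext x
    exact (hφ x).symm
  exact Submodule.pow_mem_pow _ h1 d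

variable [MeasurableSpace G] [BorelSpace G] {μ : Measure G} [μ.IsHaarMeasure]
  [IsProbabilityMeasure μ]

/-- The regularised functions. -/
noncomputable def reg (R : FRep G A) (μ : Measure G) (f : G → ℝ) (d : ℕ) (x : G) : ℝ :=
  (∫ z, R.peak z ^ d ∂μ)⁻¹ * ∫ z, R.peak z ^ d * f (z⁻¹ * x) ∂μ

theorem mass_pos (d : ℕ) : 0 < ∫ z, R.peak z ^ d ∂μ := by
  have h1 : ∫ _ : G, (1 : ℝ) ∂μ ≤ ∫ z, R.peak z ^ d ∂μ :=
    integral_mono (integrable_const _) (integrable_cont μ (continuous_peak.pow d))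
      fun z => one_le_pow₀ (one_le_peak z)
  simp only [integral_const, probReal_univ, smul_eq_mul, mul_one] at h1
  linarith

theorem integrable_reg (d : ℕ) {f : G → ℝ} (hf : Continuous f) (x : G) :
    Integrable (fun z => R.peak z ^ d * f (z⁻¹ * x)) μ :=
  integrable_cont μ ((continuous_peak.pow d).mul
    (hf.comp (continuous_inv.mul continuous_const)))

theorem abs_reg_sub_le (d : ℕ) {f : G → ℝ} (hf : Continuous f) {x y : G} {C : ℝ}
    (h : ∀ z, |f (z⁻¹ * x) - f (z⁻¹ * y)| ≤ C) : |R.reg μ f d x - R.reg μ f d y| ≤ C := by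
  unfold reg
  rw [← mul_sub, ← integral_sub (integrable_reg d hf x) (integrable_reg d hf y), abs_mul,
    abs_of_pos (inv_pos.2 (mass_pos d)), inv_mul_le_iff₀ (mass_pos d)]
  refine (abs_integral_le_integral_abs).trans ?_
  rw [← integral_mul_const]
  refine integral_mono_of_nonneg (Eventually.of_forall fun z => abs_nonneg _)
    (integrable_cont μ ((continuous_peak.pow d).mul continuous_const))
    (Eventually.of_forall fun z => ?_)
  have h1 : 0 < R.peak z ^ d := pow_pos (zero_lt_one.trans_le (one_le_peak z)) d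
  change |R.peak z ^ d * f (z⁻¹ * x) - R.peak z ^ d * f (z⁻¹ * y)| ≤ R.peak z ^ d * C
  rw [← mul_sub, abs_mul, abs_of_pos h1]
  exact mul_le_mul_of_nonneg_left (h z) h1.le

theorem abs_reg_le (d : ℕ) {f : G → ℝ} (hf : Continuous f) {C : ℝ} (h : ∀ z, |f z| ≤ C)
    (x : G) : |R.reg μ f d x| ≤ C := by
  unfold reg
  rw [abs_mul, abs_of_pos (inv_pos.2 (mass_pos d)), inv_mul_le_iff₀ (mass_pos d)]
  refine (abs_integral_le_integral_abs).trans ?_
  rw [← integral_mul_const]
  refine integral_mono_of_nonneg (Eventually.of_forall fun z => abs_nonneg _)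
    (integrable_cont μ ((continuous_peak.pow d).mul continuous_const))
    (Eventually.of_forall fun z => ?_)
  have h1 : 0 < R.peak z ^ d := pow_pos (zero_lt_one.trans_le (one_le_peak z)) d
  change |R.peak z ^ d * f (z⁻¹ * x)| ≤ R.peak z ^ d * C
  rw [abs_mul, abs_of_pos h1]
  exact mul_le_mul_of_nonneg_left (h _) h1.le

/-- Second formula for the regularisation. -/
theorem reg_eq (f : G → ℝ) (d : ℕ) (x : G) :
    R.reg μ f d x = (∫ z, R.peak z ^ d ∂μ)⁻¹ * ∫ y, R.peak (x * y⁻¹) ^ d * f y ∂μ := by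
  unfold reg
  congr 1
  rw [← integral_inv_haar, ← integral_mul_right_haar _ x⁻¹]
  refine integral_congr_ae (Eventually.of_forall fun y => ?_)
  simp

theorem exists_reg_mem {f : G → ℝ} (hf : Continuous f) (d : ℕ) :
    ∃ g ∈ R.V d, ∀ x, g x = R.reg μ f d x := by
  -- the kernel as a continuous family of continuous functions
  let K : C(G × G, ℝ) := ⟨fun q => f q.1 * R.peak (q.2 * q.1⁻¹) ^ d,
    (hf.comp continuous_fst).mul ((continuous_peak.comp
      (continuous_snd.mul continuous_fst.inv)).pow d)⟩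
  let F : C(G, C(G, ℝ)) := K.curry
  have hFmem : ∀ y, F y ∈ R.V d := by
    intro y
    have h1 := (R.V d).smul_mem (f y) (kernel_mem d y)
    have h2 : F y = f y • (⟨fun x => R.peak (x * y⁻¹) ^ d, (continuous_peak.comp
      (continuous_id.mul continuous_const)).pow d⟩ : C(G, ℝ)) := by
      ext x
      rfl
    rw [h2]
    exact h1
  have hFint : Integrable F μ := F.continuous.integrable_of_hasCompactSupport
    (HasCompactSupport.of_compactSpace _)
  have hcl : IsClosed (R.V d : Set C(G, ℝ)) := (R.V d).closed_of_finiteDimensional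
  have hmem : ∫ y, F y ∂μ ∈ (R.V d : Set C(G, ℝ)) :=
    (R.V d).convex.integral_mem hcl (Eventually.of_forall hFmem) hFint
  refine ⟨(∫ z, R.peak z ^ d ∂μ)⁻¹ • ∫ y, F y ∂μ, (R.V d).smul_mem _ hmem, fun x => ?_⟩
  rw [reg_eq]
  change (∫ z, R.peak z ^ d ∂μ)⁻¹ * (∫ y, F y ∂μ) x = _
  congr 1
  have h1 := (ContinuousMap.evalCLM ℝ x).integral_comp_comm hFint
  change (∫ y, F y x ∂μ) = (∫ y, F y ∂μ) x at h1
  rw [← h1]
  refine integral_congr_ae (Eventually.of_forall fun y => ?_)
  change f y * R.peak (x * y⁻¹) ^ d = R.peak (x * y⁻¹) ^ d * f y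
  ring

theorem metrizableSpace (R : FRep G A) : TopologicalSpace.MetrizableSpace G := by
  have h1 : IsClosedEmbedding R.ρ := R.cont.isClosedEmbedding R.inj
  exact h1.isEmbedding.metrizableSpace

theorem tendsto_reg {f : G → ℝ} (hf : Continuous f) (x : G) :
    Tendsto (fun d => R.reg μ f d x) atTop (𝓝 (f x)) := by
  haveI := R.metrizableSpace
  have h1 := tendsto_setIntegral_pow_smul_of_unique_maximum_of_isCompact_of_continuousOn
    (μ := μ) (s := (univ : Set G)) (x₀ := (1 : G)) (c := R.peak) (g := fun z => f (z⁻¹ * x))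
    isCompact_univ continuous_peak.continuousOn (fun y _ hy => peak_lt hy)
    (fun y _ => zero_le_one.trans (one_le_peak y)) (zero_lt_one.trans_le (one_le_peak 1))
    (by simp) (hf.comp (continuous_inv.mul continuous_const)).continuousOn
  simpa [reg] using h1

/-- The **Poincaré inequality** for Lipschitz functions. -/
theorem PB_of_eigen [ConnectedSpace G] {m : ℕ} (e : Module.Basis (Fin m) ℝ R.L) {c : ℝ}
    (hcpos : 0 < c)
    (hc : ∀ d (l : ℝ) (f : R.V d), 0 < l → f ≠ 0 → Lap R e d f = l • f → c ≤ l)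
    {p : Seminorm ℝ R.L} (hp : ∀ i, p (e i) ≤ 1) : R.data.PB μ p (m / c) := by
  intro f hf hlip
  obtain ⟨C, hC⟩ : ∃ C, ∀ x, |f x| ≤ C := by
    obtain ⟨C, hC⟩ := isCompact_univ.exists_bound_of_continuousOn hf.continuousOn
    exact ⟨C, fun x => hC x (mem_univ x)⟩
  have hvar : ∀ d, ∫ x, (R.reg μ f d x - ∫ y, R.reg μ f d y ∂μ) ^ 2 ∂μ ≤ m / c := by
    intro d
    obtain ⟨g, hg, hgx⟩ := exists_reg_mem (R := R) (μ := μ) hf d
    have h1 : (fun x => R.reg μ f d x) = fun x => g x := by
      funext x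
      exact (hgx x).symm
    have h2 := var_le_of_mem_V (μ := μ) e hcpos hc hp hg (by
      intro x X
      rw [hgx, hgx]
      refine abs_reg_sub_le d hf fun z => ?_
      rw [← mul_assoc]
      exact hlip _ _)
    have h3 : ∀ x, R.reg μ f d x = g x := fun x => (hgx x).symm
    simp only [h3]
    exact h2
  have hcont : ∀ d, Continuous (R.reg μ f d) := by
    intro d
    obtain ⟨g, _, hgx⟩ := exists_reg_mem (R := R) (μ := μ) hf d
    have h1 : R.reg μ f d = g := by
      funext x
      exact (hgx x).symm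
    rw [h1]
    exact g.continuous
  have hmean : Tendsto (fun d => ∫ y, R.reg μ f d y ∂μ) atTop (𝓝 (∫ y, f y ∂μ)) := by
    refine tendsto_integral_of_dominated_convergence (fun _ => C)
      (fun d => (hcont d).aestronglyMeasurable) (integrable_const _) (fun d => ?_) ?_
    · exact Eventually.of_forall fun x => abs_reg_le d hf hC x
    · exact Eventually.of_forall fun x => tendsto_reg hf x
  have hmeanb : ∀ d, |∫ y, R.reg μ f d y ∂μ| ≤ C := by
    intro d
    have h1 := norm_integral_le_of_norm_le_const (μ := μ) (f := R.reg μ f d) (C := C)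
      (Eventually.of_forall fun x => abs_reg_le d hf hC x)
    simpa using h1
  have hlim : Tendsto (fun d => ∫ x, (R.reg μ f d x - ∫ y, R.reg μ f d y ∂μ) ^ 2 ∂μ) atTop
      (𝓝 (∫ x, (f x - ∫ y, f y ∂μ) ^ 2 ∂μ)) := by
    refine tendsto_integral_of_dominated_convergence (fun _ => (2 * C) ^ 2)
      (fun d => (((hcont d).sub continuous_const).pow 2).aestronglyMeasurable)
      (integrable_const _) (fun d => ?_) ?_
    · refine Eventually.of_forall fun x => ?_
      rw [Real.norm_of_nonneg (sq_nonneg _), sq_le_sq]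
      have h1 := abs_reg_le (R := R) (μ := μ) d hf hC x
      have h2 := hmeanb d
      have h3 : 0 ≤ C := (abs_nonneg _).trans (hC 1)
      rw [abs_of_nonneg (by linarith : (0 : ℝ) ≤ 2 * C)]
      refine (abs_sub _ _).trans ?_
      linarith
    · exact Eventually.of_forall fun x => ((tendsto_reg hf x).sub hmean).pow 2
  exact le_of_tendsto hlim (Eventually.of_forall hvar)

end FRep

end Pool.Agent.Work.MP_326c77_gt
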