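import Pool.Agent.Work.MP_326c77_gt.TheoremA

set_option autoImplicit false
set_option linter.style.haveILetI false
set_option linter.unusedSectionVars false

open Filter Topology Set MeasureTheory
open scoped NNReal

namespace Pool.Agent.Work.MP_326c77_gt

namespace GroupData

variable {G L : Type*} [Group G] [TopologicalSpace G] [NormedAddCommGroup L]
  [InnerProductSpace ℝ L] {D : GroupData G L} {p : Seminorm ℝ L} {N Z : Subgroup G}

/-! ### The centre -/

/-- The subspace of the vectors fixed by the adjoint action. -/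
def fixedSub (D : GroupData G L) : Submodule ℝ L where
  carrier := {Y | ∀ g, D.Ad g Y = Y}
  add_mem' := by
    intro X Y hX hY g
    rw [map_add, hX g, hY g]
  zero_mem' := fun g => map_zero _
  smul_mem' := by
    intro c X hX g
    rw [map_smul, hX g]

theorem mem_fixedSub {Y : L} : Y ∈ D.fixedSub ↔ ∀ g, D.Ad g Y = Y := Iff.rfl

theorem inv_fixedSub : D.Inv D.fixedSub := by
  intro g Y hY
  rw [hY g]
  exact hY

theorem noFixed_orth : D.NoFixed D.fixedSubᗮ := by
  intro Y hY h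
  have h1 : inner ℝ Y Y = (0 : ℝ) := (Submodule.mem_orthogonal _ _).1 hY Y h
  exact inner_self_eq_zero.1 h1

theorem Ad_eq_of_mem_fixer [FiniteDimensional ℝ L] {z : G} (hz : z ∈ D.fixer D.fixedSubᗮ)
    (Y : L) : D.Ad z Y = Y := by
  have h1 : Y = D.fixedSub.starProjection Y + (Y - D.fixedSub.starProjection Y) := by abel
  have h2 : D.Ad z (D.fixedSub.starProjection Y) = D.fixedSub.starProjection Y :=
    Submodule.starProjection_apply_mem D.fixedSub Y z
  have h3 : D.Ad z (Y - D.fixedSub.starProjection Y) = Y - D.fixedSub.starProjection Y :=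
    hz _ (Submodule.sub_starProjection_mem_orthogonal Y)
  rw [h1, map_add, h2, h3]

theorem central_of_mem_fixer [FiniteDimensional ℝ L] [IsTopologicalGroup G] [ConnectedSpace G]
    {z : G} (hz : z ∈ D.fixer D.fixedSubᗮ) (x : G) : z * x = x * z := by
  obtain ⟨t, l, rfl, ht⟩ := exists_reach D (0 : Seminorm ℝ L) x
  clear ht
  have hE : ∀ X : L, z * D.E X = D.E X * z := by
    intro X
    have h1 := D.conj z X
    rw [Ad_eq_of_mem_fixer hz] at h1
    exact mul_inv_eq_iff_eq_mul.1 h1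
  induction l with
  | nil => simp
  | cons X l ih =>
    rw [List.map_cons, List.prod_cons, ← mul_assoc, hE, mul_assoc, ih, mul_assoc]

/-! ### Commutators -/

theorem commutator_eq_of_central {a b a' b' : G} (ha : ∀ x, (a'⁻¹ * a) * x = x * (a'⁻¹ * a))
    (hb : ∀ x, (b'⁻¹ * b) * x = x * (b'⁻¹ * b)) : a * b * a⁻¹ * b⁻¹ = a' * b' * a'⁻¹ * b'⁻¹ := by
  obtain ⟨z, rfl⟩ : ∃ z, a = a' * z := ⟨a'⁻¹ * a, by group⟩
  obtain ⟨w, rfl⟩ : ∃ w, b = b' * w := ⟨b'⁻¹ * b, by group⟩
  rw [inv_mul_cancel_left] at ha hb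
  rw [mul_inv_rev, mul_inv_rev]
  have hz' : ∀ x, z⁻¹ * x = x * z⁻¹ := by
    intro x
    rw [inv_mul_eq_iff_eq_mul, ← mul_assoc, ha, mul_assoc, mul_inv_cancel, mul_one]
  have hw' : ∀ x, w⁻¹ * x = x * w⁻¹ := by
    intro x
    rw [inv_mul_eq_iff_eq_mul, ← mul_assoc, hb, mul_assoc, mul_inv_cancel, mul_one]
  calc a' * z * (b' * w) * (z⁻¹ * a'⁻¹) * (w⁻¹ * b'⁻¹)
      = a' * (z * (b' * w)) * (z⁻¹ * a'⁻¹) * (w⁻¹ * b'⁻¹) := by simp only [mul_assoc]
    _ = a' * (b' * w * z) * (z⁻¹ * a'⁻¹) * (w⁻¹ * b'⁻¹) := by rw [ha]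
    _ = a' * b' * (w * a'⁻¹) * (w⁻¹ * b'⁻¹) := by group
    _ = a' * b' * (a'⁻¹ * w) * (w⁻¹ * b'⁻¹) := by rw [hb]
    _ = a' * b' * a'⁻¹ * b'⁻¹ := by group

theorem reach_commutator (hZ : ∀ z ∈ Z, ∀ x, z * x = x * z) {τ : ℝ} {a b : G}
    (ha : D.ReachN p Z τ a) (hb : D.ReachN p Z τ b) : D.Reach p (4 * τ) (a * b * a⁻¹ * b⁻¹) := by
  obtain ⟨a', ha', haZ⟩ := ha
  obtain ⟨b', hb', hbZ⟩ := hb
  rw [commutator_eq_of_central (hZ _ haZ) (hZ _ hbZ)]
  have := ((ha'.mul hb').mul ha'.inv).mul hb'.inv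
  exact this.mono (by linarith)

variable [FiniteDimensional ℝ L] [IsTopologicalGroup G] [ConnectedSpace G]

variable [MeasurableSpace G] [BorelSpace G] {μ : Measure G}

/-- Passing from `G` modulo the centre and `G` modulo `N` to `G`. -/
theorem good_bot_of (hZ : ∀ z ∈ Z, ∀ x, z * x = x * z) (hZgood : D.Good μ Z) {M : ℕ}
    (hM : ∀ x ∈ N, ∃ l : List G, l.length = M ∧ (∀ y ∈ l, ∃ a b, y = a * b * a⁻¹ * b⁻¹) ∧ l.prod = x)
    (hNgood : D.Good μ N) : D.Good μ ⊥ := by
  obtain ⟨c, hc, h⟩ := hZgood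
  obtain ⟨c', hc', h'⟩ := hNgood
  set K : ℝ := Real.sqrt (1 / c') + M * (4 * Real.sqrt (1 / c)) with hK
  have hK0 : 0 < K := by positivity
  refine ⟨(K ^ 2)⁻¹, by positivity, fun p v hPB x => ?_⟩
  have hv : 0 ≤ v := hPB.nonneg
  have key : ∀ ε > 0, D.ell p ⊥ x ≤ K * Real.sqrt v + ε := by
    intro ε hε
    set δ := ε / (1 + 4 * M) with hδ
    have hδpos : 0 < δ := by positivity
    have h1 : ∀ y, D.ReachN p Z (Real.sqrt (1 / c) * Real.sqrt v + δ) y := by
      intro y
      apply reachN_of_ell_lt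
      have h2 : D.ell p Z y ≤ Real.sqrt (1 / c) * Real.sqrt v := by
        rw [← Real.sqrt_mul (by positivity)]
        apply Real.le_sqrt_of_sq_le
        rw [one_div, inv_mul_eq_div, le_div_iff₀ hc]
        linarith [h p v hPB y]
      linarith
    have h3 : D.ReachN p N (Real.sqrt (1 / c') * Real.sqrt v + δ) x := by
      apply reachN_of_ell_lt
      have h2 : D.ell p N x ≤ Real.sqrt (1 / c') * Real.sqrt v := by
        rw [← Real.sqrt_mul (by positivity)]
        apply Real.le_sqrt_of_sq_le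
        rw [one_div, inv_mul_eq_div, le_div_iff₀ hc']
        linarith [h' p v hPB x]
      linarith
    obtain ⟨y, hy, hyx⟩ := h3
    obtain ⟨l, hl, hlc, hlx⟩ := hM _ hyx
    have h4 : D.Reach p (l.length * (4 * (Real.sqrt (1 / c) * Real.sqrt v + δ))) l.prod := by
      apply reach_list
      intro z hz
      obtain ⟨a, b, rfl⟩ := hlc z hz
      exact reach_commutator hZ (h1 a) (h1 b)
    rw [hl, hlx] at h4
    have h5 := hy.mul h4
    rw [mul_inv_cancel_left] at h5
    refine (h5.reachN (N := ⊥)).ell_le.trans (le_of_eq ?_)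
    rw [hK]
    have : ε = δ * (1 + 4 * M) := by
      rw [hδ]
      field_simp
    rw [this]
    ring
  have h6 : D.ell p ⊥ x ≤ K * Real.sqrt v := le_of_forall_pos_le_add fun ε hε => key ε hε
  rw [inv_mul_le_iff₀ (by positivity)]
  have h7 := ell_nonneg (D := D) (p := p) (N := ⊥) x
  calc D.ell p ⊥ x ^ 2 ≤ (K * Real.sqrt v) ^ 2 := by gcongr
    _ = K ^ 2 * v := by rw [mul_pow, Real.sq_sqrt hv]

/-! ### Large quotients: abelian case -/

theorem ell_congr {x y : G} (h : x⁻¹ * y ∈ N) : D.ell p N x = D.ell p N y := by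
  unfold ell
  congr 1
  ext t
  constructor
  · intro ht
    exact ReachN.congr ht h
  · intro ht
    refine ReachN.congr ht ?_
    have := N.inv_mem h
    simpa using this

/-- Fifth roots modulo a subgroup containing the commutators. -/
theorem exists_root [N.Normal] (hcomm : ∀ a b : G, a * b * a⁻¹ * b⁻¹ ∈ N) {t : ℝ} {x : G}
    (hx : D.Reach p t x) : ∃ y, D.Reach p (t / 5) y ∧ (y ^ 5)⁻¹ * x ∈ N := by
  have hq : ∀ a b : G, (a : G ⧸ N) * b = b * a := by
    intro a b
    rw [← QuotientGroup.mk_mul, ← QuotientGroup.mk_mul, QuotientGroup.eq]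
    have := hcomm b⁻¹ a⁻¹
    simpa [mul_assoc] using this
  obtain ⟨l, rfl, hl⟩ := hx
  have h1 : ∃ y, D.Reach p ((l.map p).sum / 5) y ∧ (y ^ 5)⁻¹ * (l.map D.E).prod ∈ N := by
    clear hl
    induction l with
    | nil => exact ⟨1, by simpa using reach_one, by simp [N.one_mem]⟩
    | cons X l ih =>
      obtain ⟨y, hy, hyN⟩ := ih
      refine ⟨D.E ((5 : ℝ)⁻¹ • X) * y, ?_, ?_⟩
      · have h2 := (reach_E (D := D) (p := p) ((5 : ℝ)⁻¹ • X)).mul hy
        refine h2.mono (le_of_eq ?_)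
        rw [map_smul_eq_mul, List.map_cons, List.sum_cons, norm_inv, Real.norm_of_nonneg (by norm_num)]
        ring
      · rw [← QuotientGroup.eq] at hyN ⊢
        rw [QuotientGroup.mk_pow] at hyN ⊢
        rw [List.map_cons, List.prod_cons, QuotientGroup.mk_mul, QuotientGroup.mk_mul]
        have hc : Commute ((D.E ((5 : ℝ)⁻¹ • X) : G) : G ⧸ N) (y : G ⧸ N) := hq _ _
        rw [hc.mul_pow, hyN, ← QuotientGroup.mk_pow]
        congr 2
        have h3 : ∀ n : ℕ, D.E ((5 : ℝ)⁻¹ • X) ^ n = D.E (((n : ℝ) * (5 : ℝ)⁻¹) • X) := by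
          intro n
          induction n with
          | zero => simp [D.E_zero]
          | succ n ih =>
            rw [pow_succ, ih, ← D.E_add]
            congr 2
            push_cast
            ring
        rw [h3]
        norm_num
  obtain ⟨y, hy, hyN⟩ := h1
  exact ⟨y, hy.mono (by linarith), hyN⟩

/-- **Theorem C.**  A closed normal subgroup `N` containing the commutators, and having finite
index in a subgroup containing all `x` with `x ^ 5 ∈ N`, is good. -/
theorem good_of_root [CompactSpace G] [μ.IsHaarMeasure] [IsProbabilityMeasure μ] [N.Normal]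
    (hcomm : ∀ a b : G, a * b * a⁻¹ * b⁻¹ ∈ N) (κ : Finset G)
    (hκ : ∀ x, x ^ 5 ∈ N → ∃ k ∈ κ, x * k⁻¹ ∈ N) : D.Good μ N := by
  have hκne : 0 < κ.card := by
    obtain ⟨k, hk, _⟩ := hκ 1 (by simp [N.one_mem])
    exact Finset.card_pos.2 ⟨k, hk⟩
  have hκpos : (0 : ℝ) < κ.card := by exact_mod_cast hκne
  refine ⟨(16 * (κ.card : ℝ))⁻¹, by positivity, fun p v hPB x => ?_⟩
  have hv : 0 ≤ v := hPB.nonneg
  have hcont : Continuous (D.ell p N) := continuous_ell
  obtain ⟨x₀, _, hx₀⟩ := isCompact_univ.exists_isMaxOn (univ_nonempty (α := G)) hcont.continuousOn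
  have hmax : ∀ y, D.ell p N y ≤ D.ell p N x₀ := fun y => hx₀ (mem_univ y)
  set d := D.ell p N x₀ with hd
  have hd0 : 0 ≤ d := ell_nonneg x₀
  have hle : D.ell p N x ^ 2 ≤ d ^ 2 := by
    have := ell_nonneg (D := D) (p := p) (N := N) x
    have := hmax x
    gcongr
  rcases hd0.eq_or_lt with h0 | hdpos
  · rw [← h0] at hle
    have : D.ell p N x ^ 2 = 0 := le_antisymm (by simpa using hle) (sq_nonneg _)
    rw [this, mul_zero]
    exact hv
  set U : Set G := {y | D.ell p N y ≤ d / 4} with hU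
  have hUm : MeasurableSet U := (isClosed_le hcont continuous_const).measurableSet
  -- every element is in `k U` for some `k ∈ κ`
  have hcover : (univ : Set G) ⊆ ⋃ k ∈ κ, (fun y => k⁻¹ * y) ⁻¹' U := by
    intro y _
    have h1 : D.ReachN p N (5 * (d / 4)) (y ^ 5) := by
      apply reachN_of_ell_lt
      have := hmax (y ^ 5)
      linarith
    obtain ⟨w, hw, hwN⟩ := h1
    obtain ⟨u, hu, huN⟩ := exists_root hcomm hw
    have h2 : (u ^ 5)⁻¹ * y ^ 5 ∈ N := by
      have := N.mul_mem huN hwN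
      simpa [mul_assoc] using this
    have hq : ∀ a b : G, (a : G ⧸ N) * b = b * a := by
      intro a b
      rw [← QuotientGroup.mk_mul, ← QuotientGroup.mk_mul, QuotientGroup.eq]
      have := hcomm b⁻¹ a⁻¹
      simpa [mul_assoc] using this
    have h3 : (u⁻¹ * y) ^ 5 ∈ N := by
      rw [← QuotientGroup.eq_one_iff, QuotientGroup.mk_pow, QuotientGroup.mk_mul]
      have hc : Commute ((u⁻¹ : G) : G ⧸ N) (y : G ⧸ N) := hq _ _
      rw [hc.mul_pow, ← QuotientGroup.mk_pow, ← QuotientGroup.mk_pow, ← QuotientGroup.mk_mul,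
        QuotientGroup.eq_one_iff]
      simpa using h2
    obtain ⟨k, hk, hkN⟩ := hκ _ h3
    simp only [mem_iUnion, exists_prop]
    refine ⟨k, hk, ?_⟩
    have h4 : u⁻¹ * (k⁻¹ * y) ∈ N := by
      rw [← QuotientGroup.eq_one_iff] at hkN ⊢
      rw [QuotientGroup.mk_mul, QuotientGroup.mk_mul] at hkN ⊢
      rw [hq k⁻¹ y, ← mul_assoc]
      exact hkN
    have h5 : D.ell p N (k⁻¹ * y) = D.ell p N u := (ell_congr h4).symm
    change D.ell p N (k⁻¹ * y) ≤ d / 4
    rw [h5]
    have h6 := (hu.reachN (N := N)).ell_le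
    linarith
  have hmeas : 1 ≤ (κ.card : ℝ) * μ.real U := by
    have h1 : μ.real (univ : Set G) ≤ ∑ k ∈ κ, μ.real ((fun y => k⁻¹ * y) ⁻¹' U) := by
      refine (measureReal_mono hcover (measure_ne_top μ _)).trans ?_
      exact measureReal_biUnion_finset_le κ _
    have h2 : ∀ k ∈ κ, μ.real ((fun y => k⁻¹ * y) ⁻¹' U) = μ.real U := by
      intro k _
      rw [measureReal_def, measureReal_def, measure_preimage_mul]
    rw [Finset.sum_congr rfl h2, Finset.sum_const, nsmul_eq_mul, probReal_univ] at h1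
    exact h1
  have hvar := variance_bound hPB N hUm (x := x₀) (fun y hy => hy)
  rw [← hd] at hvar
  rw [inv_mul_le_iff₀ (by positivity)]
  have hU0 : 0 ≤ μ.real U := measureReal_nonneg
  calc D.ell p N x ^ 2 ≤ d ^ 2 * 1 := by linarith
    _ ≤ d ^ 2 * ((κ.card : ℝ) * μ.real U) := by gcongr
    _ = 16 * (κ.card : ℝ) * ((d / 4) ^ 2 * μ.real U) := by ring
    _ ≤ 16 * (κ.card : ℝ) * v := by gcongr

/-- The final assembly: `G` itself is good. -/
theorem good_bot [CompactSpace G] [μ.IsHaarMeasure] [IsProbabilityMeasure μ] [N.Normal]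
    (hcomm : ∀ a b : G, a * b * a⁻¹ * b⁻¹ ∈ N) {M : ℕ}
    (hM : ∀ x ∈ N, ∃ l : List G, l.length = M ∧ (∀ y ∈ l, ∃ a b, y = a * b * a⁻¹ * b⁻¹) ∧ l.prod = x)
    (κ : Finset G) (hκ : ∀ x, x ^ 5 ∈ N → ∃ k ∈ κ, x * k⁻¹ ∈ N) : D.Good μ ⊥ :=
  good_bot_of (Z := D.fixer D.fixedSubᗮ) (fun _ hz x => central_of_mem_fixer hz x)
    (good_fixer _ _ rfl (Inv.orth D inv_fixedSub) noFixed_orth) hM (good_of_root hcomm κ hκ)

end GroupData

end Pool.Agent.Work.MP_326c77_gt
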