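import Pool.Agent.Work.MP_326c77_gt.Limit

set_option autoImplicit false
set_option linter.style.haveILetI false
set_option linter.unusedSectionVars false

open Filter Topology Set MeasureTheory
open scoped NNReal

namespace Pool.Agent.Work.MP_326c77_gt

namespace GroupData

variable {G L : Type*} [Group G] [TopologicalSpace G] [NormedAddCommGroup L]
  [InnerProductSpace ℝ L] {D : GroupData G L} {N : Subgroup G}
  [FiniteDimensional ℝ L] {𝔰 : Submodule ℝ L}

theorem tendsto_Ad {ι : Type*} {F : Filter ι} {y : ι → G} {x : G} {Z : ι → L} {Y : L}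
    (hy : Tendsto y F (𝓝 x)) (hZ : Tendsto Z F (𝓝 Y)) :
    Tendsto (fun k => D.Ad (y k) (Z k)) F (𝓝 (D.Ad x Y)) := by
  have h1 : Tendsto (fun k => D.Ad (y k) Y) F (𝓝 (D.Ad x Y)) :=
    ((D.cont_Ad Y).tendsto x).comp hy
  have h2 : Tendsto (fun k => D.Ad (y k) (Z k) - D.Ad (y k) Y) F (𝓝 0) := by
    rw [tendsto_zero_iff_norm_tendsto_zero]
    have h3 : ∀ k, ‖D.Ad (y k) (Z k) - D.Ad (y k) Y‖ = ‖Z k - Y‖ := by
      intro k
      rw [← map_sub, norm_Ad]
    simp only [h3]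
    have h4 := (hZ.sub_const Y).norm
    simpa using h4
  have h5 := h2.add h1
  simpa using h5

theorem reachN_ofFn [N.Normal] {p : Seminorm ℝ L} {m : ℕ} {f : Fin m → G} {a : Fin m → ℝ}
    (h : ∀ j, D.ReachN p N (a j) (f j)) : D.ReachN p N (∑ j, a j) (List.ofFn f).prod := by
  induction m with
  | zero => simpa using (reach_one (D := D) (p := p)).reachN (N := N)
  | succ m ih =>
    rw [List.ofFn_succ, List.prod_cons, Fin.sum_univ_succ]
    exact (h 0).mul (ih fun j => h j.succ)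

/-- The element `E (s Ad y (pr X))` is reachable modulo the fixer in time
`2 t + |s| p X`, if `y` is reachable in time `t`. -/
theorem reachN_E_Ad (hinv : D.Inv 𝔰) {p : Seminorm ℝ L} {t : ℝ} {y : G}
    (hy : D.ReachN p (D.fixer 𝔰) t y) (X : L) (s : ℝ) :
    D.ReachN p (D.fixer 𝔰) (2 * t + |s| * p X)
      (D.E (s • D.Ad y (𝔰.starProjection X))) := by
  haveI := hinv.normal_fixer
  have h1 : D.ReachN p (D.fixer 𝔰) (p (s • X)) (D.E (s • X)) := (reach_E _).reachN
  have h2 := (hy.mul h1).mul hy.inv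
  have h3 : t + p (s • X) + t = 2 * t + |s| * p X := by
    rw [map_smul_eq_mul, Real.norm_eq_abs]
    ring
  rw [h3] at h2
  refine h2.congr ?_
  have h4 := conj_E_inv_mul_mem hinv y (s • X)
  rwa [map_smul, map_smul] at h4

theorem case_one [IsTopologicalGroup G] [CompactSpace G] [ConnectedSpace G] [MeasurableSpace G]
    [BorelSpace G] {μ : Measure G} [μ.IsHaarMeasure] [IsProbabilityMeasure μ]
    (hinv : D.Inv 𝔰) (B : BadSeq D μ (D.fixer 𝔰)) (𝒰 : Ultrafilter ℕ)
    (h𝒰 : (𝒰 : Filter ℕ) ≤ atTop) (X : ℕ → L) (Y : L)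
    (hY : Tendsto (fun k => 𝔰.starProjection (X k)) (𝒰 : Filter ℕ) (𝓝 Y)) (C : ℝ)
    (hC : ∀ k, B.p k (X k) ≤ C) (hspan : D.orbitSpan Y univ = 𝔰) : False := by
  haveI := hinv.normal_fixer
  have hC0 : 0 ≤ C := (apply_nonneg (B.p 0) (X 0)).trans (hC 0)
  -- choice of the scale
  obtain ⟨j, hj⟩ : ∃ j : ℕ, 3 * (Module.finrank ℝ L : ℝ) * (2 / 2 ^ j) ≤ 1 / 4 := by
    have h1 : Tendsto (fun j : ℕ => 3 * (Module.finrank ℝ L : ℝ) * (2 / 2 ^ j)) atTop (𝓝 0) := by
      have h2 : Tendsto (fun j : ℕ => (1 / 2 : ℝ) ^ j) atTop (𝓝 0) :=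
        tendsto_pow_atTop_nhds_zero_of_lt_one (by norm_num) (by norm_num)
      have h3 := h2.const_mul (3 * (Module.finrank ℝ L : ℝ) * 2)
      rw [mul_zero] at h3
      refine h3.congr fun j => ?_
      rw [one_div, inv_pow]
      ring
    exact (h1.eventually (ge_mem_nhds (by norm_num : (0 : ℝ) < 1 / 4))).exists
  set t : ℝ := 2 / 2 ^ j with ht
  have htpos : 0 < t := by positivity
  have h2 : ∀ k x, D.ReachN (B.p k) (D.fixer 𝔰) 2 x := by
    intro k x
    apply reachN_of_ell_lt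
    have := B.hle k x
    linarith
  have hsp : D.orbitSpan Y (D.limBall (D.fixer 𝔰) B.p 𝒰 t) = 𝔰 := by
    rw [ht, orbitSpan_limBall h2, hspan]
  obtain ⟨n, hnle, f, hf, hfspan', hfli⟩ : ∃ n : ℕ, (n : ℝ) ≤ Module.finrank ℝ L ∧
      ∃ f : Fin n → L, (∀ i, f i ∈ (fun x => D.Ad x Y) '' (D.limBall (D.fixer 𝔰) B.p 𝒰 t)) ∧
        Submodule.span ℝ (range f) = 𝔰 ∧ LinearIndependent ℝ f := by
    obtain ⟨f, hf, hfspan, hfli⟩ := Submodule.exists_fun_fin_finrank_span_eq ℝ
      ((fun x => D.Ad x Y) '' (D.limBall (D.fixer 𝔰) B.p 𝒰 t))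
    refine ⟨_, by exact_mod_cast Submodule.finrank_le _, f, hf, ?_, hfli⟩
    rw [hfspan]
    exact hsp
  choose y hyA hyf using hf
  choose yy hyy hyylim using hyA
  -- fill
  set c : ℝ := t / (C + 1) with hc
  have hcpos : 0 < c := by positivity
  obtain ⟨U, hU, hfill⟩ := fill_mod hinv (P := f) (Q := fun _ => 0)
    (by simpa using hfli) (by simpa using hfspan') hcpos
  set z : ℕ → (Fin n → L) × (Fin n → L) := fun k =>
    (fun i => D.Ad (yy i k) (𝔰.starProjection (X k)), fun _ => 0) with hz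
  have hzlim : Tendsto z (𝒰 : Filter ℕ) (𝓝 (f, fun _ => 0)) := by
    refine Tendsto.prodMk_nhds ?_ tendsto_const_nhds
    rw [tendsto_pi_nhds]
    intro i
    rw [← hyf i]
    exact tendsto_Ad (hyylim i) hY
  have hev : ∀ᶠ k in (𝒰 : Filter ℕ), ∀ x ∈ U, D.ell (B.p k) (D.fixer 𝔰) x ≤ 1 / 4 := by
    have hall : ∀ᶠ k in (𝒰 : Filter ℕ), ∀ i, D.ReachN (B.p k) (D.fixer 𝔰) t (yy i k) :=
      eventually_all.2 hyy
    filter_upwards [hzlim.eventually hfill, hall] with k hk hreach x hx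
    obtain ⟨s, hs, hprod⟩ := hk x hx
    have h3 : ∀ i, D.ReachN (B.p k) (D.fixer 𝔰) (3 * t)
        (D.E (s i • (z k).1 i) * D.E (-(s i) • (z k).2 i)) := by
      intro i
      simp only [hz, smul_zero, D.E_zero, mul_one]
      refine (reachN_E_Ad hinv (hreach i) (X k) (s i)).mono ?_
      have h4 : |s i| * B.p k (X k) ≤ c * C := by
        have := hs i
        have h5 := hC k
        have h6 := apply_nonneg (B.p k) (X k)
        gcongr
      have h5 : c * C ≤ t := by
        rw [hc, div_mul_eq_mul_div, div_le_iff₀ (by linarith)]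
        nlinarith
      linarith
    have h4 := (reachN_ofFn h3).congr hprod
    refine h4.ell_le.trans ?_
    rw [Finset.sum_const, Finset.card_univ, Fintype.card_fin, nsmul_eq_mul]
    calc (n : ℝ) * (3 * t) ≤ (Module.finrank ℝ L : ℝ) * (3 * t) := by gcongr
      _ = 3 * (Module.finrank ℝ L : ℝ) * t := by ring
      _ ≤ 1 / 4 := hj
  have hmeas : 0 < μ.real (interior U) := by
    have h3 : (interior U).Nonempty := ⟨1, mem_interior_iff_mem_nhds.2 hU⟩
    exact ENNReal.toReal_pos (isOpen_interior.measure_pos μ h3).ne' (measure_ne_top μ _)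
  have hbound : ∀ᶠ k in (𝒰 : Filter ℕ), (1 / 4 : ℝ) ^ 2 * μ.real (interior U) ≤ B.v k := by
    filter_upwards [hev] with k hk
    obtain ⟨x, hx⟩ := B.hone k
    have := variance_bound (B.hPB k) (D.fixer 𝔰) isOpen_interior.measurableSet (x := x) (by
      intro y hy
      rw [hx]
      exact hk y (interior_subset hy))
    rwa [hx] at this
  have hv : Tendsto B.v (𝒰 : Filter ℕ) (𝓝 0) := B.hv.mono_left h𝒰
  have h3 : (1 / 4 : ℝ) ^ 2 * μ.real (interior U) ≤ 0 := ge_of_tendsto hv hbound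
  have h4 : 0 < (1 / 4 : ℝ) ^ 2 * μ.real (interior U) := by positivity
  linarith

end GroupData

end Pool.Agent.Work.MP_326c77_gt
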