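import Pool.Agent.Work.MP_326c77_gt.CaseOne

set_option autoImplicit false
set_option linter.style.haveILetI false
set_option linter.unusedSectionVars false

open Filter Topology Set MeasureTheory
open scoped NNReal

namespace Pool.Agent.Work.MP_326c77_gt

namespace GroupData

variable {G L : Type*} [Group G] [TopologicalSpace G] [NormedAddCommGroup L]
  [InnerProductSpace ℝ L] {D : GroupData G L} {N : Subgroup G}
  [FiniteDimensional ℝ L] {W W' : Submodule ℝ L}

/-- `u` is reachable in time `t` and acts almost trivially on `W'`. -/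
def Slow (D : GroupData G L) (p : Seminorm ℝ L) (W' : Submodule ℝ L) (t η : ℝ) (u : G) : Prop :=
  D.Reach p t u ∧ ∀ Y ∈ W', ‖D.Ad u Y - Y‖ ≤ η * ‖Y‖

theorem slow_one {p : Seminorm ℝ L} : D.Slow p W' 0 0 1 :=
  ⟨reach_one, fun Y _ => by simp [D.Ad_one]⟩

theorem Slow.mul {p : Seminorm ℝ L} {t η t' η' : ℝ} {u u' : G} (h : D.Slow p W' t η u)
    (h' : D.Slow p W' t' η' u') : D.Slow p W' (t + t') (η + η') (u * u') := by
  refine ⟨h.1.mul h'.1, fun Y hY => ?_⟩
  have h1 := norm_Ad_mul_sub_le (D := D) u u' Y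
  have h2 := h.2 Y hY
  have h3 := h'.2 Y hY
  rw [add_mul]
  linarith

theorem slow_ofFn {p : Seminorm ℝ L} {t η : ℝ} {m : ℕ} {f : Fin m → G}
    (h : ∀ j, D.Slow p W' t η (f j)) : D.Slow p W' (m * t) (m * η) (List.ofFn f).prod := by
  induction m with
  | zero => simpa using slow_one (D := D) (p := p) (W' := W')
  | succ m ih =>
    rw [List.ofFn_succ, List.prod_cons]
    have h1 := (h 0).mul (ih fun j => h j.succ)
    have e1 : ((m + 1 : ℕ) : ℝ) * t = t + m * t := by push_cast; ring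
    have e2 : ((m + 1 : ℕ) : ℝ) * η = η + m * η := by push_cast; ring
    rw [e1, e2]
    exact h1

/-- Lifting of lists modulo a normal subgroup. -/
theorem exists_slow_list [N.Normal] {p : Seminorm ℝ L} {t η : ℝ} {l : List G}
    (h : ∀ y ∈ l, ∃ u, D.Slow p W' t η u ∧ u⁻¹ * y ∈ N) :
    ∃ u, D.Slow p W' (l.length * t) (l.length * η) u ∧ u⁻¹ * l.prod ∈ N := by
  induction l with
  | nil => exact ⟨1, by simpa using slow_one (D := D) (p := p) (W' := W'), by simp [N.one_mem]⟩
  | cons a l ih =>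
    obtain ⟨u, hu, huN⟩ := h a (by simp)
    obtain ⟨w, hw, hwN⟩ := ih fun y hy => h y (by simp [hy])
    refine ⟨u * w, ?_, ?_⟩
    · have h1 := hu.mul hw
      rw [List.length_cons]
      have e1 : ((l.length + 1 : ℕ) : ℝ) * t = t + l.length * t := by push_cast; ring
      have e2 : ((l.length + 1 : ℕ) : ℝ) * η = η + l.length * η := by push_cast; ring
      rw [e1, e2]
      exact h1
    · rw [List.prod_cons]
      rw [← QuotientGroup.eq] at huN hwN ⊢
      rw [QuotientGroup.mk_mul, QuotientGroup.mk_mul, huN, hwN]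

variable [IsTopologicalGroup G] [CompactSpace G] [ConnectedSpace G]

/-- Step (a): every class modulo the fixer of `W` has a representative which is quickly reachable
and acts almost trivially on `W'`. -/
theorem exists_slow_reps (hW : D.Inv W) (hW' : D.Inv W') {p : ℕ → Seminorm ℝ L}
    {𝒰 : Ultrafilter ℕ} {X : ℕ → L} {Y : L}
    (hY : Tendsto (fun k => W.starProjection (X k)) (𝒰 : Filter ℕ) (𝓝 Y))
    (hspan : D.orbitSpan Y univ = W)
    (hX' : Tendsto (fun k => W'.starProjection (X k)) (𝒰 : Filter ℕ) (𝓝 0))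
    (hpX : Tendsto (fun k => p k (X k)) (𝒰 : Filter ℕ) (𝓝 0)) {τ : ℕ → ℝ}
    (hτ : Tendsto τ (𝒰 : Filter ℕ) (𝓝 0))
    (hreach : ∀ k x, D.ReachN (p k) (D.fixer W) (τ k) x) :
    ∃ t η : ℕ → ℝ, Tendsto t (𝒰 : Filter ℕ) (𝓝 0) ∧ Tendsto η (𝒰 : Filter ℕ) (𝓝 0) ∧
      ∀ᶠ k in (𝒰 : Filter ℕ), ∀ x, ∃ u, D.Slow (p k) W' (t k) (η k) u ∧
        u⁻¹ * x ∈ D.fixer W := by
  haveI := hW.normal_fixer
  obtain ⟨n, f, hf, hfspan, hfli⟩ : ∃ n : ℕ, ∃ f : Fin n → L,
      (∀ i, f i ∈ (fun x => D.Ad x Y) '' (univ : Set G)) ∧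
        Submodule.span ℝ (range f) = W ∧ LinearIndependent ℝ f := by
    obtain ⟨f, hf, hfspan, hfli⟩ := Submodule.exists_fun_fin_finrank_span_eq ℝ
      ((fun x => D.Ad x Y) '' (univ : Set G))
    refine ⟨_, f, hf, ?_, hfli⟩
    rw [hfspan]
    exact hspan
  choose y _ hyf using hf
  obtain ⟨U, hU, hfill⟩ := fill_mod hW (P := f) (Q := fun _ => 0)
    (by simpa using hfli) (by simpa using hfspan) one_pos
  obtain ⟨M, hM⟩ := exists_bounded_generation hU
  choose yy hyy hyyN using fun k i => hreach k (y i)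
  set z : ℕ → (Fin n → L) × (Fin n → L) := fun k =>
    (fun i => D.Ad (y i) (W.starProjection (X k)), fun _ => 0) with hz
  have hzlim : Tendsto z (𝒰 : Filter ℕ) (𝓝 (f, fun _ => 0)) := by
    refine Tendsto.prodMk_nhds ?_ tendsto_const_nhds
    rw [tendsto_pi_nhds]
    intro i
    rw [← hyf i]
    exact tendsto_Ad tendsto_const_nhds hY
  refine ⟨fun k => M * (n * (2 * τ k + p k (X k))),
    fun k => M * (n * (2 * ‖W'.starProjection (X k)‖)), ?_, ?_, ?_⟩
  · have := (((hτ.const_mul 2).add hpX).const_mul (n : ℝ)).const_mul (M : ℝ)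
    simpa using this
  · have := ((hX'.norm.const_mul 2).const_mul (n : ℝ)).const_mul (M : ℝ)
    simpa using this
  · filter_upwards [hzlim.eventually hfill] with k hk x
    obtain ⟨l, hl, hlU, rfl⟩ := hM x
    have hlift : ∀ x ∈ l, ∃ u, D.Slow (p k) W' (n * (2 * τ k + p k (X k)))
        (n * (2 * ‖W'.starProjection (X k)‖)) u ∧ u⁻¹ * x ∈ D.fixer W := by
      intro x hx
      obtain ⟨s, hs, hprod⟩ := hk x (hlU x hx)
      set e : Fin n → G := fun i => yy k i * D.E (s i • X k) * (yy k i)⁻¹ with he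
      have hslow : ∀ i, D.Slow (p k) W' (2 * τ k + p k (X k)) (2 * ‖W'.starProjection (X k)‖)
          (e i) := by
        intro i
        have hsi := hs i
        refine ⟨?_, ?_⟩
        · have h1 := ((hyy k i).mul (reach_E (D := D) (p := p k) (s i • X k))).mul (hyy k i).inv
          refine h1.mono ?_
          rw [map_smul_eq_mul, Real.norm_eq_abs]
          have h2 := apply_nonneg (p k) (X k)
          nlinarith
        · intro Z hZ
          have h1 : D.Ad (e i) Z - Z = D.Ad (yy k i)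
              (D.Ad (D.E (s i • X k)) (D.Ad (yy k i)⁻¹ Z) - D.Ad (yy k i)⁻¹ Z) := by
            simp only [he]
            rw [D.Ad_mul, D.Ad_mul, map_sub, D.Ad_Ad_inv]
          rw [h1, norm_Ad]
          have h2 := norm_Ad_E_sub_le hW' (s i • X k) (hW' (yy k i)⁻¹ Z hZ)
          rw [norm_Ad, map_smul, norm_smul, Real.norm_eq_abs] at h2
          refine h2.trans ?_
          have h3 := norm_nonneg (W'.starProjection (X k))
          have h4 : |s i| * ‖W'.starProjection (X k)‖ ≤ 1 * ‖W'.starProjection (X k)‖ := by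
            gcongr
          have h5 := norm_nonneg Z
          nlinarith
      refine ⟨(List.ofFn e).prod, slow_ofFn hslow, ?_⟩
      have hcongr : (List.ofFn e).prod⁻¹ * (List.ofFn fun j => D.E (s j • (z k).1 j) *
          D.E (-(s j) • (z k).2 j)).prod ∈ D.fixer W := by
        refine prod_ofFn_congr fun i => ?_
        simp only [hz, he, smul_zero, D.E_zero, mul_one]
        have h1 := conj_E_inv_mul_mem hW (yy k i) (s i • X k)
        have h2 : D.Ad (yy k i) (W.starProjection (s i • X k))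
            = s i • D.Ad (y i) (W.starProjection (X k)) := by
          rw [map_smul, map_smul]
          congr 1
          exact (D.inv_mul_mem_fixer.1 (hyyN k i) _ (Submodule.starProjection_apply_mem W _)).symm
        rwa [h2] at h1
      have := (D.fixer W).mul_mem hcongr hprod
      simpa [mul_assoc] using this
    obtain ⟨u, hu, huN⟩ := exists_slow_list hlift
    rw [hl] at hu
    exact ⟨u, hu, huN⟩

/-- Step (b): approximation of all elements modulo the fixer of `W'` by quickly reachable elements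
of the fixer of `W`. -/
theorem exists_fixer_approx (hW : D.Inv W) {p : ℕ → Seminorm ℝ L}
    {𝒰 : Ultrafilter ℕ} {t η τ' : ℕ → ℝ} (hη : Tendsto η (𝒰 : Filter ℕ) (𝓝 0))
    (hrep : ∀ᶠ k in (𝒰 : Filter ℕ), ∀ x, ∃ u, D.Slow (p k) W' (t k) (η k) u ∧
        u⁻¹ * x ∈ D.fixer W)
    (hreach' : ∀ k x, D.ReachN (p k) (D.fixer W') (τ' k) x) (b : G) :
    ∃ u : ℕ → G, (∀ᶠ k in (𝒰 : Filter ℕ), u k ∈ D.fixer W ∧
        D.Reach (p k) (τ' k + t k) (u k)) ∧
      ∀ Y ∈ W', Tendsto (fun k => D.Ad (u k) Y) (𝒰 : Filter ℕ) (𝓝 (D.Ad b Y)) := by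
  haveI := hW.normal_fixer
  have h1 : ∀ k, ∃ u : G, (∀ x, ∃ u, D.Slow (p k) W' (t k) (η k) u ∧ u⁻¹ * x ∈ D.fixer W) →
      u ∈ D.fixer W ∧ D.Reach (p k) (τ' k + t k) u ∧
        ∀ Y ∈ W', ‖D.Ad u Y - D.Ad b Y‖ ≤ η k * ‖Y‖ := by
    intro k
    by_cases hk : ∀ x, ∃ u, D.Slow (p k) W' (t k) (η k) u ∧ u⁻¹ * x ∈ D.fixer W
    · obtain ⟨w, hw, hwN⟩ := hreach' k b
      obtain ⟨v, hv, hvN⟩ := hk w
      refine ⟨w * v⁻¹, fun _ => ⟨?_, hw.mul hv.1.inv, ?_⟩⟩
      · have h2 : w * v⁻¹ = v * (v⁻¹ * w) * v⁻¹ := by group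
        rw [h2]
        exact Subgroup.Normal.conj_mem inferInstance _ hvN _
      · intro Y hY
        have h3 := D.inv_mul_mem_fixer.1 hwN Y hY
        have h4 : D.Ad (w * v⁻¹) Y - D.Ad b Y = D.Ad w (D.Ad v⁻¹ Y - Y) := by
          rw [D.Ad_mul, map_sub, h3]
        rw [h4, norm_Ad, norm_Ad_inv_sub]
        exact hv.2 Y hY
    · exact ⟨1, fun h => (hk h).elim⟩
  choose u hu using h1
  refine ⟨u, ?_, ?_⟩
  · filter_upwards [hrep] with k hk
    exact ⟨(hu k hk).1, (hu k hk).2.1⟩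
  · intro Y hY
    rw [tendsto_iff_norm_sub_tendsto_zero]
    refine squeeze_zero' (Eventually.of_forall fun k => norm_nonneg _) ?_
      (by simpa using hη.mul_const ‖Y‖)
    filter_upwards [hrep] with k hk
    exact (hu k hk).2.2 Y hY

/-- Lifting of lists, second version. -/
theorem exists_reach_list [N.Normal] {H : Subgroup G} {p : Seminorm ℝ L} {t : ℝ} {l : List G}
    (h : ∀ y ∈ l, ∃ u ∈ H, D.Reach p t u ∧ u⁻¹ * y ∈ N) :
    ∃ u ∈ H, D.Reach p (l.length * t) u ∧ u⁻¹ * l.prod ∈ N := by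
  induction l with
  | nil => exact ⟨1, H.one_mem, by simpa using reach_one (D := D) (p := p), by simp [N.one_mem]⟩
  | cons a l ih =>
    obtain ⟨u, huH, hu, huN⟩ := h a (by simp)
    obtain ⟨w, hwH, hw, hwN⟩ := ih fun y hy => h y (by simp [hy])
    refine ⟨u * w, H.mul_mem huH hwH, ?_, ?_⟩
    · have h1 := hu.mul hw
      rw [List.length_cons]
      have e1 : ((l.length + 1 : ℕ) : ℝ) * t = t + l.length * t := by push_cast; ring
      rw [e1]
      exact h1
    · rw [List.prod_cons]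
      rw [← QuotientGroup.eq] at huN hwN ⊢
      rw [QuotientGroup.mk_mul, QuotientGroup.mk_mul, huN, hwN]

/-- Step (c): all classes modulo the fixer of `W'` are represented by quickly reachable elements
of the fixer of `W`. -/
theorem exists_fixer_reps (hW : D.Inv W) (hW' : D.Inv W') (hnf : D.NoFixed W')
    {p : ℕ → Seminorm ℝ L} {𝒰 : Ultrafilter ℕ} {ρ τ' : ℕ → ℝ}
    (hρ : Tendsto ρ (𝒰 : Filter ℕ) (𝓝 0)) (hτ' : Tendsto τ' (𝒰 : Filter ℕ) (𝓝 0))
    (happrox : ∀ b : G, ∃ u : ℕ → G, (∀ᶠ k in (𝒰 : Filter ℕ), u k ∈ D.fixer W ∧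
        D.Reach (p k) (ρ k) (u k)) ∧
      ∀ Y ∈ W', Tendsto (fun k => D.Ad (u k) Y) (𝒰 : Filter ℕ) (𝓝 (D.Ad b Y)))
    (hreach' : ∀ k x, D.ReachN (p k) (D.fixer W') (τ' k) x) :
    ∃ ρ' : ℕ → ℝ, Tendsto ρ' (𝒰 : Filter ℕ) (𝓝 0) ∧ ∀ᶠ k in (𝒰 : Filter ℕ), ∀ x,
      ∃ q ∈ D.fixer W, D.Reach (p k) (ρ' k) q ∧ q⁻¹ * x ∈ D.fixer W' := by
  haveI := hW.normal_fixer
  haveI := hW'.normal_fixer
  obtain ⟨n, f, hf, hfspan, hfli⟩ : ∃ n : ℕ, ∃ f : Fin n → L,
      (∀ i, f i ∈ {Z | ∃ b : G, ∃ X ∈ W', Z = D.Ad b X - X}) ∧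
        Submodule.span ℝ (range f) = W' ∧ LinearIndependent ℝ f := by
    obtain ⟨f, hf, hfspan, hfli⟩ := Submodule.exists_fun_fin_finrank_span_eq ℝ
      {Z | ∃ b : G, ∃ X ∈ W', Z = D.Ad b X - X}
    refine ⟨_, f, hf, ?_, hfli⟩
    rw [hfspan]
    exact hnf.span_eq hW'
  choose b X hX hfeq using hf
  have hfeq' : (fun i => D.Ad (b i) (X i) - X i) = f := by
    funext i
    exact (hfeq i).symm
  obtain ⟨U, hU, hfill⟩ := fill_mod hW' (P := fun i => D.Ad (b i) (X i)) (Q := X)
    (by rw [hfeq']; exact hfli) (by rw [hfeq']; exact hfspan) one_pos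
  obtain ⟨M, hM⟩ := exists_bounded_generation hU
  choose u hu hulim using fun i => happrox (b i)
  set z : ℕ → (Fin n → L) × (Fin n → L) := fun k => (fun i => D.Ad (u i k) (X i), X) with hz
  have hzlim : Tendsto z (𝒰 : Filter ℕ) (𝓝 (fun i => D.Ad (b i) (X i), X)) := by
    refine Tendsto.prodMk_nhds ?_ tendsto_const_nhds
    rw [tendsto_pi_nhds]
    intro i
    exact hulim i (X i) (hX i)
  refine ⟨fun k => M * (n * (2 * ρ k + 2 * τ' k)), ?_, ?_⟩
  · have := (((hρ.const_mul 2).add (hτ'.const_mul 2)).const_mul (n : ℝ)).const_mul (M : ℝ)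
    simpa using this
  · filter_upwards [hzlim.eventually hfill, eventually_all.2 hu] with k hk hku x
    obtain ⟨l, hl, hlU, rfl⟩ := hM x
    have hlift : ∀ x ∈ l, ∃ q ∈ D.fixer W, D.Reach (p k) (n * (2 * ρ k + 2 * τ' k)) q ∧
        q⁻¹ * x ∈ D.fixer W' := by
      intro x hx
      obtain ⟨s, hs, hprod⟩ := hk x (hlU x hx)
      choose v hv hvN using fun i => hreach' k (D.E (s i • X i))
      set q : Fin n → G := fun i => u i k * v i * (u i k)⁻¹ * (v i)⁻¹ with hq
      refine ⟨(List.ofFn q).prod, ?_, ?_, ?_⟩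
      · refine prod_ofFn_mem fun i => ?_
        have h1 : q i = u i k * (v i * (u i k)⁻¹ * (v i)⁻¹) := by
          simp only [hq]
          group
        rw [h1]
        exact (D.fixer W).mul_mem (hku i).1
          (Subgroup.Normal.conj_mem inferInstance _ ((D.fixer W).inv_mem (hku i).1) _)
      · have h1 : ∀ i, D.Reach (p k) (2 * ρ k + 2 * τ' k) (q i) := by
          intro i
          have h2 := (((hku i).2.mul (hv i)).mul (hku i).2.inv).mul (hv i).inv
          exact h2.mono (by linarith)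
        have h2 := reach_ofFn h1
        rwa [Finset.sum_const, Finset.card_univ, Fintype.card_fin, nsmul_eq_mul] at h2
      · have hcongr : (List.ofFn q).prod⁻¹ * (List.ofFn fun j => D.E (s j • (z k).1 j) *
            D.E (-(s j) • (z k).2 j)).prod ∈ D.fixer W' := by
          refine prod_ofFn_congr fun i => ?_
          simp only [hz, hq]
          have h1 : D.E (s i • D.Ad (u i k) (X i)) = u i k * D.E (s i • X i) * (u i k)⁻¹ := by
            rw [D.conj, map_smul]
          have h2 : D.E (-(s i) • X i) = (D.E (s i • X i))⁻¹ := by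
            rw [neg_smul, D.E_neg]
          rw [h1, h2]
          have h3 := hvN i
          rw [← QuotientGroup.eq] at h3 ⊢
          simp only [QuotientGroup.mk_mul, QuotientGroup.mk_inv, h3]
        have := (D.fixer W').mul_mem hcongr hprod
        simpa [mul_assoc] using this
    obtain ⟨q, hqW, hq, hqN⟩ := exists_reach_list hlift
    rw [hl] at hq
    exact ⟨q, hqW, hq, hqN⟩

end GroupData

end Pool.Agent.Work.MP_326c77_gt
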