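import Pool.Agent.Work.MP_326c77_gt.Rep

set_option autoImplicit false
set_option linter.style.haveILetI false
set_option linter.unusedSectionVars false

open NormedSpace Filter Topology Set MeasureTheory

namespace Pool.Agent.Work.MP_326c77_gt

section commutators

variable {G : Type*} [Group G]

/-- Products of `n` commutators. -/
def CommProd (n : ℕ) (x : G) : Prop :=
  ∃ l : List G, l.length = n ∧ (∀ y ∈ l, ∃ a b, y = a * b * a⁻¹ * b⁻¹) ∧ l.prod = x

theorem CommProd.mul {m n : ℕ} {x y : G} (hx : CommProd m x) (hy : CommProd n y) :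
    CommProd (m + n) (x * y) := by
  obtain ⟨l, hl, hlc, rfl⟩ := hx
  obtain ⟨l', hl', hlc', rfl⟩ := hy
  refine ⟨l ++ l', by simp [hl, hl'], ?_, by simp⟩
  intro z hz
  rcases List.mem_append.1 hz with h | h
  · exact hlc z h
  · exact hlc' z h

theorem commProd_one (n : ℕ) : CommProd n (1 : G) := by
  refine ⟨List.replicate n 1, by simp, ?_, by simp⟩
  intro y hy
  rw [List.eq_of_mem_replicate hy]
  exact ⟨1, 1, by simp⟩

theorem CommProd.mono {m n : ℕ} {x : G} (hx : CommProd m x) (hmn : m ≤ n) : CommProd n x := by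
  have := hx.mul (commProd_one (G := G) (n - m))
  rwa [mul_one, Nat.add_sub_cancel' hmn] at this

theorem CommProd.inv {n : ℕ} {x : G} (hx : CommProd n x) : CommProd n x⁻¹ := by
  obtain ⟨l, hl, hlc, rfl⟩ := hx
  refine ⟨(l.map fun X => X⁻¹).reverse, by simp [hl], ?_, ?_⟩
  · intro y hy
    rw [List.mem_reverse, List.mem_map] at hy
    obtain ⟨z, hz, rfl⟩ := hy
    obtain ⟨a, b, rfl⟩ := hlc z hz
    exact ⟨b, a, by group⟩
  · rw [List.prod_inv_reverse]

/-- The subgroup of products of commutators. -/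
def commSub (G : Type*) [Group G] : Subgroup G where
  carrier := {x | ∃ n, CommProd n x}
  mul_mem' := fun ⟨m, hm⟩ ⟨n, hn⟩ => ⟨m + n, hm.mul hn⟩
  one_mem' := ⟨0, commProd_one 0⟩
  inv_mem' := fun ⟨n, hn⟩ => ⟨n, hn.inv⟩

theorem mem_commSub {x : G} : x ∈ commSub G ↔ ∃ n, CommProd n x := Iff.rfl

instance : (commSub G).Normal := by
  constructor
  rintro x ⟨n, l, hl, hlc, rfl⟩ g
  refine ⟨n, l.map fun y => g * y * g⁻¹, by simp [hl], ?_, ?_⟩
  · intro y hy
    rw [List.mem_map] at hy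
    obtain ⟨z, hz, rfl⟩ := hy
    obtain ⟨a, b, rfl⟩ := hlc z hz
    exact ⟨g * a * g⁻¹, g * b * g⁻¹, by group⟩
  · have := map_list_prod (MulAut.conj g) l
    simp only [MulAut.conj_apply] at this
    exact this.symm

variable [TopologicalSpace G] [IsTopologicalGroup G]

/-- The closure of the commutator subgroup. -/
def N₀ (G : Type*) [Group G] [TopologicalSpace G] [IsTopologicalGroup G] : Subgroup G :=
  (commSub G).topologicalClosure

instance : (N₀ G).Normal := Subgroup.is_normal_topologicalClosure _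

theorem isClosed_N₀ : IsClosed (N₀ G : Set G) := (commSub G).isClosed_topologicalClosure

theorem commutator_mem_N₀ (a b : G) : a * b * a⁻¹ * b⁻¹ ∈ N₀ G :=
  (commSub G).le_topologicalClosure ⟨1, [a * b * a⁻¹ * b⁻¹], rfl, by
    intro y hy
    rw [List.mem_singleton] at hy
    exact ⟨a, b, hy⟩, by simp⟩

/-- Fifth roots of `N₀`. -/
def rootSub (G : Type*) [Group G] [TopologicalSpace G] [IsTopologicalGroup G] : Subgroup G where
  carrier := {x | x ^ 5 ∈ N₀ G}
  mul_mem' := by
    intro a b ha hb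
    have hq : (a : G ⧸ N₀ G) * b = b * a := by
      rw [← QuotientGroup.mk_mul, ← QuotientGroup.mk_mul, QuotientGroup.eq]
      have := commutator_mem_N₀ b⁻¹ a⁻¹
      simpa [mul_assoc] using this
    have hc : Commute (a : G ⧸ N₀ G) (b : G ⧸ N₀ G) := hq
    change (a * b) ^ 5 ∈ N₀ G
    rw [← QuotientGroup.eq_one_iff, QuotientGroup.mk_pow, QuotientGroup.mk_mul, hc.mul_pow,
      ← QuotientGroup.mk_pow, ← QuotientGroup.mk_pow, (QuotientGroup.eq_one_iff _).2 ha,
      (QuotientGroup.eq_one_iff _).2 hb, one_mul]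
  one_mem' := by
    change (1 : G) ^ 5 ∈ N₀ G
    rw [one_pow]
    exact (N₀ G).one_mem
  inv_mem' := by
    intro a ha
    change a⁻¹ ^ 5 ∈ N₀ G
    rw [inv_pow]
    exact (N₀ G).inv_mem ha

theorem isClosed_rootSub : IsClosed (rootSub G : Set G) :=
  isClosed_N₀.preimage (continuous_pow 5)

end commutators

namespace FRep

variable {G A : Type*} [Group G] [TopologicalSpace G] [NormedRing A] (R : FRep G A)
  [CompactSpace G] [NormedAlgebra ℝ A] [FiniteDimensional ℝ A] [InnerProductSpaceable A]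
  [IsTopologicalGroup G]

/-- The Lie algebra of a closed subgroup, inside the Lie algebra of `G`. -/
noncomputable def lieIn (H : Subgroup G) (hH : IsClosed (H : Set G)) : Submodule ℝ R.L :=
  (R.lie H hH).comap R.L.subtype

theorem mem_lieIn {H : Subgroup G} {hH : IsClosed (H : Set G)} {X : R.L} :
    X ∈ R.lieIn H hH ↔ ∀ t : ℝ, R.E (t • X) ∈ H := by
  constructor
  · intro h t
    obtain ⟨g, hg, hge⟩ := h t
    have h1 : g = R.E (t • X) := by
      apply R.inj
      rw [ρ_E_smul, hge]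
      rfl
    rwa [← h1]
  · intro h t
    exact ⟨_, h t, R.ρ_E_smul X t⟩

theorem inv_lieIn (H : Subgroup G) [H.Normal] (hH : IsClosed (H : Set G)) :
    R.data.Inv (R.lieIn H hH) := by
  intro g X hX
  exact R.conj_mem_lie H hH g (fun x hx => Subgroup.Normal.conj_mem inferInstance x hx g) hX

/-- Local filling of a closed subgroup. -/
theorem fill_subgroup (H : Subgroup G) (hH : IsClosed (H : Set G)) {m : ℕ} {P Q : Fin m → R.L}
    (hP : ∀ j, P j ∈ R.lieIn H hH) (hQ : ∀ j, Q j ∈ R.lieIn H hH)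
    (hli : LinearIndependent ℝ fun j => P j - Q j)
    (hspan : Submodule.span ℝ (range fun j => P j - Q j) = R.lieIn H hH) :
    ∃ U ∈ 𝓝 (1 : G), ∀ x ∈ U, x ∈ H → ∃ s : Fin m → ℝ,
      (List.ofFn fun j => R.E (s j • P j) * R.E (-(s j) • Q j)).prod = x := by
  have hS := R.isIsoGroup H hH
  have hli' : LinearIndependent ℝ fun j => (P j : A) - (Q j : A) := by
    have := hli.map' R.L.subtype (Submodule.ker_subtype _)
    exact this
  have hspan' : ∀ X ∈ lieSet (R.ρ '' (H : Set G)),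
      X ∈ Submodule.span ℝ (range fun j => (P j : A) - (Q j : A)) := by
    intro X hX
    have hXL : X ∈ R.L := by
      intro t
      obtain ⟨g, _, hg⟩ := hX t
      exact ⟨g, trivial, hg⟩
    have h1 : (⟨X, hXL⟩ : R.L) ∈ Submodule.span ℝ (range fun j => P j - Q j) := by
      rw [hspan]
      exact hX
    have h2 : R.L.subtype ⟨X, hXL⟩ ∈ (Submodule.span ℝ (range fun j => P j - Q j)).map
        R.L.subtype := ⟨_, h1, rfl⟩
    rw [Submodule.map_span, ← range_comp] at h2
    exact h2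
  obtain ⟨δ, hδ, h⟩ := uniform_local_filling hS (P := fun j => (P j : A))
    (Q := fun j => (Q j : A)) (fun j => hP j) (fun j => hQ j) hli' hspan' one_pos
  refine ⟨{x | ‖R.ρ x - 1‖ < δ}, ?_, ?_⟩
  · have h1 : Continuous fun x => ‖R.ρ x - 1‖ := (R.cont.sub continuous_const).norm
    have h2 : IsOpen {x | ‖R.ρ x - 1‖ < δ} := isOpen_lt h1 continuous_const
    refine h2.mem_nhds ?_
    simpa using hδ
  · intro x hx hxH
    obtain ⟨s, _, hsx⟩ := h.self_of_nhds (fun j => hP j) (fun j => hQ j) (R.ρ x) ⟨x, hxH, rfl⟩ hx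
    refine ⟨s, ?_⟩
    apply R.inj
    rw [← hsx]
    exact (R.cprod_eq_ρ P Q s).symm

/-- Two closed subgroups with the same Lie algebra agree near `1`. -/
theorem exists_nhds_mem_of_lieIn_le {H K : Subgroup G} (hH : IsClosed (H : Set G))
    (hK : IsClosed (K : Set G)) (hle : R.lieIn K hK ≤ R.lieIn H hH) :
    ∃ U ∈ 𝓝 (1 : G), ∀ x ∈ U, x ∈ K → x ∈ H := by
  set b := Module.finBasis ℝ (R.lieIn K hK) with hb
  obtain ⟨U, hU, h⟩ := R.fill_subgroup K hK (P := fun j => (b j : R.L)) (Q := fun _ => 0)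
    (fun j => (b j).2) (fun j => Submodule.zero_mem _)
    (by
      have := b.linearIndependent.map' (R.lieIn K hK).subtype (Submodule.ker_subtype _)
      simp only [sub_zero]
      exact this)
    (by
      simp only [sub_zero]
      have h1 := congrArg (Submodule.map (R.lieIn K hK).subtype) b.span_eq
      rw [Submodule.map_span, ← range_comp, Submodule.map_subtype_top] at h1
      exact h1)
  refine ⟨U, hU, fun x hx hxK => ?_⟩
  obtain ⟨s, rfl⟩ := h x hx hxK
  refine GroupData.prod_ofFn_mem fun j => ?_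
  refine H.mul_mem ?_ ?_
  · exact R.mem_lieIn.1 (hle (b j).2) _
  · rw [smul_zero]
    have := R.mem_lieIn.1 (Submodule.zero_mem (R.lieIn H hH)) 1
    rwa [smul_zero] at this

/-- If `H ≤ K` are closed subgroups with the same Lie algebra then `H` has finite index in
`K`. -/
theorem exists_finset_cosets {H K : Subgroup G} (hH : IsClosed (H : Set G))
    (hK : IsClosed (K : Set G)) (hle : R.lieIn K hK ≤ R.lieIn H hH) :
    ∃ κ : Finset G, ∀ x ∈ K, ∃ k ∈ κ, k⁻¹ * x ∈ H := by
  obtain ⟨U, hU, h⟩ := R.exists_nhds_mem_of_lieIn_le hH hK hle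
  obtain ⟨V, hVU, hVo, hV1⟩ := mem_nhds_iff.1 hU
  have hKc : IsCompact (K : Set G) := hK.isCompact
  obtain ⟨t, ht⟩ := hKc.elim_finite_subcover (fun y : K => (fun x => (y : G)⁻¹ * x) ⁻¹' V)
    (fun y => hVo.preimage (continuous_const.mul continuous_id)) (by
      intro x hx
      refine mem_iUnion.2 ⟨⟨x, hx⟩, ?_⟩
      simpa using hV1)
  classical
  refine ⟨t.image (fun y : K => (y : G)), fun x hx => ?_⟩
  have h1 := ht hx
  simp only [mem_iUnion, exists_prop] at h1
  obtain ⟨y, hy, hyx⟩ := h1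
  refine ⟨y, Finset.mem_image_of_mem _ hy, ?_⟩
  exact h _ (hVU hyx) (K.mul_mem (K.inv_mem y.2) hx)

/-- If the Lie algebra of `N₀` has no fixed vectors then `N₀` consists of products of boundedly
many commutators. -/
theorem exists_commProd_bound (hnf : R.data.NoFixed (R.lieIn (N₀ G) isClosed_N₀)) :
    ∃ M : ℕ, ∀ x ∈ N₀ G, CommProd M x := by
  set 𝔫 := R.lieIn (N₀ G) isClosed_N₀ with h𝔫
  have hinv : R.data.Inv 𝔫 := R.inv_lieIn _ _
  obtain ⟨n, f, hf, hfspan, hfli⟩ : ∃ n : ℕ, ∃ f : Fin n → R.L,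
      (∀ i, f i ∈ {Z | ∃ b : G, ∃ X ∈ 𝔫, Z = R.data.Ad b X - X}) ∧
        Submodule.span ℝ (range f) = 𝔫 ∧ LinearIndependent ℝ f := by
    obtain ⟨f, hf, hfspan, hfli⟩ := Submodule.exists_fun_fin_finrank_span_eq ℝ
      {Z | ∃ b : G, ∃ X ∈ 𝔫, Z = R.data.Ad b X - X}
    refine ⟨_, f, hf, ?_, hfli⟩
    rw [hfspan]
    exact hnf.span_eq hinv
  choose b X hX hfeq using hf
  have hfeq' : (fun i => R.data.Ad (b i) (X i) - X i) = f := by
    funext i
    exact (hfeq i).symm
  obtain ⟨U, hU, h⟩ := R.fill_subgroup (N₀ G) isClosed_N₀ (P := fun i => R.data.Ad (b i) (X i))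
    (Q := X) (fun j => hinv _ _ (hX j)) hX (by rw [hfeq']; exact hfli)
    (by rw [hfeq']; exact hfspan)
  have hlocal : ∀ x ∈ U, x ∈ N₀ G → CommProd n x := by
    intro x hx hxN
    obtain ⟨s, rfl⟩ := h x hx hxN
    refine ⟨_, List.length_ofFn, ?_, rfl⟩
    intro y hy
    rw [List.mem_ofFn] at hy
    obtain ⟨j, rfl⟩ := hy
    refine ⟨b j, R.E (s j • X j), ?_⟩
    have h1 : R.E (s j • R.data.Ad (b j) (X j)) = b j * R.E (s j • X j) * (b j)⁻¹ := by
      have := R.data.conj (b j) (s j • X j)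
      rw [map_smul] at this
      exact this.symm
    have h2 : R.E (-(s j) • X j) = (R.E (s j • X j))⁻¹ := by
      rw [neg_smul]
      exact R.data.E_neg _
    rw [h1, h2]
  -- an open symmetric neighbourhood
  obtain ⟨V, hVU, hVo, hV1⟩ := mem_nhds_iff.1 hU
  set O : ℕ → Set G := fun k => ⋃ y ∈ {y : G | CommProd k y}, (fun x => y⁻¹ * x) ⁻¹' V with hO
  have hOopen : ∀ k, IsOpen (O k) := fun k =>
    isOpen_biUnion fun y _ => hVo.preimage (continuous_const.mul continuous_id)
  have hOmono : Monotone O := by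
    intro k l hkl x hx
    simp only [hO, mem_iUnion, exists_prop] at hx ⊢
    obtain ⟨y, hy, hyx⟩ := hx
    exact ⟨y, CommProd.mono hy hkl, hyx⟩
  have hcover : (N₀ G : Set G) ⊆ ⋃ k, O k := by
    intro x hx
    have hx' : x ∈ closure (commSub G : Set G) := hx
    rw [mem_closure_iff] at hx'
    have hWo : IsOpen ((fun y : G => y⁻¹ * x) ⁻¹' V) :=
      hVo.preimage (continuous_inv.mul continuous_const)
    obtain ⟨y, hy, k, hk⟩ := hx' _ hWo (by simpa using hV1)
    simp only [hO, mem_iUnion, exists_prop]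
    exact ⟨k, y, hk, hy⟩
  obtain ⟨k, hk⟩ := (isClosed_N₀ (G := G)).isCompact.elim_directed_cover O hOopen hcover
    (Monotone.directed_le hOmono)
  refine ⟨k + n, fun x hx => ?_⟩
  have h1 := hk hx
  simp only [hO, mem_iUnion, exists_prop] at h1
  obtain ⟨y, hy, hyx⟩ := h1
  have hyN : y ∈ N₀ G := (commSub G).le_topologicalClosure ⟨k, hy⟩
  have h2 : CommProd n (y⁻¹ * x) := hlocal _ (hVU hyx) ((N₀ G).mul_mem ((N₀ G).inv_mem hyN) hx)
  have h3 := CommProd.mul hy h2
  rwa [mul_inv_cancel_left] at h3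

theorem lieIn_rootSub_le :
    R.lieIn (rootSub G) isClosed_rootSub ≤ R.lieIn (N₀ G) isClosed_N₀ := by
  intro X hX
  rw [mem_lieIn] at hX ⊢
  intro t
  have h1 : R.E ((t / 5) • X) ^ 5 ∈ N₀ G := hX (t / 5)
  have h2 : R.E ((t / 5) • X) ^ 5 = R.E (t • X) := by
    apply R.inj
    rw [map_pow, ρ_E_smul, ρ_E_smul, exp_smul_pow]
    congr 2
    push_cast
    ring
  rwa [h2] at h1

variable [MeasurableSpace G] [BorelSpace G] {μ : Measure G} [ConnectedSpace G]
  [μ.IsHaarMeasure] [IsProbabilityMeasure μ]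

/-- The main estimate, assuming the absence of fixed vectors in the Lie algebra of the closure of
the commutator subgroup. -/
theorem good_bot (hnf : R.data.NoFixed (R.lieIn (N₀ G) isClosed_N₀)) : R.data.Good μ ⊥ := by
  obtain ⟨M, hM⟩ := R.exists_commProd_bound hnf
  obtain ⟨κ, hκ⟩ := R.exists_finset_cosets isClosed_N₀ isClosed_rootSub R.lieIn_rootSub_le
  refine GroupData.good_bot (N := N₀ G) commutator_mem_N₀ hM κ fun x hx => ?_
  obtain ⟨k, hk, hkx⟩ := hκ x hx
  refine ⟨k, hk, ?_⟩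
  have := Subgroup.Normal.conj_mem (inferInstance : (N₀ G).Normal) _ hkx k
  simpa [mul_assoc] using this

end FRep

end Pool.Agent.Work.MP_326c77_gt
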