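import Mathlib

set_option autoImplicit false
set_option linter.style.haveILetI false
set_option linter.unusedSectionVars false

namespace Pool.Agent.Work.MP_326c77_gt

variable {V : Type*} [AddCommGroup V] [Module ℝ V]

/-- The seminorm of an inner product. -/
noncomputable def coreSeminorm (g : InnerProductSpace.Core ℝ V) : Seminorm ℝ V :=
  letI : NormedAddCommGroup V := g.toNormedAddCommGroup
  letI : InnerProductSpace ℝ V := InnerProductSpace.ofCore g.toCore
  normSeminorm ℝ V

theorem coreSeminorm_apply (g : InnerProductSpace.Core ℝ V) (X : V) :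
    coreSeminorm g X = Real.sqrt (g.inner X X) := by
  letI : NormedAddCommGroup V := g.toNormedAddCommGroup
  letI : InnerProductSpace ℝ V := InnerProductSpace.ofCore g.toCore
  have h1 : coreSeminorm g X = ‖X‖ := rfl
  have h2 : g.inner X X = inner ℝ X X := rfl
  rw [h1, h2, real_inner_self_eq_norm_sq, Real.sqrt_sq (norm_nonneg _)]

theorem exists_orthonormal_basis [FiniteDimensional ℝ V] (g : InnerProductSpace.Core ℝ V) :
    ∃ e : Module.Basis (Fin (Module.finrank ℝ V)) ℝ V,
      ∀ i j, g.inner (e i) (e j) = if i = j then 1 else 0 := by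
  letI : NormedAddCommGroup V := g.toNormedAddCommGroup
  letI : InnerProductSpace ℝ V := InnerProductSpace.ofCore g.toCore
  refine ⟨(stdOrthonormalBasis ℝ V).toBasis, fun i j => ?_⟩
  have h1 := (stdOrthonormalBasis ℝ V).inner_eq_ite i j
  simpa using h1

end Pool.Agent.Work.MP_326c77_gt
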