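import Pool.Agent.Work.MP_326c77_gt.Closed

set_option autoImplicit false
set_option linter.style.haveILetI false
set_option linter.unusedSectionVars false

open NormedSpace Filter Topology Set MeasureTheory
open scoped Matrix Matrix.Norms.Frobenius

namespace Pool.Agent.Work.MP_326c77_gt

variable {n : Type*} [Fintype n] [DecidableEq n]

/-- Spectral projection of a nonzero Hermitian matrix. -/
theorem exists_spectral_projection {H : Matrix n n ℂ} (hH : H.IsHermitian) (hne : H ≠ 0) :
    ∃ (P : Matrix n n ℂ) (c : ℝ), c ≠ 0 ∧ P ≠ 0 ∧ P * P = P ∧ H * P = (c : ℂ) • P ∧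
      ∀ B, Commute H B → Commute P B := by
  have h1 : hH.eigenvalues ≠ 0 := fun h => hne (hH.eigenvalues_eq_zero_iff.1 h)
  obtain ⟨j, hj⟩ := Function.ne_iff.1 h1
  set c := hH.eigenvalues j with hc
  set f : ℝ → ℝ := fun y => if y = c then 1 else 0 with hf
  have hcont : ∀ g : ℝ → ℝ, ContinuousOn g (spectrum ℝ H) := fun g =>
    (Matrix.finite_real_spectrum).continuousOn g
  refine ⟨cfc f H, c, hj, ?_, ?_, ?_, fun B hB => hB.cfc_real f⟩
  · intro h0
    have h2 : cfc f H = cfc (fun _ => (0 : ℝ)) H := by
      rw [h0]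
      simp
    rw [cfc_eq_cfc_iff_eqOn (hf := hcont _) (hg := hcont _)] at h2
    have h3 := h2 (hH.eigenvalues_mem_spectrum_real j)
    simp [hf, hc] at h3
  · rw [← cfc_mul f f H (hcont _) (hcont _)]
    congr 1
    funext y
    simp [hf]
  · have h2 : H * cfc f H = cfc (fun y => y * f y) H := by
      rw [cfc_mul (fun y => y) f H (hcont _) (hcont _), cfc_id' ℝ H]
    have h3 : (fun y => y * f y) = fun y => c * f y := by
      funext y
      simp only [hf]
      split_ifs with h
      · rw [h]
      · simp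
    rw [h2, h3, cfc_const_mul c f H (hcont _)]
    ext i k
    simp

/-- Exponentials on eigenvectors. -/
theorem exp_smul_mul_of_eigen {x P : Matrix n n ℂ} {c : ℂ} (hx : x * P = c • P) (t : ℝ) :
    exp (t • x) * P = Complex.exp (t * c) • P := by
  have h1 : ∀ s : ℝ, HasDerivAt (fun s : ℝ => Complex.exp (-(s * c)) • (exp (s • x) * P)) 0 s := by
    intro s
    have h2 : HasDerivAt (fun s : ℝ => exp (s • x)) (exp (s • x) * x) s :=
      hasDerivAt_exp_smul_const (𝕂 := ℝ) x s
    have h3 : HasDerivAt (fun s : ℝ => exp (s • x) * P) (exp (s • x) * x * P) s := h2.mul_const P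
    have h4 : HasDerivAt (fun s : ℝ => Complex.exp (-(s * c))) (-c * Complex.exp (-(s * c))) s := by
      have h5 : HasDerivAt (fun s : ℝ => -((s : ℂ) * c)) (-c) s := by
        have h50 := ((Complex.ofRealCLM.hasDerivAt (x := s)).mul_const c).neg
        have h51 : -(Complex.ofRealCLM 1 * c) = -c := by simp
        rw [h51] at h50
        exact h50
      have h52 := h5.cexp
      rw [mul_comm] at h52
      exact h52
    have h6 := h4.smul h3
    have h60 : Complex.exp (-(s * c)) • (exp (s • x) * x * P)
        + (-c * Complex.exp (-(s * c))) • (exp (s • x) * P) = 0 := by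
      rw [mul_assoc, hx, mul_smul_comm, smul_smul, ← add_smul]
      have : Complex.exp (-(s * c)) * c + -c * Complex.exp (-(s * c)) = 0 := by ring
      rw [this, zero_smul]
    rw [h60] at h6
    exact h6
  have h7 : ∀ s : ℝ, (fun s : ℝ => Complex.exp (-(s * c)) • (exp (s • x) * P)) s
      = (fun s : ℝ => Complex.exp (-(s * c)) • (exp (s • x) * P)) 0 :=
    fun s => is_const_of_deriv_eq_zero (fun y => (h1 y).differentiableAt)
      (fun y => (h1 y).deriv) s 0
  have h8 := h7 t
  simp only [Complex.ofReal_zero, zero_mul, neg_zero, Complex.exp_zero, zero_smul, exp_zero,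
    one_mul, one_smul] at h8
  calc exp (t • x) * P = (Complex.exp (t * c) * Complex.exp (-(t * c))) • (exp (t • x) * P) := by
        rw [← Complex.exp_add]
        simp
    _ = Complex.exp (t * c) • (Complex.exp (-(t * c)) • (exp (t • x) * P)) := by
        rw [smul_smul]
    _ = Complex.exp (t * c) • P := by rw [h8]

/-- A projection `P` with `det (1 + (exp (t c) - 1) P) = 1` for all real `t` vanishes. -/
theorem eq_zero_of_det_eq_one {P : Matrix n n ℂ} (hP : P * P = P) {c : ℝ} (hc : c ≠ 0)
    (h : ∀ t : ℝ, Matrix.det (1 + (Complex.exp (t * (-(Complex.I * c))) - 1) • P) = 1) :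
    P = 0 := by
  set p : Polynomial ℂ := Matrix.det (1 + (Polynomial.X : Polynomial ℂ) • P.map Polynomial.C)
    with hp
  have heval : ∀ s : ℂ, p.eval s = Matrix.det (1 + s • P) := by
    intro s
    rw [hp, ← Polynomial.coe_evalRingHom, RingHom.map_det]
    congr 1
    ext i j
    simp only [RingHom.mapMatrix_apply, Matrix.map_apply, Matrix.add_apply, Matrix.smul_apply,
      smul_eq_mul, map_add, Polynomial.coe_evalRingHom]
    congr 1
    · by_cases hij : i = j
      · subst hij
        simp
      · simp [Matrix.one_apply_ne hij]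
    · rw [Polynomial.eval_mul, Polynomial.eval_X, Polynomial.eval_C]
  have hp1 : p = 1 := by
    apply Polynomial.eq_of_infinite_eval_eq
    refine Set.infinite_of_injective_forall_mem
      (f := fun k : ℕ => Complex.exp (Complex.I * ((1 / ((k : ℝ) + 1) : ℝ) : ℂ)) - 1) ?_ ?_
    · intro k l hkl
      have h1 : Complex.exp (Complex.I * ((1 / ((k : ℝ) + 1) : ℝ) : ℂ))
          = Complex.exp (Complex.I * ((1 / ((l : ℝ) + 1) : ℝ) : ℂ)) := sub_left_injective hkl
      have him : ∀ k : ℕ, (Complex.I * ((1 / ((k : ℝ) + 1) : ℝ) : ℂ)).im = 1 / ((k : ℝ) + 1) := by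
        intro k
        rw [Complex.mul_im, Complex.I_re, Complex.I_im, Complex.ofReal_re, Complex.ofReal_im]
        ring
      have hb : ∀ k : ℕ, -Real.pi < 1 / ((k : ℝ) + 1) ∧ 1 / ((k : ℝ) + 1) ≤ Real.pi := by
        intro k
        have h2 : (0 : ℝ) < 1 / ((k : ℝ) + 1) := by positivity
        have h3 : 1 / ((k : ℝ) + 1) ≤ 1 := by
          rw [div_le_one (by positivity)]
          have : (0 : ℝ) ≤ k := by positivity
          linarith
        have h4 := Real.pi_gt_three
        constructor <;> linarith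
      have h2 := Complex.exp_inj_of_neg_pi_lt_of_le_pi (by rw [him]; exact (hb k).1)
        (by rw [him]; exact (hb k).2) (by rw [him]; exact (hb l).1) (by rw [him]; exact (hb l).2) h1
      have h3 := congrArg Complex.im h2
      rw [him, him] at h3
      have h4 : (k : ℝ) + 1 = l + 1 := by
        rw [one_div, one_div] at h3
        exact inv_injective h3
      have h5 : (k : ℝ) = l := by linarith
      exact_mod_cast h5
    · intro k
      rw [mem_ofPred_eq, heval, Polynomial.eval_one]
      have h1 := h (-(1 / ((k : ℝ) + 1)) / c)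
      convert h1 using 6
      push_cast
      have : (c : ℂ) ≠ 0 := by exact_mod_cast hc
      field_simp
  have h2 : Matrix.det (1 + (-1 : ℂ) • P) = 1 := by
    rw [← heval, hp1, Polynomial.eval_one]
  have h3 : IsUnit (1 + (-1 : ℂ) • P) := by
    rw [Matrix.isUnit_iff_isUnit_det, h2]
    exact isUnit_one
  have h4 : (1 + (-1 : ℂ) • P) * P = 0 := by
    rw [neg_one_smul, add_mul, one_mul, neg_mul, hP, add_neg_cancel]
  exact h3.mul_right_eq_zero.1 h4

variable {G : Type*} [Group G] [TopologicalSpace G] [IsTopologicalGroup G] [CompactSpace G]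

instance : InnerProductSpaceable (Matrix n n ℂ) where
  parallelogram_identity x y := by
    have h : ∀ z : Matrix n n ℂ, ‖z‖ * ‖z‖ = ∑ i, ∑ j, ‖z i j‖ ^ 2 := by
      intro z
      rw [Matrix.frobenius_norm_def, ← Real.rpow_add_of_nonneg (by positivity) (by norm_num)
        (by norm_num)]
      norm_num
    rw [h, h, h, h, ← Finset.sum_add_distrib, ← Finset.sum_add_distrib, Finset.mul_sum]
    refine Finset.sum_congr rfl fun i _ => ?_
    rw [← Finset.sum_add_distrib, ← Finset.sum_add_distrib, Finset.mul_sum]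
    refine Finset.sum_congr rfl fun j _ => ?_
    have := parallelogram_law_with_norm ℝ (x i j) (y i j)
    simp only [Matrix.add_apply, Matrix.sub_apply]
    linarith

/-- The Lie algebra of the closure of the commutator subgroup contains no fixed vectors. -/
theorem FRep.noFixed_N₀ (R : FRep G (Matrix n n ℂ)) (hU : ∀ g, (R.ρ g)ᴴ * R.ρ g = 1) :
    R.data.NoFixed (R.lieIn (N₀ G) isClosed_N₀) := by
  intro X hX hfix
  by_contra hX0
  set x : Matrix n n ℂ := (X : Matrix n n ℂ) with hx
  have hx0 : x ≠ 0 := fun h => hX0 (Subtype.ext h)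
  have hcomm : ∀ g, Commute x (R.ρ g) := by
    intro g
    have h1 : R.ρ g * x * R.ρ g⁻¹ = x := congrArg Subtype.val (hfix g)
    have h2 : R.ρ g * x * R.ρ g⁻¹ * R.ρ g = x * R.ρ g := by rw [h1]
    rw [mul_assoc, R.ρ_inv_mul, mul_one] at h2
    exact h2.symm
  have hE : ∀ t : ℝ, R.ρ (R.E (t • X)) = exp (t • x) := fun t => R.ρ_E_smul X t
  -- `x` is skew-Hermitian
  have hskew : xᴴ = -x := by
    have h1 : ∀ t : ℝ, (exp (t • x))ᴴ = exp (-t • x) := by
      intro t
      have h2 : (exp (t • x))ᴴ * exp (t • x) = 1 := by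
        have := hU (R.E (t • X))
        rw [hE] at this
        exact this
      have h20 : exp (t • x) * exp (-t • x) = 1 := exp_smul_mul_neg x t
      calc (exp (t • x))ᴴ = (exp (t • x))ᴴ * (exp (t • x) * exp (-t • x)) := by
            rw [h20, mul_one]
        _ = exp (-t • x) := by rw [← mul_assoc, h2, one_mul]
    have h3 : ∀ t : ℝ, (exp (t • x))ᴴ = exp (t • xᴴ) := by
      intro t
      rw [← Matrix.exp_conjTranspose, Matrix.conjTranspose_smul]
      simp
    have h4 : HasDerivAt (fun t : ℝ => exp (t • xᴴ)) xᴴ 0 := hasDerivAt_exp_smul_zero _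
    have h5 : HasDerivAt (fun t : ℝ => exp (t • (-x))) (-x) 0 := hasDerivAt_exp_smul_zero _
    have h6 : (fun t : ℝ => exp (t • xᴴ)) = fun t : ℝ => exp (t • (-x)) := by
      funext t
      rw [← h3, h1, smul_neg, neg_smul]
    rw [h6] at h4
    exact h4.unique h5
  set H : Matrix n n ℂ := Complex.I • x with hH
  have hHerm : H.IsHermitian := by
    rw [Matrix.IsHermitian, hH, Matrix.conjTranspose_smul, hskew]
    simp
  have hHne : H ≠ 0 := smul_ne_zero Complex.I_ne_zero hx0
  obtain ⟨P, c, hc, hP0, hPP, hHP, hPcomm⟩ := exists_spectral_projection hHerm hHne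
  have hxP : x * P = (-(Complex.I * c)) • P := by
    have h1 : x = (-Complex.I) • H := by
      rw [hH, smul_smul]
      simp
    rw [h1, smul_mul_assoc, hHP, smul_smul, neg_mul]
  have hPρ : ∀ g, Commute P (R.ρ g) := fun g => hPcomm _ ((hcomm g).smul_left _)
  -- the character
  set χ : G → ℂ := fun g => Matrix.det (R.ρ g * P + (1 - P)) with hχ
  have hχmul : ∀ g h, χ (g * h) = χ g * χ h := by
    intro g h
    simp only [hχ]
    rw [← Matrix.det_mul]
    congr 1
    have h1 : R.ρ g * P * (1 - P) = 0 := by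
      rw [mul_sub, mul_one, mul_assoc, hPP, sub_self]
    have h2 : (1 - P) * (R.ρ h * P) = 0 := by
      rw [← (hPρ h).eq, ← mul_assoc, sub_mul, one_mul, hPP, sub_self, zero_mul]
    have h3 : (1 - P) * (1 - P) = 1 - P := by
      rw [mul_sub, sub_mul, sub_mul, hPP]
      simp
    have h4 : R.ρ g * P * (R.ρ h * P) = R.ρ (g * h) * P := by
      rw [map_mul, mul_assoc, ← mul_assoc P, (hPρ h).eq, mul_assoc (R.ρ h), hPP, mul_assoc]
    rw [add_mul, mul_add, mul_add, h1, h2, h3, h4, add_zero, zero_add]
  have hχ1 : χ 1 = 1 := by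
    simp only [hχ]
    rw [map_one, one_mul, add_sub_cancel, Matrix.det_one]
  have hχcont : Continuous χ := by
    refine Continuous.matrix_det ?_
    exact (R.cont.mul continuous_const).add continuous_const
  have hχinv : ∀ g, χ g * χ g⁻¹ = 1 := by
    intro g
    rw [← hχmul, mul_inv_cancel, hχ1]
  let K : Subgroup G :=
    { carrier := {g | χ g = 1}
      mul_mem' := by
        intro a b ha hb
        rw [mem_ofPred_eq] at ha hb ⊢
        rw [hχmul, ha, hb, one_mul]
      one_mem' := hχ1
      inv_mem' := by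
        intro a ha
        rw [mem_ofPred_eq] at ha ⊢
        have := hχinv a
        rwa [ha, one_mul] at this }
  have hKclosed : IsClosed (K : Set G) := isClosed_eq hχcont continuous_const
  have hcommK : commSub G ≤ K := by
    rintro _ ⟨k, l, _, hlc, rfl⟩
    refine K.list_prod_mem fun y hy => ?_
    obtain ⟨a, b, rfl⟩ := hlc y hy
    change χ _ = 1
    rw [hχmul, hχmul, hχmul]
    have h1 := hχinv a
    have h2 := hχinv b
    calc χ a * χ b * χ a⁻¹ * χ b⁻¹ = (χ a * χ a⁻¹) * (χ b * χ b⁻¹) := by ring
      _ = 1 := by rw [h1, h2, one_mul]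
  have hN₀K : N₀ G ≤ K := Subgroup.topologicalClosure_minimal _ hcommK hKclosed
  have hdet : ∀ t : ℝ, Matrix.det (1 + (Complex.exp (t * (-(Complex.I * c))) - 1) • P) = 1 := by
    intro t
    have h1 : χ (R.E (t • X)) = 1 := hN₀K (R.mem_lieIn.1 hX t)
    simp only [hχ] at h1
    rw [hE] at h1
    have h2 : exp (t • x) * P = Complex.exp (t * (-(Complex.I * c))) • P :=
      exp_smul_mul_of_eigen hxP t
    rw [h2] at h1
    have h3 : 1 + (Complex.exp (t * (-(Complex.I * c))) - 1) • P
        = Complex.exp (t * (-(Complex.I * c))) • P + (1 - P) := by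
      rw [sub_smul, one_smul]
      abel
    rw [h3]
    exact h1
  exact hP0 (eq_zero_of_det_eq_one hPP hc hdet)

end Pool.Agent.Work.MP_326c77_gt
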