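import Pool.Agent.Work.MP_326c77_gt.LinearGroup

set_option autoImplicit false
set_option linter.style.haveILetI false
set_option linter.unusedSectionVars false

open NormedSpace Filter Topology Set
open scoped Matrix Matrix.Norms.Frobenius ENNReal NNReal ContDiff

namespace Pool.Agent.Work.MP_326c77_gt

/-- Complex `N × N` matrices. -/
abbrev Mat (N : ℕ) : Type := Matrix (Fin N) (Fin N) ℂ

/-- The unitary group `U(N)`. -/
abbrev UN (N : ℕ) : Type := Matrix.unitaryGroup (Fin N) ℂ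

variable {N : ℕ}

theorem frobenius_norm_sq (x : Mat N) : ((‖x‖ ^ 2 : ℝ) : ℂ) = Matrix.trace (xᴴ * x) := by
  have h : ‖x‖ ^ 2 = ∑ i, ∑ j, ‖x i j‖ ^ 2 := by
    rw [sq, Matrix.frobenius_norm_def, ← Real.rpow_add_of_nonneg (by positivity) (by norm_num)
      (by norm_num)]
    norm_num
  rw [h, Finset.sum_comm]
  push_cast
  rw [Matrix.trace]
  refine Finset.sum_congr rfl fun j _ => ?_
  rw [Matrix.diag_apply, Matrix.mul_apply]
  refine Finset.sum_congr rfl fun i _ => ?_
  rw [Matrix.conjTranspose_apply, ← Complex.ofReal_pow, ← Complex.normSq_eq_norm_sq,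
    Complex.normSq_eq_conj_mul_self]
  rfl

theorem norm_unitary_mul {g : Mat N} (hg : gᴴ * g = 1) (x : Mat N) : ‖g * x‖ = ‖x‖ := by
  have h1 : ((‖g * x‖ ^ 2 : ℝ) : ℂ) = ((‖x‖ ^ 2 : ℝ) : ℂ) := by
    rw [frobenius_norm_sq, frobenius_norm_sq, Matrix.conjTranspose_mul, Matrix.mul_assoc,
      ← Matrix.mul_assoc gᴴ, hg, Matrix.one_mul]
  have h2 : ‖g * x‖ ^ 2 = ‖x‖ ^ 2 := by exact_mod_cast h1
  exact (sq_eq_sq₀ (norm_nonneg _) (norm_nonneg _)).1 h2

theorem norm_mul_unitary {g : Mat N} (hg : g * gᴴ = 1) (x : Mat N) : ‖x * g‖ = ‖x‖ := by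
  rw [← Matrix.frobenius_norm_conjTranspose, Matrix.conjTranspose_mul, norm_unitary_mul,
    Matrix.frobenius_norm_conjTranspose]
  rw [Matrix.conjTranspose_conjTranspose]
  exact hg

theorem isIsoGroup_unitary (G : Subgroup (UN N)) (hG : IsClosed (G : Set (UN N))) :
    IsIsoGroup {a : Mat N | ∃ g ∈ G, (g : Mat N) = a} where
  one_mem := ⟨1, G.one_mem, rfl⟩
  mul_mem := by
    rintro _ _ ⟨g, hg, rfl⟩ ⟨h, hh, rfl⟩
    exact ⟨g * h, G.mul_mem hg hh, rfl⟩
  exists_inv := by
    rintro _ ⟨g, hg, rfl⟩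
    exact ⟨_, ⟨g⁻¹, G.inv_mem hg, rfl⟩, Matrix.mem_unitaryGroup_iff.1 g.2,
      Matrix.mem_unitaryGroup_iff'.1 g.2⟩
  norm_mul := by
    rintro _ ⟨g, _, rfl⟩ x
    exact norm_unitary_mul (Matrix.mem_unitaryGroup_iff'.1 g.2) x
  mul_norm := by
    rintro _ ⟨g, _, rfl⟩ x
    exact norm_mul_unitary (Matrix.mem_unitaryGroup_iff.1 g.2) x
  closed := by
    have h1 : IsClosed {a : Mat N | a ∈ Matrix.unitaryGroup (Fin N) ℂ} := by
      have : {a : Mat N | a ∈ Matrix.unitaryGroup (Fin N) ℂ} = {a : Mat N | a * aᴴ = 1} := by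
        ext a
        exact Matrix.mem_unitaryGroup_iff
      rw [this]
      exact isClosed_eq (continuous_id.mul continuous_id.matrix_conjTranspose) continuous_const
    have h2 : IsClosedEmbedding (Subtype.val : UN N → Mat N) := h1.isClosedEmbedding_subtypeVal
    have h3 := h2.isClosedMap _ hG
    exact h3

/-- The Lie algebra of a closed subgroup `G` of `U(N)`: the matrices `X` with `exp (t X) ∈ G` for
all real `t`. -/
def lieAlgebra (G : Subgroup (UN N)) (hG : IsClosed (G : Set (UN N))) : Submodule ℝ (Mat N) where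
  carrier := {X | ∀ t : ℝ, ∃ g ∈ G, (g : Mat N) = exp (t • X)}
  add_mem' := lieSet_add_mem (isIsoGroup_unitary G hG)
  zero_mem' := lieSet_zero_mem (isIsoGroup_unitary G hG)
  smul_mem' c _ hX := lieSet_smul_mem (S := {a : Mat N | ∃ g ∈ G, (g : Mat N) = a}) hX c

variable {G : Subgroup (UN N)} {hG : IsClosed (G : Set (UN N))}

/-- A continuously differentiable path `γ : [0, 1] → G` from `x` to `y` whose velocity translated
to the identity is `u`, that is `γ' = γ u`. -/
structure IsPath (x y : UN N) (γ : ℝ → Mat N) (u : ℝ → lieAlgebra G hG) : Prop where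
  mem : ∀ t ∈ Icc (0 : ℝ) 1, ∃ a ∈ G, (a : Mat N) = γ t
  continuousOn : ContinuousOn u (Icc 0 1)
  deriv : ∀ t ∈ Icc (0 : ℝ) 1, HasDerivWithinAt γ (γ t * u t) (Icc 0 1) t
  source : γ 0 = x
  target : γ 1 = y

/-- The Riemannian distance of the left-invariant metric on `G` given by the inner product `g` on
the Lie algebra: the infimum of the lengths of `C¹` paths. -/
noncomputable def riemannianDist (g : InnerProductSpace.Core ℝ (lieAlgebra G hG))
    (x y : UN N) : ℝ≥0∞ :=
  ⨅ (γ : ℝ → Mat N) (u : ℝ → lieAlgebra G hG) (_ : IsPath x y γ u),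
    ENNReal.ofReal (∫ t in (0 : ℝ)..1, Real.sqrt (g.inner (u t) (u t)))

/-- The diameter of `G` for the Riemannian distance. -/
noncomputable def diameter (g : InnerProductSpace.Core ℝ (lieAlgebra G hG)) : ℝ≥0∞ :=
  ⨆ (x ∈ G) (y ∈ G), riemannianDist g x y

/-- `lam` is an eigenvalue of the Laplace-Beltrami operator `-∑ eᵢ²` of the left-invariant metric
given by `g`, with `(eᵢ)` a `g`-orthonormal basis of the Lie algebra, viewed as left-invariant
vector fields: `(eᵢ² f)(x)` is the second derivative at `t = 0` of `f (x exp (t eᵢ))`. Smooth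
functions on `G` are the restrictions of smooth functions on the space of matrices. -/
def IsEigenvalue (g : InnerProductSpace.Core ℝ (lieAlgebra G hG)) (lam : ℝ) : Prop :=
  ∃ (f : Mat N → ℝ) (m : ℕ) (e : Module.Basis (Fin m) ℝ (lieAlgebra G hG)),
    ContDiff ℝ ∞ f ∧ (∃ x ∈ G, f x ≠ 0) ∧ (∀ i j, g.inner (e i) (e j) = if i = j then 1 else 0) ∧
    ∀ x ∈ G, -∑ i, iteratedDeriv 2 (fun t : ℝ => f (x * exp (t • (e i : Mat N)))) 0 = lam * f x

/-- The smallest positive eigenvalue. -/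
noncomputable def lambda1 (g : InnerProductSpace.Core ℝ (lieAlgebra G hG)) : ℝ≥0∞ :=
  ⨅ (lam : ℝ) (_ : 0 < lam) (_ : IsEigenvalue g lam), ENNReal.ofReal lam

end Pool.Agent.Work.MP_326c77_gt
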