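import Pool.Agent.Work.MP_326c77_gt.PeterWeyl
import Pool.Agent.Work.MP_326c77_gt.MatrixDefs

set_option autoImplicit false
set_option linter.style.haveILetI false
set_option linter.unusedSectionVars false

open Filter Topology Set MeasureTheory
open scoped ENNReal Matrix Matrix.Norms.Frobenius

namespace Pool.Agent.Work.MP_326c77_gt

namespace PW

variable {G : Type*} [Group G] [TopologicalSpace G] [IsTopologicalGroup G] [CompactSpace G]
  [T2Space G]

/-- A compact group without small subgroups has a faithful unitary matrix representation. -/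
theorem exists_rep (hG : NSS G) :
    ∃ (n : ℕ) (R : FRep G (Mat n)), ∀ g, (R.ρ g)ᴴ * R.ρ g = 1 := by
  letI : MeasurableSpace G := borel G
  haveI : BorelSpace G := ⟨rfl⟩
  set μ : Measure G := Measure.haarMeasure (⊤ : TopologicalSpace.PositiveCompacts G) with hμ
  haveI : IsProbabilityMeasure μ := ⟨by
    have := Measure.haarMeasure_self (K₀ := (⊤ : TopologicalSpace.PositiveCompacts G))
    simpa using this⟩
  obtain ⟨F, hFfin, hFinv, hFfaith⟩ := exists_faithful hG
  set W : Submodule ℝ (Lp ℝ 2 μ) := F.map (emb μ).toLinearMap with hW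
  haveI : FiniteDimensional ℝ W := inferInstance
  set n := Module.finrank ℝ W with hn
  set b : OrthonormalBasis (Fin n) ℝ W := stdOrthonormalBasis ℝ W with hb
  have hbW : ∀ j, ∃ f ∈ F, emb μ f = (b j : Lp ℝ 2 μ) := fun j => (b j).2
  choose f hfF hf using hbW
  have htrW : ∀ h, ∀ w ∈ W, tr μ h w ∈ W := by
    rintro h _ ⟨g, hg, rfl⟩
    exact ⟨rtr h g, hFinv h g hg, rfl⟩
  have hexp : ∀ w ∈ W, ∑ k, (inner ℝ (b k : Lp ℝ 2 μ) w : ℝ) • (b k : Lp ℝ 2 μ) = w := by
    intro w hw
    have h1 := b.sum_repr' ⟨w, hw⟩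
    have h2 := congrArg (fun z : W => (z : Lp ℝ 2 μ)) h1
    simpa using h2
  have hort : ∀ i j, inner ℝ (b i : Lp ℝ 2 μ) (b j : Lp ℝ 2 μ) = if i = j then (1 : ℝ) else 0 := by
    intro i j
    have := b.inner_eq_ite i j
    simpa using this
  -- matrix coefficients
  let c : G → Fin n → Fin n → ℝ := fun h i j => inner ℝ (b i : Lp ℝ 2 μ) (tr μ h (b j))
  have hc : ∀ h i j, c h i j = inner ℝ (b i : Lp ℝ 2 μ) (tr μ h (b j)) := fun _ _ _ => rfl
  let ρ : G →* Mat n :=
    { toFun := fun h => Matrix.of fun i j => ((c h i j : ℝ) : ℂ)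
      map_one' := by
        ext i j
        rw [Matrix.of_apply, hc, tr_one, hort, Matrix.one_apply]
        split_ifs <;> simp
      map_mul' := by
        intro h h'
        ext i j
        rw [Matrix.of_apply, Matrix.mul_apply]
        have h1 : c (h * h') i j = ∑ k, c h i k * c h' k j := by
          have h2 : tr μ (h * h') (b j) = ∑ k, c h' k j • tr μ h (b k) := by
            rw [tr_mul]
            conv_lhs => rw [← hexp (tr μ h' (b j)) (htrW h' _ (b j).2)]
            rw [map_sum]
            refine Finset.sum_congr rfl fun k _ => ?_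
            rw [map_smul]
          rw [hc, h2, inner_sum]
          refine Finset.sum_congr rfl fun k _ => ?_
          rw [inner_smul_right, hc h i k, mul_comm]
        rw [h1]
        push_cast
        rfl }
  have hρ : ∀ h i j, ρ h i j = ((c h i j : ℝ) : ℂ) := fun _ _ _ => rfl
  have hstar : ∀ h, (ρ h)ᴴ = ρ h⁻¹ := by
    intro h
    ext i j
    rw [Matrix.conjTranspose_apply, hρ, hρ, hc, hc]
    have h1 : inner ℝ (b j : Lp ℝ 2 μ) (tr μ h (b i)) = inner ℝ (b i : Lp ℝ 2 μ)
        (tr μ h⁻¹ (b j)) := by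
      rw [real_inner_comm, inner_tr]
    rw [h1]
    exact Complex.conj_ofReal _
  have hunit : ∀ h, (ρ h)ᴴ * ρ h = 1 := by
    intro h
    rw [hstar, ← map_mul, inv_mul_cancel, map_one]
  have hunit' : ∀ h, ρ h * (ρ h)ᴴ = 1 := by
    intro h
    rw [hstar, ← map_mul, mul_inv_cancel, map_one]
  have hcont : Continuous ρ := by
    refine continuous_matrix fun i j => ?_
    have h1 : (fun h => ρ h i j) = fun h => ((inner ℝ (b i : Lp ℝ 2 μ) (emb μ (rtr h (f j))) : ℝ) :
        ℂ) := by
      funext h
      rw [hρ, hc, ← hf j, tr_emb]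
    rw [h1]
    exact Complex.continuous_ofReal.comp (continuous_const.inner
      ((emb μ).continuous.comp (continuous_rtr (f j))))
  have hinj : Function.Injective ρ := by
    rw [injective_iff_map_eq_one]
    intro x hx
    apply hFfaith
    -- `x` acts trivially on the basis
    have h1 : ∀ j, tr μ x (b j) = (b j : Lp ℝ 2 μ) := by
      intro j
      rw [← hexp (tr μ x (b j)) (htrW x _ (b j).2)]
      have h2 : ∀ k, inner ℝ (b k : Lp ℝ 2 μ) (tr μ x (b j)) = if k = j then (1 : ℝ) else 0 := by
        intro k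
        have h3 : ρ x k j = (1 : Mat n) k j := by rw [hx]
        rw [hρ, hc, Matrix.one_apply] at h3
        split_ifs at h3 ⊢ <;> exact_mod_cast h3
      simp [h2]
    intro g hg
    apply emb_injective μ
    rw [← tr_emb]
    have h2 : emb μ g ∈ W := ⟨g, hg, rfl⟩
    rw [← hexp _ h2, map_sum]
    refine Finset.sum_congr rfl fun k _ => ?_
    rw [map_smul, h1]
  refine ⟨n, ⟨ρ, hcont, hinj, fun g x => norm_unitary_mul (hunit g) x,
    fun g x => norm_mul_unitary (hunit' g) x⟩, hunit⟩

end PW

end Pool.Agent.Work.MP_326c77_gt
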