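import Pool.Agent.Work.MP_326c77_gt.LinearGroup

set_option autoImplicit false
set_option linter.style.haveILetI false
set_option linter.unusedSectionVars false

open NormedSpace Filter Topology Set

namespace Pool.Agent.Work.MP_326c77_gt

variable {A : Type*} [NormedRing A] [NormedAlgebra ℝ A] [FiniteDimensional ℝ A]

/-- Ordered product of the curves `s ↦ exp (s P) exp (- s Q)`. -/
noncomputable def cprod {m : ℕ} (P Q : Fin m → A) (s : Fin m → ℝ) : A :=
  (List.ofFn fun j => exp (s j • P j) * exp (-(s j) • Q j)).prod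

theorem contDiff_ofFn_prod {E : Type*} [NormedAddCommGroup E] [NormedSpace ℝ E] {m : ℕ}
    {f : Fin m → E → A} (hf : ∀ j, ContDiff ℝ ⊤ (f j)) :
    ContDiff ℝ ⊤ fun z => (List.ofFn fun j => f j z).prod := by
  induction m with
  | zero => simpa using contDiff_const
  | succ m ih =>
    simp only [List.ofFn_succ, List.prod_cons]
    exact (hf 0).mul (ih fun j => hf j.succ)

theorem contDiff_cprod {m : ℕ} :
    ContDiff ℝ ⊤ fun z : ((Fin m → A) × (Fin m → A)) × (Fin m → ℝ) => cprod z.1.1 z.1.2 z.2 := by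
  unfold cprod
  refine contDiff_ofFn_prod (f := fun j (z : ((Fin m → A) × (Fin m → A)) × (Fin m → ℝ)) =>
    exp (z.2 j • z.1.1 j) * exp (-(z.2 j) • z.1.2 j)) fun j => ?_
  have h1 : ContDiff ℝ ⊤ fun z : ((Fin m → A) × (Fin m → A)) × (Fin m → ℝ) => z.2 j :=
    (contDiff_apply ℝ ℝ j).comp contDiff_snd
  have h2 : ContDiff ℝ ⊤ fun z : ((Fin m → A) × (Fin m → A)) × (Fin m → ℝ) => z.1.1 j :=
    (contDiff_apply ℝ A j).comp (contDiff_fst.comp contDiff_fst)
  have h3 : ContDiff ℝ ⊤ fun z : ((Fin m → A) × (Fin m → A)) × (Fin m → ℝ) => z.1.2 j :=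
    (contDiff_apply ℝ A j).comp (contDiff_snd.comp contDiff_fst)
  exact (contDiff_exp.comp (h1.smul h2)).mul (contDiff_exp.comp (h1.neg.smul h3))

theorem hasDerivAt_ofFn_prod {m : ℕ} {c : Fin m → ℝ → A} {V : Fin m → A} (hc : ∀ j, c j 0 = 1)
    (hd : ∀ j, HasDerivAt (c j) (V j) 0) :
    HasDerivAt (fun t => (List.ofFn fun j => c j t).prod) (∑ j, V j) 0 := by
  induction m with
  | zero => simpa using hasDerivAt_const (0 : ℝ) (1 : A)
  | succ m ih =>
    simp only [List.ofFn_succ, List.prod_cons]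
    have h1 := (hd 0).mul (ih (fun j => hc j.succ) fun j => hd j.succ)
    have h2 : (List.ofFn fun j : Fin m => c j.succ 0).prod = 1 := by
      simp [hc]
    rw [h2, hc 0, mul_one, one_mul] at h1
    rw [Fin.sum_univ_succ]
    exact h1

theorem cprod_zero {m : ℕ} (P Q : Fin m → A) : cprod P Q 0 = 1 := by
  simp [cprod]

theorem hasDerivAt_cprod {m : ℕ} (P Q : Fin m → A) (v : Fin m → ℝ) :
    HasDerivAt (fun t : ℝ => cprod P Q (t • v)) (∑ j, v j • (P j - Q j)) 0 := by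
  unfold cprod
  refine hasDerivAt_ofFn_prod (c := fun j t => exp ((t • v) j • P j) * exp (-((t • v) j) • Q j))
    (fun j => by simp) fun j => ?_
  have h1 : HasDerivAt (fun t : ℝ => exp ((t • v) j • P j)) (v j • P j) 0 := by
    have := hasDerivAt_exp_smul_zero (v j • P j)
    simpa [smul_smul] using this
  have h2 : HasDerivAt (fun t : ℝ => exp (-((t • v) j) • Q j)) (-(v j) • Q j) 0 := by
    have := hasDerivAt_exp_smul_zero (-(v j) • Q j)
    simpa [smul_smul] using this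
  have h3 := h1.mul h2
  simp only [Pi.smul_apply, smul_eq_mul, zero_mul, neg_zero, zero_smul, exp_zero, mul_one,
    one_mul] at h3
  have h4 : v j • (P j - Q j) = v j • P j + -(v j) • Q j := by
    rw [smul_sub, neg_smul, sub_eq_add_neg]
  rw [h4]
  exact h3

theorem cprod_mem {S : Set A} (hS : IsIsoGroup S) {m : ℕ} {P Q : Fin m → A}
    (hP : ∀ j, P j ∈ lieSet S) (hQ : ∀ j, Q j ∈ lieSet S) (s : Fin m → ℝ) : cprod P Q s ∈ S := by
  unfold cprod
  have : ∀ l : List A, (∀ x ∈ l, x ∈ S) → l.prod ∈ S := by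
    intro l
    induction l with
    | nil => intro _; simpa using hS.one_mem
    | cons a l ih =>
      intro h
      rw [List.prod_cons]
      exact hS.mul_mem (h a (by simp)) (ih fun x hx => h x (by simp [hx]))
  refine this _ fun x hx => ?_
  rw [List.mem_ofFn] at hx
  obtain ⟨j, rfl⟩ := hx
  exact hS.mul_mem (hP j _) (hQ j _)

/-- **Uniform local filling.** If the vectors `P j - Q j` form a basis of the Lie algebra of `S`,
then products of the curves `exp (s P'ⱼ) exp (- s Q'ⱼ)`, `|s| ≤ c`, cover a neighbourhood of `1` in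
`S`, uniformly for all `(P', Q')` close to `(P, Q)`. -/
theorem uniform_local_filling {S : Set A} (hS : IsIsoGroup S) {m : ℕ} {P Q : Fin m → A}
    (hP : ∀ j, P j ∈ lieSet S) (hQ : ∀ j, Q j ∈ lieSet S)
    (hli : LinearIndependent ℝ fun j => P j - Q j)
    (hspan : ∀ X ∈ lieSet S, X ∈ Submodule.span ℝ (range fun j => P j - Q j)) {c : ℝ}
    (hc : 0 < c) :
    ∃ δ > 0, ∀ᶠ z in 𝓝 (P, Q), (∀ j, z.1 j ∈ lieSet S) → (∀ j, z.2 j ∈ lieSet S) →
      ∀ g ∈ S, ‖g - 1‖ < δ → ∃ s : Fin m → ℝ, (∀ j, |s j| ≤ c) ∧ cprod z.1 z.2 s = g := by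
  -- a linear projection given by coordinates
  set T : (Fin m → ℝ) →ₗ[ℝ] A := Fintype.linearCombination ℝ (fun j => P j - Q j) with hT
  have hTinj : Function.Injective T := by
    rw [hT]
    exact linearIndependent_iff_injective_fintypeLinearCombination.1 hli
  obtain ⟨κ₀, hκ₀⟩ := LinearMap.exists_leftInverse_of_injective T (LinearMap.ker_eq_bot.2 hTinj)
  set κ : A →L[ℝ] (Fin m → ℝ) := LinearMap.toContinuousLinearMap κ₀ with hκ
  have hκT : ∀ v, κ (∑ j, v j • (P j - Q j)) = v := by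
    intro v
    have h1 : T v = ∑ j, v j • (P j - Q j) := by
      rw [hT, Fintype.linearCombination_apply]
    rw [← h1]
    have := LinearMap.congr_fun hκ₀ v
    simpa [hκ] using this
  set Tc : (Fin m → ℝ) →L[ℝ] A := LinearMap.toContinuousLinearMap T with hTc
  set π : A →L[ℝ] A := Tc.comp κ with hπdef
  have hπ : ∀ X ∈ lieSet S, π X = X := by
    intro X hX
    have h1 := hspan X hX
    have h2 : X ∈ LinearMap.range T := by
      rw [hT, Fintype.range_linearCombination]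
      exact h1
    obtain ⟨v, rfl⟩ := h2
    have h3 := LinearMap.congr_fun hκ₀ v
    have h4 : κ₀ (T v) = v := by simpa using h3
    simp [hπdef, hTc, hκ, h4]
  obtain ⟨ρ, hρ, hinj⟩ := exists_injOn hS π hπ
  -- the map in coordinates
  set F : ((Fin m → A) × (Fin m → A)) × (Fin m → ℝ) → (Fin m → ℝ) :=
    fun z => κ (cprod z.1.1 z.1.2 z.2 - 1) with hF
  have hFsmooth : ContDiff ℝ ⊤ F := κ.contDiff.comp (contDiff_cprod.sub contDiff_const)
  have hFstrict : HasStrictFDerivAt F (fderiv ℝ F ((P, Q), 0)) ((P, Q), 0) :=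
    hFsmooth.contDiffAt.hasStrictFDerivAt (by simp)
  set D := fderiv ℝ F ((P, Q), 0) with hD
  have hD0 : ∀ v : Fin m → ℝ, D (0, v) = v := by
    intro v
    have h1 : HasDerivAt (fun t : ℝ => (((P, Q), t • v) :
        ((Fin m → A) × (Fin m → A)) × (Fin m → ℝ))) (0, v) 0 := by
      refine HasDerivAt.prodMk (hasDerivAt_const _ _) ?_
      simpa using (hasDerivAt_id (0 : ℝ)).smul_const v
    have h2 : HasFDerivAt F D ((P, Q), (0 : ℝ) • v) := by
      rw [zero_smul]
      exact hFstrict.hasFDerivAt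
    have h3 := h2.comp_hasDerivAt (0 : ℝ) h1
    have h4 : HasDerivAt (fun t : ℝ => κ (cprod P Q (t • v) - 1))
        (κ (∑ j, v j • (P j - Q j))) 0 :=
      κ.hasFDerivAt.comp_hasDerivAt (0 : ℝ) ((hasDerivAt_cprod P Q v).sub_const 1)
    rw [hκT] at h4
    exact h3.unique h4
  -- uniform approximation by the identity
  have hsmall : ∀ᶠ q : (((Fin m → A) × (Fin m → A)) × (Fin m → ℝ)) ×
      (((Fin m → A) × (Fin m → A)) × (Fin m → ℝ)) in 𝓝 (((P, Q), 0), ((P, Q), 0)),
      ‖F q.1 - F q.2 - D (q.1 - q.2)‖ ≤ (1 / 2 : ℝ) * ‖q.1 - q.2‖ := by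
    have := hFstrict.isLittleO.bound (c := (1 / 2 : ℝ)) (by norm_num)
    exact this
  have hcont : ∀ᶠ z in 𝓝 (((P, Q), 0) : ((Fin m → A) × (Fin m → A)) × (Fin m → ℝ)),
      ‖cprod z.1.1 z.1.2 z.2 - 1‖ < ρ := by
    have h1 : Continuous fun z : ((Fin m → A) × (Fin m → A)) × (Fin m → ℝ) =>
        ‖cprod z.1.1 z.1.2 z.2 - 1‖ := (contDiff_cprod.continuous.sub continuous_const).norm
    have h2 : ‖cprod P Q 0 - 1‖ < ρ := by
      rw [cprod_zero, sub_self, norm_zero]
      exact hρ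
    exact (h1.tendsto ((P, Q), 0)).eventually (gt_mem_nhds h2)
  rw [nhds_prod_eq, nhds_prod_eq] at hsmall
  rw [nhds_prod_eq] at hcont
  obtain ⟨p1, hp1, p2, hp2, hpp⟩ := eventually_prod_iff.1 hcont
  obtain ⟨U, hU, hUU⟩ := (Filter.eventually_prod_self_iff (r := fun q₁ q₂ =>
    ‖F q₁ - F q₂ - D (q₁ - q₂)‖ ≤ (1 / 2 : ℝ) * ‖q₁ - q₂‖)).1 hsmall
  obtain ⟨V, hV, W, hW, hVW⟩ := mem_prod_iff.1 hU
  obtain ⟨ε, hε, hεW⟩ := Metric.mem_nhds_iff.1 (inter_mem hW hp2)
  set ρ' := min (ε / 2) c with hρ'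
  have hρ'pos : 0 < ρ' := lt_min (by positivity) hc
  have hballW : Metric.closedBall (0 : Fin m → ℝ) ρ' ⊆ W ∩ {x | p2 x} := by
    refine (Metric.closedBall_subset_ball ?_).trans hεW
    exact (min_le_left _ _).trans_lt (by linarith)
  refine ⟨ρ' / (2 * (‖κ‖ + 1)) ⊓ ρ, lt_min (by positivity) hρ, ?_⟩
  filter_upwards [hV, hp1] with z hzV hzp hzP hzQ g hg hgδ
  have happrox : ApproximatesLinearOn (fun s => F (z, s)) (ContinuousLinearMap.id ℝ (Fin m → ℝ))
      (Metric.closedBall (0 : Fin m → ℝ) ρ') (1 / 2 : NNReal) := by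
    intro s hs s' hs'
    have h1 := hUU (z, s) (hVW ⟨hzV, (hballW hs).1⟩) (z, s') (hVW ⟨hzV, (hballW hs').1⟩)
    have h2 : ((z, s) : ((Fin m → A) × (Fin m → A)) × (Fin m → ℝ)) - (z, s') = (0, s - s') := by
      simp
    rw [h2, hD0, Prod.norm_def] at h1
    simp only [norm_zero, norm_nonneg, sup_of_le_right] at h1
    simpa using h1
  let f'symm : (ContinuousLinearMap.id ℝ (Fin m → ℝ)).NonlinearRightInverse :=
    { toFun := id
      nnnorm := 1
      bound' := fun y => by simp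
      right_inv' := fun y => by simp }
  have hsurj := happrox.surjOn_closedBall_of_nonlinearRightInverse f'symm hρ'pos.le
    (b := (0 : Fin m → ℝ)) subset_rfl
  have hF0 : F (z, 0) = 0 := by
    simp [hF, cprod_zero]
  simp only [hF0] at hsurj
  have hy : κ (g - 1) ∈ Metric.closedBall (0 : Fin m → ℝ)
      (((f'symm.nnnorm : ℝ)⁻¹ - ((1 / 2 : NNReal) : ℝ)) * ρ') := by
    rw [mem_closedBall_zero_iff]
    have h1 : ‖κ (g - 1)‖ ≤ ‖κ‖ * ‖g - 1‖ := κ.le_opNorm _
    have h2 : ‖g - 1‖ < ρ' / (2 * (‖κ‖ + 1)) := hgδ.trans_le (min_le_left _ _)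
    have h3 : ‖κ‖ * ‖g - 1‖ ≤ (‖κ‖ + 1) * (ρ' / (2 * (‖κ‖ + 1))) := by
      gcongr
      linarith
    have h4 : (‖κ‖ + 1) * (ρ' / (2 * (‖κ‖ + 1))) = 1 / 2 * ρ' := by
      field_simp
    have h5 : ((f'symm.nnnorm : ℝ)⁻¹ - ((1 / 2 : NNReal) : ℝ)) * ρ' = 1 / 2 * ρ' := by
      have : (f'symm.nnnorm : ℝ) = 1 := rfl
      rw [this]
      push_cast
      norm_num
    rw [h5]
    linarith
  obtain ⟨s, hs, hFs⟩ := hsurj hy
  refine ⟨s, ?_, ?_⟩
  · intro j
    have h1 := norm_le_pi_norm s j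
    rw [mem_closedBall_zero_iff] at hs
    rw [Real.norm_eq_abs] at h1
    exact h1.trans (hs.trans (min_le_right _ _))
  · refine hinj _ (cprod_mem hS hzP hzQ s) g hg ?_ ?_ ?_
    · exact hpp hzp (hballW hs).2
    · exact hgδ.trans_le (min_le_right _ _)
    · have h1 : κ (cprod z.1 z.2 s) = κ g := by
        have h2 : κ (cprod z.1 z.2 s - 1) = κ (g - 1) := hFs
        rw [map_sub, map_sub] at h2
        exact sub_left_injective h2
      simp [hπdef, h1]

end Pool.Agent.Work.MP_326c77_gt
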