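import Mathlib

set_option autoImplicit false
set_option linter.style.haveILetI false
set_option linter.unusedSectionVars false

open Filter Topology Set MeasureTheory

namespace Pool.Agent.Work.MP_326c77_gt

section haar

variable {G : Type*} [Group G] [TopologicalSpace G] [IsTopologicalGroup G] [CompactSpace G]
  [MeasurableSpace G] [BorelSpace G] {μ : Measure G} [μ.IsHaarMeasure] [IsProbabilityMeasure μ]

/-- Compact groups are unimodular. -/
theorem map_mul_right_haar (y : G) : μ.map (fun x => x * y) = μ := by
  haveI h2 : IsProbabilityMeasure (μ.map (fun x => x * y)) :=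
    Measure.isProbabilityMeasure_map (measurable_mul_const y).aemeasurable
  exact Measure.isHaarMeasure_eq_of_isProbabilityMeasure _ _

theorem isMulRightInvariant_haar : μ.IsMulRightInvariant := ⟨map_mul_right_haar⟩

theorem isInvInvariant_haar : μ.IsInvInvariant := by
  haveI : μ.IsMulRightInvariant := isMulRightInvariant_haar
  haveI h1 : IsProbabilityMeasure μ.inv :=
    Measure.isProbabilityMeasure_map measurable_inv.aemeasurable
  haveI h2 : μ.inv.IsHaarMeasure :=
    { lt_top_of_isCompact := fun K _ => measure_lt_top _ _
      map_mul_left_eq_self := MeasureTheory.map_mul_left_eq_self μ.inv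
      open_pos := by
        intro U hU hne
        rw [Measure.inv_apply]
        exact (hU.inv).measure_ne_zero μ hne.inv }
  exact ⟨Measure.isHaarMeasure_eq_of_isProbabilityMeasure _ _⟩

theorem integral_mul_right_haar (f : G → ℝ) (y : G) : ∫ x, f (x * y) ∂μ = ∫ x, f x ∂μ := by
  haveI : μ.IsMulRightInvariant := isMulRightInvariant_haar
  exact integral_mul_right_eq_self f y

theorem integral_inv_haar (f : G → ℝ) : ∫ x, f x⁻¹ ∂μ = ∫ x, f x ∂μ := by
  haveI : μ.IsInvInvariant := isInvInvariant_haar
  exact integral_inv_eq_self f μ

end haar

end Pool.Agent.Work.MP_326c77_gt
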