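import Pool.Agent.Work.MP_326c77_gt.Abstract

set_option autoImplicit false
set_option linter.style.haveILetI false
set_option linter.unusedSectionVars false

open Filter Topology Set MeasureTheory

namespace Pool.Agent.Work.MP_326c77_gt

section ConnectedCompact

variable {G : Type*} [Group G] [TopologicalSpace G] [IsTopologicalGroup G]

/-- In a connected topological group, a subgroup which is a neighbourhood of `1` is everything. -/
theorem eq_top_of_mem_nhds [ConnectedSpace G] (H : Subgroup G) (hH : (H : Set G) ∈ 𝓝 (1 : G)) :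
    H = ⊤ := by
  have h1 : IsOpen (H : Set G) := H.isOpen_of_mem_nhds hH
  have h2 : IsClosed (H : Set G) := H.isClosed_of_isOpen h1
  have h3 : (H : Set G) = univ := IsClopen.eq_univ ⟨h2, h1⟩ ⟨1, H.one_mem⟩
  exact SetLike.coe_injective (by simpa using h3)

/-- A compact connected group is generated in boundedly many steps by each neighbourhood of the
identity. -/
theorem exists_bounded_generation [CompactSpace G] [ConnectedSpace G] {U : Set G}
    (hU : U ∈ 𝓝 (1 : G)) :
    ∃ n : ℕ, ∀ x : G, ∃ l : List G, l.length = n ∧ (∀ y ∈ l, y ∈ U) ∧ l.prod = x := by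
  -- a symmetric open neighbourhood inside `U`
  obtain ⟨V, hVU, hVo, hV1⟩ := mem_nhds_iff.1 (inter_mem hU (inv_mem_nhds_one G hU))
  set W : Set G := V ∩ V⁻¹ with hW
  have hWo : IsOpen W := hVo.inter hVo.inv
  have hW1 : (1 : G) ∈ W := ⟨hV1, by simpa using hV1⟩
  have hWU : W ⊆ U := fun x hx => (hVU hx.1).1
  have hWinv : ∀ x, x⁻¹ ∈ W → x ∈ W := by
    intro x hx
    refine ⟨by simpa using hx.2, by simpa using hx.1⟩
  set O : ℕ → Set G := fun n => {x | ∃ l : List G, l.length = n ∧ (∀ y ∈ l, y ∈ W) ∧ l.prod = x}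
    with hO
  have hmono1 : ∀ n, O n ⊆ O (n + 1) := by
    rintro n x ⟨l, hl, hlW, rfl⟩
    refine ⟨1 :: l, by simp [hl], ?_, by simp⟩
    intro y hy
    rcases List.mem_cons.1 hy with rfl | hy
    · exact hW1
    · exact hlW y hy
  have hmono : Monotone O := monotone_nat_of_le_succ hmono1
  have hcover : ∀ x : G, ∃ n, x ∈ O n := by
    intro x
    have htop : Subgroup.closure W = ⊤ :=
      eq_top_of_mem_nhds _ (mem_of_superset (hWo.mem_nhds hW1) Subgroup.subset_closure)
    have hx : x ∈ (Subgroup.closure W).toSubmonoid := by rw [htop]; trivial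
    rw [Subgroup.closure_toSubmonoid] at hx
    obtain ⟨l, hl, rfl⟩ := Submonoid.exists_list_of_mem_closure hx
    exact ⟨l.length, l, rfl, fun y hy => (hl y hy).elim id (hWinv y), rfl⟩
  have hopen : ∀ n, IsOpen (O (n + 1)) := by
    intro n
    have h1 : O (n + 1) = ⋃ y ∈ O n, (fun x => x * y) '' W := by
      ext x
      simp only [mem_iUnion, exists_prop]
      constructor
      · rintro ⟨l, hl, hlW, rfl⟩
        cases l with
        | nil => simp at hl
        | cons a l =>
          refine ⟨l.prod, ⟨l, by simpa using hl, fun y hy => hlW y (by simp [hy]), rfl⟩,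
            a, hlW a (by simp), by simp⟩
      · rintro ⟨y, ⟨l, hl, hlW, rfl⟩, w, hw, rfl⟩
        refine ⟨w :: l, by simp [hl], ?_, by simp⟩
        intro z hz
        rcases List.mem_cons.1 hz with rfl | hz
        · exact hw
        · exact hlW z hz
    rw [h1]
    exact isOpen_biUnion fun y _ => (isOpenMap_mul_right y) _ hWo
  obtain ⟨n, hn⟩ := isCompact_univ.elim_directed_cover (fun n => O (n + 1)) hopen (by
      intro x _
      obtain ⟨n, hn⟩ := hcover x
      exact mem_iUnion.2 ⟨n, hmono1 n hn⟩)
    (Monotone.directed_le fun a b hab => hmono (Nat.add_le_add_right hab 1))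
  refine ⟨n + 1, fun x => ?_⟩
  obtain ⟨l, hl, hlW, rfl⟩ := hn (mem_univ x)
  exact ⟨l, hl, fun y hy => hWU (hlW y hy), rfl⟩

end ConnectedCompact

namespace GroupData

variable {G L : Type*} [Group G] [TopologicalSpace G] [NormedAddCommGroup L]
  [InnerProductSpace ℝ L] {D : GroupData G L} {p : Seminorm ℝ L} {N : Subgroup G}

theorem reach_ofFn {m : ℕ} {f : Fin m → G} {a : Fin m → ℝ} (h : ∀ j, D.Reach p (a j) (f j)) :
    D.Reach p (∑ j, a j) (List.ofFn f).prod := by
  induction m with
  | zero => simp [reach_one]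
  | succ m ih =>
    rw [List.ofFn_succ, List.prod_cons, Fin.sum_univ_succ]
    exact (h 0).mul (ih fun j => h j.succ)

theorem reach_list {l : List G} {a : ℝ} (h : ∀ y ∈ l, D.Reach p a y) :
    D.Reach p (l.length * a) l.prod := by
  induction l with
  | nil => simpa using reach_one
  | cons x l ih =>
    rw [List.prod_cons, List.length_cons]
    have := (h x (by simp)).mul (ih fun y hy => h y (by simp [hy]))
    exact this.mono (by push_cast; linarith)

variable [FiniteDimensional ℝ L]

/-- Small neighbourhoods of `1` consist of elements reachable in short time. -/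
theorem exists_nhds_reach {ε : ℝ} (hε : 0 < ε) : ∃ U ∈ 𝓝 (1 : G), ∀ x ∈ U, D.Reach p ε x := by
  set b := Module.finBasis ℝ L with hb
  set c := ε / (1 + ∑ j, p (b j)) with hc
  have hsum : 0 ≤ ∑ j, p (b j) := Finset.sum_nonneg fun j _ => apply_nonneg p _
  have hcpos : 0 < c := by positivity
  obtain ⟨U, hU, hfill⟩ := D.fill (fun j => b j) (fun _ => 0) (by simpa using b.linearIndependent)
    (by simpa using b.span_eq) c hcpos
  refine ⟨U, hU, fun x hx => ?_⟩
  obtain ⟨s, hs, rfl⟩ := hfill.self_of_nhds x hx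
  have h1 : ∀ j, D.Reach p (c * p (b j)) (D.E (s j • b j) * D.E (-(s j) • (0 : L))) := by
    intro j
    rw [smul_zero, D.E_zero, mul_one]
    refine (reach_E _).mono ?_
    rw [map_smul_eq_mul, Real.norm_eq_abs]
    exact mul_le_mul_of_nonneg_right (hs j) (apply_nonneg p _)
  refine (reach_ofFn h1).mono ?_
  rw [← Finset.mul_sum, hc, div_mul_eq_mul_div, div_le_iff₀ (by positivity)]
  nlinarith

variable [IsTopologicalGroup G] [ConnectedSpace G]

theorem exists_reach (D : GroupData G L) (p : Seminorm ℝ L) (x : G) : ∃ t, D.Reach p t x := by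
  let H : Subgroup G :=
    { carrier := {x | ∃ t, D.Reach p t x}
      mul_mem' := fun ⟨s, hs⟩ ⟨t, ht⟩ => ⟨s + t, hs.mul ht⟩
      one_mem' := ⟨0, reach_one⟩
      inv_mem' := fun ⟨t, ht⟩ => ⟨t, ht.inv⟩ }
  have hH : H = ⊤ := by
    refine eq_top_of_mem_nhds H ?_
    obtain ⟨U, hU, h⟩ := exists_nhds_reach (D := D) (p := p) one_pos
    exact mem_of_superset hU fun x hx => ⟨1, h x hx⟩
  have : x ∈ H := by rw [hH]; trivial
  exact this

/-- The distance to the identity in `G / N` for the norm `p`. -/
noncomputable def ell (D : GroupData G L) (p : Seminorm ℝ L) (N : Subgroup G) (x : G) : ℝ :=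
  sInf {t | D.ReachN p N t x}

theorem ell_set_nonempty (D : GroupData G L) (p : Seminorm ℝ L) (N : Subgroup G) (x : G) :
    {t | D.ReachN p N t x}.Nonempty := by
  obtain ⟨t, ht⟩ := exists_reach D p x
  exact ⟨t, ht.reachN⟩

theorem ell_set_bddBelow (D : GroupData G L) (p : Seminorm ℝ L) (N : Subgroup G) (x : G) :
    BddBelow {t | D.ReachN p N t x} := ⟨0, fun _ ht => ht.nonneg⟩

theorem ell_nonneg (x : G) : 0 ≤ D.ell p N x := Real.sInf_nonneg fun _ ht => ht.nonneg

theorem ReachN.ell_le {t : ℝ} {x : G} (h : D.ReachN p N t x) : D.ell p N x ≤ t :=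
  csInf_le (ell_set_bddBelow D p N x) h

theorem reachN_of_ell_lt {t : ℝ} {x : G} (h : D.ell p N x < t) : D.ReachN p N t x := by
  obtain ⟨s, hs, hst⟩ := exists_lt_of_csInf_lt (ell_set_nonempty D p N x) h
  exact ReachN.mono hs hst.le

theorem ell_mul_le [N.Normal] (x y : G) : D.ell p N (x * y) ≤ D.ell p N x + D.ell p N y := by
  refine le_of_forall_pos_le_add fun ε hε => ?_
  have h1 := reachN_of_ell_lt (D := D) (p := p) (N := N) (x := x)
    (t := D.ell p N x + ε / 2) (by linarith)
  have h2 := reachN_of_ell_lt (D := D) (p := p) (N := N) (x := y)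
    (t := D.ell p N y + ε / 2) (by linarith)
  have := (h1.mul h2).ell_le
  linarith

theorem ell_inv [N.Normal] (x : G) : D.ell p N x⁻¹ = D.ell p N x := by
  have key : ∀ x : G, D.ell p N x⁻¹ ≤ D.ell p N x := by
    intro x
    refine le_of_forall_pos_le_add fun ε hε => ?_
    have h1 := reachN_of_ell_lt (D := D) (p := p) (N := N) (x := x)
      (t := D.ell p N x + ε) (by linarith)
    exact h1.inv.ell_le
  exact le_antisymm (key x) (by simpa using key x⁻¹)

theorem ell_E_le (X : L) : D.ell p N (D.E X) ≤ p X := (reach_E X).reachN.ell_le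

theorem abs_ell_mul_sub_le [N.Normal] (x y : G) :
    |D.ell p N (x * y) - D.ell p N x| ≤ D.ell p N y := by
  rw [abs_le]
  constructor
  · have h1 := ell_mul_le (D := D) (p := p) (N := N) (x * y) y⁻¹
    rw [mul_inv_cancel_right, ell_inv] at h1
    linarith
  · have := ell_mul_le (D := D) (p := p) (N := N) x y
    linarith

theorem ell_lipschitz [N.Normal] (x : G) (X : L) :
    |D.ell p N (x * D.E X) - D.ell p N x| ≤ p X :=
  (abs_ell_mul_sub_le _ _).trans (ell_E_le X)

theorem continuous_ell [N.Normal] : Continuous (D.ell p N) := by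
  rw [continuous_iff_continuousAt]
  intro x
  rw [Metric.continuousAt_iff']
  intro ε hε
  obtain ⟨U, hU, h⟩ := exists_nhds_reach (D := D) (p := p) (half_pos hε)
  have h1 : ∀ᶠ y in 𝓝 x, x⁻¹ * y ∈ U := by
    have : Tendsto (fun y => x⁻¹ * y) (𝓝 x) (𝓝 (x⁻¹ * x)) :=
      (continuous_const.mul continuous_id).tendsto x
    rw [inv_mul_cancel] at this
    exact this hU
  filter_upwards [h1] with y hy
  have h2 := abs_ell_mul_sub_le (D := D) (p := p) (N := N) x (x⁻¹ * y)
  rw [mul_inv_cancel_left] at h2
  rw [Real.dist_eq]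
  have h3 := (h _ hy).reachN (N := N) |>.ell_le
  linarith

/-! ### The variance bound -/

variable [MeasurableSpace G] [BorelSpace G] {μ : Measure G}

/-- `v` bounds the variance of all continuous `1`-Lipschitz functions (for the norm `p`). -/
def PB (D : GroupData G L) (μ : Measure G) (p : Seminorm ℝ L) (v : ℝ) : Prop :=
  ∀ f : G → ℝ, Continuous f → (∀ x X, |f (x * D.E X) - f x| ≤ p X) →
    ∫ x, (f x - ∫ y, f y ∂μ) ^ 2 ∂μ ≤ v

theorem ell_le_two_mul_integral [CompactSpace G] [μ.IsHaarMeasure] [IsProbabilityMeasure μ]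
    [N.Normal] (x : G) : D.ell p N x ≤ 2 * ∫ y, D.ell p N y ∂μ := by
  have hcont : Continuous (D.ell p N) := continuous_ell
  have hint : Integrable (D.ell p N) μ := hcont.integrable_of_hasCompactSupport
    (HasCompactSupport.of_compactSpace _)
  have hint2 : Integrable (fun y => D.ell p N (x * y)) μ :=
    (hcont.comp (continuous_const.mul continuous_id)).integrable_of_hasCompactSupport
    (HasCompactSupport.of_compactSpace _)
  have h1 : ∀ y, D.ell p N x ≤ D.ell p N (x * y) + D.ell p N y := by
    intro y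
    have := ell_mul_le (D := D) (p := p) (N := N) (x * y) y⁻¹
    rwa [mul_inv_cancel_right, ell_inv] at this
  have h2 : ∫ _ : G, D.ell p N x ∂μ ≤ ∫ y, (D.ell p N (x * y) + D.ell p N y) ∂μ :=
    integral_mono (integrable_const _) (hint2.add hint) h1
  rw [integral_add hint2 hint, integral_mul_left_eq_self (fun y => D.ell p N y) x] at h2
  simp only [integral_const, probReal_univ, one_smul] at h2
  linarith

theorem variance_bound [CompactSpace G] [μ.IsHaarMeasure] [IsProbabilityMeasure μ] {v : ℝ}
    (h : D.PB μ p v) (N : Subgroup G) [N.Normal] {U : Set G} (hU : MeasurableSet U) {x : G}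
    (hx : ∀ y ∈ U, D.ell p N y ≤ D.ell p N x / 4) : (D.ell p N x / 4) ^ 2 * μ.real U ≤ v := by
  have hcont : Continuous (D.ell p N) := continuous_ell
  set m := ∫ y, D.ell p N y ∂μ with hm
  have hmean : D.ell p N x ≤ 2 * m := ell_le_two_mul_integral x
  have h1 := h (D.ell p N) hcont fun x X => ell_lipschitz x X
  refine le_trans ?_ h1
  have hint : Integrable (fun y => (D.ell p N y - m) ^ 2) μ :=
    ((hcont.sub continuous_const).pow 2).integrable_of_hasCompactSupport
    (HasCompactSupport.of_compactSpace _)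
  have h2 : ∫ y in U, (D.ell p N x / 4) ^ 2 ∂μ ≤ ∫ y in U, (D.ell p N y - m) ^ 2 ∂μ := by
    refine setIntegral_mono_on ?_ hint.integrableOn hU ?_
    · exact (integrable_const _).integrableOn
    · intro y hy
      have h3 := hx y hy
      have h4 := ell_nonneg (D := D) (p := p) (N := N) x
      nlinarith
  have h5 : ∫ y in U, (D.ell p N y - m) ^ 2 ∂μ ≤ ∫ y, (D.ell p N y - m) ^ 2 ∂μ :=
    setIntegral_le_integral hint (Eventually.of_forall fun y => sq_nonneg _)
  rw [setIntegral_const, smul_eq_mul] at h2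
  linarith

end GroupData

end Pool.Agent.Work.MP_326c77_gt
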