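import Mathlib

set_option autoImplicit false

open Set MeasureTheory
open scoped Manifold ContDiff ENNReal

namespace Pool.Agent.Work.MP_326c77_gt.LieDefs

variable {E : Type*} [NormedAddCommGroup E] [NormedSpace ℝ E]
  {H : Type*} [TopologicalSpace H] {I : ModelWithCorners ℝ E H}
  {G : Type*} [TopologicalSpace G] [ChartedSpace H G] [Group G]

/-- The left translation `T_x G → T_1 G` of tangent vectors at `x` to the identity: the
differential at `x` of the map `y ↦ x⁻¹ y`. -/
noncomputable def toOne (x : G) : TangentSpace I x →L[ℝ] GroupLieAlgebra I G :=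
  mfderiv I I (fun y : G => x⁻¹ * y) x

/-- The norm of a tangent vector `w` at `x` for the left-invariant Riemannian metric given by the
inner product `g` on the Lie algebra `T_1 G`. -/
noncomputable def tangentENorm (g : InnerProductSpace.Core ℝ (GroupLieAlgebra I G)) (x : G)
    (w : TangentSpace I x) : ℝ≥0∞ :=
  ENNReal.ofReal (Real.sqrt (g.inner (toOne x w) (toOne x w)))

/-- The Riemannian distance on `G` of the left-invariant metric given by `g`: Mathlib's
`Manifold.riemannianEDist`, the infimum of the lengths of the `C¹` paths. -/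
noncomputable def riemannianDist (g : InnerProductSpace.Core ℝ (GroupLieAlgebra I G))
    (x y : G) : ℝ≥0∞ :=
  letI : ∀ z : G, ENorm (TangentSpace I z) := fun z => ⟨tangentENorm g z⟩
  Manifold.riemannianEDist I x y

/-- The diameter of `G` for the left-invariant metric given by `g`. -/
noncomputable def diameter (g : InnerProductSpace.Core ℝ (GroupLieAlgebra I G)) : ℝ≥0∞ :=
  ⨆ (x : G) (y : G), riemannianDist g x y

/-- The derivative of the function `f` along the left-invariant vector field of `v ∈ T_1 G`. -/
noncomputable def fieldDeriv (v : GroupLieAlgebra I G) (f : G → ℝ) (x : G) : ℝ :=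
  mfderiv I 𝓘(ℝ, ℝ) f x (mulInvariantVectorField v x)

/-- `lam` is an eigenvalue of the Laplace-Beltrami operator `-∑ eᵢ²` of the left-invariant metric
given by `g` acting on smooth functions, with `(eᵢ)` a `g`-orthonormal basis of the Lie algebra,
viewed as left-invariant vector fields. -/
def IsEigenvalue (g : InnerProductSpace.Core ℝ (GroupLieAlgebra I G)) (lam : ℝ) : Prop :=
  ∃ (f : G → ℝ) (m : ℕ) (e : Module.Basis (Fin m) ℝ (GroupLieAlgebra I G)),
    ContMDiff I 𝓘(ℝ, ℝ) ∞ f ∧ f ≠ 0 ∧
    (∀ i j, g.inner (e i) (e j) = if i = j then 1 else 0) ∧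
    ∀ x, -∑ i, fieldDeriv (e i) (fieldDeriv (e i) f) x = lam * f x

/-- The smallest positive eigenvalue. -/
noncomputable def lambda1 (g : InnerProductSpace.Core ℝ (GroupLieAlgebra I G)) : ℝ≥0∞ :=
  ⨅ (lam : ℝ) (_ : 0 < lam) (_ : IsEigenvalue g lam), ENNReal.ofReal lam

end Pool.Agent.Work.MP_326c77_gt.LieDefs
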