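import Pool.Agent.Work.MP_326c77_gt.Faithful

set_option autoImplicit false
set_option linter.style.haveILetI false
set_option linter.unusedSectionVars false

open Filter Topology Set MeasureTheory
open scoped ENNReal Manifold ContDiff

namespace Pool.Agent.Work.MP_326c77_gt

namespace LG

variable {E : Type*} [NormedAddCommGroup E] [NormedSpace ℝ E]
  {H : Type*} [TopologicalSpace H] (I : ModelWithCorners ℝ E H) [I.Boundaryless]
  {G : Type*} [TopologicalSpace G] [ChartedSpace H G] [Group G] [LieGroup I ∞ G]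

/-- The chart at `1`. -/
noncomputable abbrev ph (G : Type*) [TopologicalSpace G] [ChartedSpace H G] [Group G] :
    PartialEquiv G E := extChartAt I (1 : G)

theorem one_mem_source : (1 : G) ∈ (ph I G).source := mem_extChartAt_source _

theorem u₀_mem_target : ph I G 1 ∈ (ph I G).target := mem_extChartAt_target _

theorem isOpen_source : IsOpen (ph I G).source := isOpen_extChartAt_source _

theorem isOpen_target : IsOpen (ph I G).target := isOpen_extChartAt_target _

theorem contMDiffOn_ph : ContMDiffOn I 𝓘(ℝ, E) ∞ (ph I G) (ph I G).source := by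
  have := contMDiffOn_extChartAt (I := I) (n := ∞) (x := (1 : G))
  rwa [← extChartAt_source I] at this

theorem contMDiffOn_ph_symm : ContMDiffOn 𝓘(ℝ, E) I ∞ (ph I G).symm (ph I G).target :=
  contMDiffOn_extChartAt_symm (1 : G)

/-- Multiplication in the chart. -/
noncomputable def mulC (G : Type*) [TopologicalSpace G] [ChartedSpace H G] [Group G]
    (q : E × E) : E :=
  ph I G ((ph I G).symm q.1 * (ph I G).symm q.2)

theorem contDiffAt_mulC : ContDiffAt ℝ ∞ (mulC I G) (ph I G 1, ph I G 1) := by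
  rw [← contMDiffAt_iff_contDiffAt]
  have h1 : ContMDiffAt 𝓘(ℝ, E × E) I ∞
      (fun q : E × E => (ph I G).symm q.1 * (ph I G).symm q.2) (ph I G 1, ph I G 1) := by
    have e0 : ContMDiffAt 𝓘(ℝ, E) I ∞ (ph I G).symm (ph I G 1) :=
      (contMDiffOn_ph_symm I).contMDiffAt ((isOpen_target I).mem_nhds (u₀_mem_target I))
    have e1 : ContMDiffAt 𝓘(ℝ, E × E) I ∞ (fun q : E × E => (ph I G).symm q.1)
        (ph I G 1, ph I G 1) :=
      ContMDiffAt.comp (x := ((ph I G 1, ph I G 1) : E × E)) (I' := 𝓘(ℝ, E))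
        (g := (ph I G).symm) (f := Prod.fst) e0 contDiff_fst.contMDiff.contMDiffAt
    have e2 : ContMDiffAt 𝓘(ℝ, E × E) I ∞ (fun q : E × E => (ph I G).symm q.2)
        (ph I G 1, ph I G 1) :=
      ContMDiffAt.comp (x := ((ph I G 1, ph I G 1) : E × E)) (I' := 𝓘(ℝ, E))
        (g := (ph I G).symm) (f := Prod.snd) e0 contDiff_snd.contMDiff.contMDiffAt
    exact e1.mul e2
  have h2 : ContMDiffAt I 𝓘(ℝ, E) ∞ (ph I G)
      ((ph I G).symm (ph I G 1) * (ph I G).symm (ph I G 1)) := by
    rw [(ph I G).left_inv (one_mem_source I), mul_one]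
    exact (contMDiffOn_ph I).contMDiffAt ((isOpen_source I).mem_nhds (one_mem_source I))
  exact ContMDiffAt.comp (x := ((ph I G 1, ph I G 1) : E × E)) (g := ph I G)
    (f := fun q : E × E => (ph I G).symm q.1 * (ph I G).symm q.2) h2 h1

theorem mulC_one_right {u : E} (hu : u ∈ (ph I G).target) : mulC I G (u, ph I G 1) = u := by
  unfold mulC
  rw [(ph I G).left_inv (one_mem_source I), mul_one, (ph I G).right_inv hu]

theorem mulC_one_left {u : E} (hu : u ∈ (ph I G).target) : mulC I G (ph I G 1, u) = u := by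
  unfold mulC
  rw [(ph I G).left_inv (one_mem_source I), one_mul, (ph I G).right_inv hu]

/-- The derivative of multiplication at `(1, 1)`. -/
theorem hasFDerivAt_mulC : HasFDerivAt (mulC I G)
    (ContinuousLinearMap.fst ℝ E E + ContinuousLinearMap.snd ℝ E E) (ph I G 1, ph I G 1) := by
  have hd := (contDiffAt_mulC I (G := G)).differentiableAt (by simp)
  have h := hd.hasFDerivAt
  set D := fderiv ℝ (mulC I G) (ph I G 1, ph I G 1) with hD
  have h1 : D.comp (ContinuousLinearMap.inl ℝ E E) = ContinuousLinearMap.id ℝ E := by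
    have e1 : HasFDerivAt (fun u : E => (u, ph I G 1)) (ContinuousLinearMap.inl ℝ E E)
        (ph I G 1) := hasFDerivAt_prodMk_left _ _
    have e2 : HasFDerivAt (fun u : E => mulC I G (u, ph I G 1))
        (D.comp (ContinuousLinearMap.inl ℝ E E)) (ph I G 1) :=
      HasFDerivAt.comp (f := fun u : E => (u, ph I G 1)) (g := mulC I G) (ph I G 1) h e1
    have e3 : HasFDerivAt (fun u : E => mulC I G (u, ph I G 1)) (ContinuousLinearMap.id ℝ E)
        (ph I G 1) := by
      refine (hasFDerivAt_id (ph I G 1)).congr_of_eventuallyEq ?_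
      filter_upwards [(isOpen_target I).mem_nhds (u₀_mem_target I)] with u hu
      exact mulC_one_right I hu
    exact e2.unique e3
  have h2 : D.comp (ContinuousLinearMap.inr ℝ E E) = ContinuousLinearMap.id ℝ E := by
    have e1 : HasFDerivAt (fun u : E => (ph I G 1, u)) (ContinuousLinearMap.inr ℝ E E)
        (ph I G 1) := hasFDerivAt_prodMk_right _ _
    have e2 : HasFDerivAt (fun u : E => mulC I G (ph I G 1, u))
        (D.comp (ContinuousLinearMap.inr ℝ E E)) (ph I G 1) :=
      HasFDerivAt.comp (f := fun u : E => (ph I G 1, u)) (g := mulC I G) (ph I G 1) h e1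
    have e3 : HasFDerivAt (fun u : E => mulC I G (ph I G 1, u)) (ContinuousLinearMap.id ℝ E)
        (ph I G 1) := by
      refine (hasFDerivAt_id (ph I G 1)).congr_of_eventuallyEq ?_
      filter_upwards [(isOpen_target I).mem_nhds (u₀_mem_target I)] with u hu
      exact mulC_one_left I hu
    exact e2.unique e3
  have h3 : D = ContinuousLinearMap.fst ℝ E E + ContinuousLinearMap.snd ℝ E E := by
    ext z
    · have := congrArg (fun L : E →L[ℝ] E => L z) h1
      simpa using this
    · have := congrArg (fun L : E →L[ℝ] E => L z) h2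
      simpa using this
  rw [← h3]
  exact h

include I in
/-- Lie groups have no small subgroups. -/
theorem nss : PW.NSS G := by
  set u₀ := ph I G 1 with hu₀
  have h1 : HasFDerivAt (fun u : E => mulC I G (u, u))
      ((ContinuousLinearMap.fst ℝ E E + ContinuousLinearMap.snd ℝ E E).comp
        ((ContinuousLinearMap.id ℝ E).prod (ContinuousLinearMap.id ℝ E))) u₀ := by
    have e1 : HasFDerivAt (fun u : E => (u, u))
        ((ContinuousLinearMap.id ℝ E).prod (ContinuousLinearMap.id ℝ E)) u₀ :=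
      (hasFDerivAt_id u₀).prodMk (hasFDerivAt_id u₀)
    exact HasFDerivAt.comp (f := fun u : E => (u, u)) (g := mulC I G) u₀ (hasFDerivAt_mulC I) e1
  have h2 := h1.isLittleO.bound (c := (1 / 2 : ℝ)) (by norm_num)
  have h3 : mulC I G (u₀, u₀) = u₀ := mulC_one_right I (u₀_mem_target I)
  obtain ⟨ε, hε, hball⟩ := Metric.eventually_nhds_iff_ball.1 h2
  have hcont : ContinuousAt (ph I G) 1 := continuousAt_extChartAt (1 : G)
  refine ⟨(ph I G).source ∩ (ph I G) ⁻¹' Metric.ball u₀ ε,
    inter_mem ((isOpen_source I).mem_nhds (one_mem_source I))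
      (hcont.preimage_mem_nhds (Metric.ball_mem_nhds _ hε)), fun x hx => ?_⟩
  -- doubling
  have key : ∀ y : G, y ∈ (ph I G).source → ph I G y ∈ Metric.ball u₀ ε →
      3 / 2 * ‖ph I G y - u₀‖ ≤ ‖ph I G (y * y) - u₀‖ := by
    intro y hy hyb
    have e1 := hball _ hyb
    rw [h3] at e1
    have e2 : mulC I G (ph I G y, ph I G y) = ph I G (y * y) := by
      unfold mulC
      rw [(ph I G).left_inv hy]
    rw [e2] at e1
    have e3 : ((ContinuousLinearMap.fst ℝ E E + ContinuousLinearMap.snd ℝ E E).comp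
        ((ContinuousLinearMap.id ℝ E).prod (ContinuousLinearMap.id ℝ E))) (ph I G y - u₀)
        = (2 : ℝ) • (ph I G y - u₀) := by
      simp [two_smul]
    rw [e3] at e1
    have e4 : ‖(2 : ℝ) • (ph I G y - u₀)‖ = 2 * ‖ph I G y - u₀‖ := by
      rw [norm_smul]
      norm_num
    have e5 : ‖(2 : ℝ) • (ph I G y - u₀)‖ ≤ ‖ph I G (y * y) - u₀‖
        + ‖ph I G (y * y) - u₀ - (2 : ℝ) • (ph I G y - u₀)‖ := by
      rw [← norm_sub_rev ((2 : ℝ) • (ph I G y - u₀))]
      have := norm_add_le (ph I G (y * y) - u₀)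
        ((2 : ℝ) • (ph I G y - u₀) - (ph I G (y * y) - u₀))
      rwa [add_sub_cancel] at this
    linarith
  have hpow : ∀ k : ℕ, (3 / 2 : ℝ) ^ k * ‖ph I G x - u₀‖ ≤ ‖ph I G (x ^ 2 ^ k) - u₀‖ := by
    intro k
    induction k with
    | zero => simp
    | succ k ih =>
      have e1 := key (x ^ 2 ^ k) (hx _).1 (hx _).2
      have e2 : x ^ 2 ^ k * x ^ 2 ^ k = x ^ 2 ^ (k + 1) := by
        rw [← pow_add, pow_succ]
        congr 1
        ring
      rw [e2] at e1
      calc (3 / 2 : ℝ) ^ (k + 1) * ‖ph I G x - u₀‖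
          = 3 / 2 * ((3 / 2 : ℝ) ^ k * ‖ph I G x - u₀‖) := by ring
        _ ≤ 3 / 2 * ‖ph I G (x ^ 2 ^ k) - u₀‖ := by gcongr
        _ ≤ _ := e1
  have hzero : ‖ph I G x - u₀‖ = 0 := by
    by_contra hne
    have hpos : 0 < ‖ph I G x - u₀‖ := lt_of_le_of_ne (norm_nonneg _) (Ne.symm hne)
    have hlim : Tendsto (fun k : ℕ => (3 / 2 : ℝ) ^ k * ‖ph I G x - u₀‖) atTop atTop :=
      (tendsto_pow_atTop_atTop_of_one_lt (by norm_num)).atTop_mul_const hpos
    obtain ⟨k, hk⟩ := (hlim.eventually_gt_atTop ε).exists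
    have e1 : ‖ph I G (x ^ 2 ^ k) - u₀‖ < ε := by
      have := (hx (2 ^ k)).2
      rwa [mem_preimage, mem_ball_iff_norm] at this
    linarith [hpow k]
  rw [norm_eq_zero, sub_eq_zero] at hzero
  have hxs : x ∈ (ph I G).source := by
    have := (hx 1).1
    rwa [pow_one] at this
  exact (ph I G).injOn hxs (one_mem_source I) hzero

end LG

end Pool.Agent.Work.MP_326c77_gt
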