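import Pool.Agent.Work.MP_326c77_gt.Sequences

set_option autoImplicit false
set_option linter.style.haveILetI false
set_option linter.unusedSectionVars false

open Filter Topology Set MeasureTheory
open scoped NNReal

namespace Pool.Agent.Work.MP_326c77_gt

namespace GroupData

variable {G L : Type*} [Group G] [TopologicalSpace G] [NormedAddCommGroup L]
  [InnerProductSpace ℝ L] {D : GroupData G L} {N : Subgroup G}
  [FiniteDimensional ℝ L] {𝔰 : Submodule ℝ L}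

/-! ### The span of the orbit over small balls -/

/-- The span of `Ad x Y` for `x ∈ A`. -/
def orbitSpan (D : GroupData G L) (Y : L) (A : Set G) : Submodule ℝ L :=
  Submodule.span ℝ ((fun x => D.Ad x Y) '' A)

theorem orbitSpan_mono {Y : L} {A B : Set G} (h : A ⊆ B) : D.orbitSpan Y A ≤ D.orbitSpan Y B :=
  Submodule.span_mono (image_mono h)

theorem inv_orbitSpan_univ (Y : L) : D.Inv (D.orbitSpan Y univ) := by
  intro g Z hZ
  have h1 : (D.orbitSpan Y univ).map (D.Ad g).toLinearEquiv.toLinearMap ≤ D.orbitSpan Y univ := by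
    unfold orbitSpan
    rw [Submodule.map_span, Submodule.span_le]
    rintro _ ⟨_, ⟨x, _, rfl⟩, rfl⟩
    refine Submodule.subset_span ⟨g * x, mem_univ _, ?_⟩
    exact D.Ad_mul g x Y
  exact h1 ⟨Z, hZ, rfl⟩

/-- **Key algebraic lemma.**  Let `A j` be a decreasing system of subsets of `G` behaving like
balls of radius `2⁻ʲ` in a length space. Then the span of `Ad x Y` over `x ∈ A j` does not depend
on `j`. -/
theorem orbitSpan_eq (Y : L) (A : ℕ → Set G) (h0 : A 0 = univ)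
    (hmul : ∀ j, ∀ x ∈ A (j + 1), ∀ y ∈ A (j + 1), x * y ∈ A j)
    (hsplit : ∀ j, ∀ x ∈ A j, ∃ y ∈ A (j + 1), ∃ z ∈ A (j + 1), x = y * z)
    (h1 : ∀ j, (1 : G) ∈ A j) (j : ℕ) : D.orbitSpan Y (A j) = D.orbitSpan Y univ := by
  have hanti1 : ∀ j, A (j + 1) ⊆ A j := by
    intro j x hx
    have := hmul j x hx 1 (h1 _)
    rwa [mul_one] at this
  have hanti : Antitone A := antitone_nat_of_succ_le hanti1
  set V : ℕ → Submodule ℝ L := fun j => D.orbitSpan Y (A j) with hV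
  have hVanti : Antitone V := fun a b hab => orbitSpan_mono (hanti hab)
  obtain ⟨J, hJ⟩ := IsArtinian.monotone_stabilizes
    (⟨fun j => OrderDual.toDual (V j), fun a b hab => hVanti hab⟩ : ℕ →o (Submodule ℝ L)ᵒᵈ)
  have hJ' : ∀ m, J ≤ m → V m = V J := fun m hm => (OrderDual.toDual.injective (hJ m hm)).symm
  -- elements of `A (J+1)` preserve `V J`
  have hpres : ∀ x ∈ A (J + 1), ∀ Z ∈ V J, D.Ad x Z ∈ V J := by
    intro x hx Z hZ
    rw [← hJ' (J + 1) (Nat.le_succ J)] at hZ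
    have h2 : (V (J + 1)).map (D.Ad x).toLinearEquiv.toLinearMap ≤ V J := by
      simp only [hV, orbitSpan]
      rw [Submodule.map_span, Submodule.span_le]
      rintro _ ⟨_, ⟨y, hy, rfl⟩, rfl⟩
      refine Submodule.subset_span ⟨x * y, hmul J x hx y hy, ?_⟩
      exact D.Ad_mul x y Y
    exact h2 ⟨Z, hZ, rfl⟩
  -- hence so do the elements of all `A i`
  have hpres' : ∀ i, ∀ x ∈ A (J + 1 - i), ∀ Z ∈ V J, D.Ad x Z ∈ V J := by
    intro i
    induction i with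
    | zero => exact hpres
    | succ i ih =>
      intro x hx Z hZ
      rcases Nat.lt_or_ge i (J + 1) with hi | hi
      · obtain ⟨y, hy, z, hz, rfl⟩ := hsplit _ x hx
        have he : J + 1 - (i + 1) + 1 = J + 1 - i := by omega
        rw [he] at hy hz
        rw [D.Ad_mul]
        exact ih y hy _ (ih z hz Z hZ)
      · have he : J + 1 - (i + 1) = J + 1 - i := by omega
        rw [he] at hx
        exact ih x hx Z hZ
  have hinv : ∀ x : G, ∀ Z ∈ V J, D.Ad x Z ∈ V J := by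
    intro x
    refine hpres' (J + 1) x ?_
    rw [Nat.sub_self, h0]
    trivial
  have hYV : Y ∈ V J := by
    refine Submodule.subset_span ⟨1, h1 J, ?_⟩
    exact D.Ad_one Y
  have htop : D.orbitSpan Y univ ≤ V J := by
    unfold orbitSpan
    rw [Submodule.span_le]
    rintro _ ⟨x, _, rfl⟩
    exact hinv x Y hYV
  refine le_antisymm (orbitSpan_mono (subset_univ _)) ?_
  refine htop.trans ?_
  rcases le_total j J with hj | hj
  · exact hVanti hj
  · exact (hJ' j hj).ge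

/-! ### Limits of balls along an ultrafilter -/

/-- Limits along `𝒰` of points of the balls of radius `t`. -/
def limBall (D : GroupData G L) (N : Subgroup G) (p : ℕ → Seminorm ℝ L) (𝒰 : Ultrafilter ℕ)
    (t : ℝ) : Set G :=
  {x | ∃ y : ℕ → G, (∀ᶠ k in (𝒰 : Filter ℕ), D.ReachN (p k) N t (y k)) ∧
    Tendsto y (𝒰 : Filter ℕ) (𝓝 x)}

variable {p : ℕ → Seminorm ℝ L} {𝒰 : Ultrafilter ℕ}

theorem one_mem_limBall {t : ℝ} (ht : 0 ≤ t) : (1 : G) ∈ D.limBall N p 𝒰 t :=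
  ⟨fun _ => 1, Eventually.of_forall fun _ => (reach_one.mono ht).reachN, tendsto_const_nhds⟩

variable [IsTopologicalGroup G]

theorem mul_mem_limBall [N.Normal] {s t : ℝ} {x y : G} (hx : x ∈ D.limBall N p 𝒰 s)
    (hy : y ∈ D.limBall N p 𝒰 t) : x * y ∈ D.limBall N p 𝒰 (s + t) := by
  obtain ⟨a, ha, hax⟩ := hx
  obtain ⟨b, hb, hby⟩ := hy
  refine ⟨fun k => a k * b k, ?_, hax.mul hby⟩
  filter_upwards [ha, hb] with k h1 h2
  exact h1.mul h2

theorem exists_ultrafilter_tendsto [CompactSpace G] (𝒰 : Ultrafilter ℕ) (y : ℕ → G) :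
    ∃ x, Tendsto y (𝒰 : Filter ℕ) (𝓝 x) := by
  obtain ⟨x, _, hx⟩ := isCompact_univ.ultrafilter_le_nhds (𝒰.map y) (by simp)
  exact ⟨x, hx⟩

theorem limBall_split [CompactSpace G] {s t : ℝ} (hs : 0 ≤ s) (ht : 0 ≤ t) {x : G}
    (hx : x ∈ D.limBall N p 𝒰 (s + t)) :
    ∃ y ∈ D.limBall N p 𝒰 s, ∃ z ∈ D.limBall N p 𝒰 t, x = y * z := by
  obtain ⟨a, ha, hax⟩ := hx
  have h1 : ∀ k, ∃ y z, a k = y * z ∧ (D.ReachN (p k) N (s + t) (a k) →
      D.ReachN (p k) N s y ∧ D.ReachN (p k) N t z) := by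
    intro k
    by_cases h : D.ReachN (p k) N (s + t) (a k)
    · obtain ⟨y, z, h1, h2, h3⟩ := h.split hs ht
      exact ⟨y, z, h1, fun _ => ⟨h2, h3⟩⟩
    · exact ⟨a k, 1, by simp, fun h' => (h h').elim⟩
  choose y z hyz hr using h1
  obtain ⟨y₀, hy₀⟩ := exists_ultrafilter_tendsto 𝒰 y
  have hz₀ : Tendsto z (𝒰 : Filter ℕ) (𝓝 (y₀⁻¹ * x)) := by
    have h2 : z = fun k => (y k)⁻¹ * a k := by
      funext k
      rw [hyz k, inv_mul_cancel_left]
    rw [h2]
    exact hy₀.inv.mul hax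
  refine ⟨y₀, ⟨y, ?_, hy₀⟩, y₀⁻¹ * x, ⟨z, ?_, hz₀⟩, by group⟩
  · filter_upwards [ha] with k hk
    exact (hr k hk).1
  · filter_upwards [ha] with k hk
    exact (hr k hk).2

theorem limBall_eq_univ {t : ℝ} (h : ∀ k x, D.ReachN (p k) N t x) :
    D.limBall N p 𝒰 t = univ := by
  rw [eq_univ_iff_forall]
  intro x
  exact ⟨fun _ => x, Eventually.of_forall fun k => h k x, tendsto_const_nhds⟩

/-- At all scales the orbit of `Y` under the limit ball spans the full orbit span. -/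
theorem orbitSpan_limBall [CompactSpace G] [N.Normal] (h : ∀ k x, D.ReachN (p k) N 2 x) (Y : L)
    (j : ℕ) : D.orbitSpan Y (D.limBall N p 𝒰 (2 / 2 ^ j)) = D.orbitSpan Y univ := by
  refine orbitSpan_eq Y (fun j => D.limBall N p 𝒰 (2 / 2 ^ j)) ?_ ?_ ?_ ?_ j
  · simp only [pow_zero, div_one]
    exact limBall_eq_univ h
  · intro j x hx y hy
    have := mul_mem_limBall hx hy
    have he : (2 : ℝ) / 2 ^ (j + 1) + 2 / 2 ^ (j + 1) = 2 / 2 ^ j := by
      rw [pow_succ]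
      field_simp
      norm_num
    rwa [he] at this
  · intro j x hx
    have he : (2 : ℝ) / 2 ^ j = 2 / 2 ^ (j + 1) + 2 / 2 ^ (j + 1) := by
      rw [pow_succ]
      field_simp
      norm_num
    simp only [he] at hx
    exact limBall_split (by positivity) (by positivity) hx
  · intro j
    exact one_mem_limBall (by positivity)

/-! ### Choice of a fast direction -/

/-- Almost optimal directions for the projection to `𝔰`. -/
theorem exists_direction (h𝔰 : 𝔰 ≠ ⊥) (p : Seminorm ℝ L) {ε : ℝ} (hε : 0 < ε) :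
    ∃ (m : ℝ) (X : L), 0 ≤ m ∧ (∀ Z, m * ‖𝔰.starProjection Z‖ ≤ p Z) ∧
      ‖𝔰.starProjection X‖ = 1 ∧ p X ≤ m + ε := by
  set S : Set ℝ := p '' {Z | ‖𝔰.starProjection Z‖ = 1} with hS
  have hne : S.Nonempty := by
    obtain ⟨Z, hZ, hZ0⟩ := Submodule.exists_mem_ne_zero_of_ne_bot h𝔰
    have hn : 0 < ‖Z‖ := norm_pos_iff.2 hZ0
    refine ⟨p (‖Z‖⁻¹ • Z), ‖Z‖⁻¹ • Z, ?_, rfl⟩
    have h1 : 𝔰.starProjection (‖Z‖⁻¹ • Z) = ‖Z‖⁻¹ • Z :=
      Submodule.starProjection_eq_self_iff.2 (Submodule.smul_mem _ _ hZ)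
    rw [mem_ofPred_eq, h1, norm_smul, norm_inv, norm_norm, inv_mul_cancel₀ hn.ne']
  have hbdd : BddBelow S := ⟨0, by rintro _ ⟨Z, _, rfl⟩; exact apply_nonneg p Z⟩
  have hm0 : 0 ≤ sInf S := Real.sInf_nonneg (by rintro _ ⟨Z, _, rfl⟩; exact apply_nonneg p Z)
  obtain ⟨_, ⟨X, hX, rfl⟩, hlt⟩ := exists_lt_of_csInf_lt hne (lt_add_of_pos_right (sInf S) hε)
  refine ⟨sInf S, X, hm0, ?_, hX, hlt.le⟩
  intro Z
  rcases (norm_nonneg (𝔰.starProjection Z)).eq_or_lt with h | h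
  · rw [← h, mul_zero]
    exact apply_nonneg p Z
  · have h1 : p (‖𝔰.starProjection Z‖⁻¹ • Z) ∈ S := by
      refine ⟨_, ?_, rfl⟩
      rw [mem_ofPred_eq, map_smul, norm_smul, norm_inv, norm_norm, inv_mul_cancel₀ h.ne']
    have h2 := csInf_le hbdd h1
    rw [map_smul_eq_mul, norm_inv, norm_norm, inv_mul_eq_div, le_div_iff₀ h] at h2
    exact h2

/-- `𝔰` contains no nonzero vector fixed by `G`. -/
def NoFixed (D : GroupData G L) (𝔰 : Submodule ℝ L) : Prop :=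
  ∀ Y ∈ 𝔰, (∀ g, D.Ad g Y = Y) → Y = 0

theorem NoFixed.exists_moved (h : D.NoFixed 𝔰) (h𝔰 : 𝔰 ≠ ⊥) :
    ∃ Y ∈ 𝔰, ∃ g, D.Ad g Y ≠ Y := by
  obtain ⟨Z, hZ, hZ0⟩ := Submodule.exists_mem_ne_zero_of_ne_bot h𝔰
  by_contra hcon
  push Not at hcon
  exact hZ0 (h Z hZ (hcon Z hZ))

/-- The span of the vectors `Ad b X - X`, `X ∈ 𝔰`, is `𝔰`. -/
theorem NoFixed.span_eq (h : D.NoFixed 𝔰) (hinv : D.Inv 𝔰) :
    Submodule.span ℝ {Z | ∃ b : G, ∃ X ∈ 𝔰, Z = D.Ad b X - X} = 𝔰 := by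
  refine le_antisymm ?_ ?_
  · rw [Submodule.span_le]
    rintro _ ⟨b, X, hX, rfl⟩
    exact 𝔰.sub_mem (hinv b X hX) hX
  · set V := Submodule.span ℝ {Z | ∃ b : G, ∃ X ∈ 𝔰, Z = D.Ad b X - X} with hV
    intro Y hY
    -- the component of `Y` orthogonal to `V` is fixed
    have hVle : V ≤ 𝔰 := by
      rw [hV, Submodule.span_le]
      rintro _ ⟨b, X, hX, rfl⟩
      exact 𝔰.sub_mem (hinv b X hX) hX
    set Z := Y - V.starProjection Y with hZdef
    have hZ𝔰 : Z ∈ 𝔰 := 𝔰.sub_mem hY (hVle (Submodule.starProjection_apply_mem V Y))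
    have hZV : Z ∈ Vᗮ := Submodule.sub_starProjection_mem_orthogonal Y
    have hfix : ∀ g, D.Ad g Z = Z := by
      intro g
      have h1 : ∀ X ∈ 𝔰, inner ℝ X (D.Ad g Z - Z) = 0 := by
        intro X hX
        have h2 : inner ℝ (D.Ad g⁻¹ X - X) Z = (0 : ℝ) :=
          (Submodule.mem_orthogonal _ _).1 hZV _ (Submodule.subset_span ⟨g⁻¹, X, hX, rfl⟩)
        rw [inner_sub_left, ← (D.Ad g).inner_map_map (D.Ad g⁻¹ X), D.Ad_Ad_inv] at h2
        rw [inner_sub_right]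
        exact h2
      have h3 : D.Ad g Z - Z ∈ 𝔰 := 𝔰.sub_mem (hinv g Z hZ𝔰) hZ𝔰
      have h4 := h1 _ h3
      rw [inner_self_eq_zero] at h4
      exact sub_eq_zero.1 h4
    have hZ0 := h Z hZ𝔰 hfix
    have : Y = V.starProjection Y := by
      have := sub_eq_zero.1 (hZdef ▸ hZ0)
      exact this
    rw [this]
    exact Submodule.starProjection_apply_mem V Y

end GroupData

end Pool.Agent.Work.MP_326c77_gt
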