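import Mathlib

set_option autoImplicit false
set_option linter.style.haveILetI false
set_option linter.unusedSectionVars false

open NormedSpace Filter Topology Set

namespace Pool.Agent.Work.MP_326c77_gt

variable {A : Type*} [NormedRing A] [NormedAlgebra ℝ A] [FiniteDimensional ℝ A]

/-- A closed group of invertible isometric elements of a normed algebra. -/
structure IsIsoGroup (S : Set A) : Prop where
  one_mem : (1 : A) ∈ S
  mul_mem : ∀ {g h : A}, g ∈ S → h ∈ S → g * h ∈ S
  exists_inv : ∀ {g : A}, g ∈ S → ∃ h ∈ S, g * h = 1 ∧ h * g = 1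
  norm_mul : ∀ {g : A}, g ∈ S → ∀ x : A, ‖g * x‖ = ‖x‖
  mul_norm : ∀ {g : A}, g ∈ S → ∀ x : A, ‖x * g‖ = ‖x‖
  closed : IsClosed S

/-- The set of generators of one-parameter subgroups of `S`. -/
def lieSet (S : Set A) : Set A := {X | ∀ t : ℝ, exp (t • X) ∈ S}

section basic

theorem contDiff_exp : ContDiff ℝ ⊤ (exp : A → A) := by
  haveI : CompleteSpace A := FiniteDimensional.complete ℝ A
  rw [contDiff_iff_contDiffAt]
  intro x
  exact (exp_analytic (𝕂 := ℝ) x).contDiffAt

theorem exp_add_smul (X : A) (s t : ℝ) : exp ((s + t) • X) = exp (s • X) * exp (t • X) := by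
  haveI : CompleteSpace A := FiniteDimensional.complete ℝ A
  rw [add_smul]
  letI : NormedAlgebra ℚ A := NormedAlgebra.restrictScalars ℚ ℝ A
  exact exp_add_of_commute ((Commute.refl X).smul_left s |>.smul_right t)

theorem exp_smul_mul_neg (X : A) (t : ℝ) : exp (t • X) * exp (-t • X) = 1 := by
  rw [← exp_add_smul]
  simp

theorem exp_neg_smul_mul (X : A) (t : ℝ) : exp (-t • X) * exp (t • X) = 1 := by
  rw [← exp_add_smul]
  simp

theorem hasDerivAt_exp_smul_zero (X : A) : HasDerivAt (fun t : ℝ => exp (t • X)) X 0 := by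
  haveI : CompleteSpace A := FiniteDimensional.complete ℝ A
  have h := hasDerivAt_exp_smul_const (𝕂 := ℝ) X (0 : ℝ)
  simpa using h

theorem exp_smul_pow (X : A) (t : ℝ) (n : ℕ) : exp (t • X) ^ n = exp ((n * t) • X) := by
  induction n with
  | zero => simp
  | succ n ih =>
    rw [pow_succ, ih, ← exp_add_smul]
    congr 2
    push_cast
    ring

theorem continuous_exp_smul (X : A) : Continuous fun t : ℝ => exp (t • X) :=
  contDiff_exp.continuous.comp (continuous_id.smul continuous_const)

end basic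

section limit

variable {S : Set A}

theorem IsIsoGroup.pow_mem (hS : IsIsoGroup S) {g : A} (hg : g ∈ S) (n : ℕ) : g ^ n ∈ S := by
  induction n with
  | zero => simpa using hS.one_mem
  | succ n ih =>
    rw [pow_succ]
    exact hS.mul_mem ih hg

theorem norm_pow_sub_pow_le (hS : IsIsoGroup S) {g b : A} (hg : g ∈ S) {C : ℝ} (n : ℕ)
    (hb : ∀ l < n, ‖b ^ l‖ ≤ C) : ‖g ^ n - b ^ n‖ ≤ n * (‖g - b‖ * C) := by
  induction n with
  | zero => simp
  | succ n ih =>
    have h1 : g ^ (n + 1) - b ^ (n + 1) = g * (g ^ n - b ^ n) + (g - b) * b ^ n := by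
      rw [pow_succ', pow_succ']
      noncomm_ring
    rw [h1]
    calc ‖g * (g ^ n - b ^ n) + (g - b) * b ^ n‖ ≤ ‖g * (g ^ n - b ^ n)‖ + ‖(g - b) * b ^ n‖ :=
          norm_add_le _ _
      _ ≤ n * (‖g - b‖ * C) + ‖g - b‖ * C := by
          gcongr
          · rw [hS.norm_mul hg]
            exact ih fun l hl => hb l (hl.trans (Nat.lt_succ_self n))
          · exact (norm_mul_le _ _).trans (by gcongr; exact hb n (Nat.lt_succ_self n))
      _ = ((n + 1 : ℕ) : ℝ) * (‖g - b‖ * C) := by
          push_cast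
          ring

/-- **Limit lemma**: limits of rescaled differences of elements of `S` generate one-parameter
subgroups of `S`. -/
theorem mem_lieSet_of_tendsto (hS : IsIsoGroup S) {g : ℕ → A} (hg : ∀ k, g k ∈ S) {r : ℕ → ℝ}
    (hr : Tendsto r atTop atTop) {X : A}
    (h : Tendsto (fun k => r k • (g k - 1)) atTop (𝓝 X)) : X ∈ lieSet S := by
  have main : ∀ t : ℝ, 0 ≤ t → exp (t • X) ∈ S := by
    intro t ht
    set n : ℕ → ℕ := fun k => ⌊t * r k⌋₊ with hn
    have ha : Tendsto (fun k => (n k : ℝ) / r k) atTop (𝓝 t) :=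
      (tendsto_nat_floor_mul_div_atTop ht).comp hr
    have hb : Tendsto (fun k => exp (((n k : ℝ) / r k) • X)) atTop (𝓝 (exp (t • X))) :=
      ((continuous_exp_smul X).tendsto t).comp ha
    -- bound for the powers of the exponential
    obtain ⟨C, hC⟩ : ∃ C : ℝ, ∀ s ∈ Icc (0 : ℝ) t, ‖exp (s • X)‖ ≤ C := by
      obtain ⟨C, hC⟩ := (isCompact_Icc (a := (0 : ℝ)) (b := t)).exists_bound_of_continuousOn
        (continuous_exp_smul X).continuousOn
      exact ⟨C, hC⟩
    have hC0 : 0 ≤ C := (norm_nonneg _).trans (hC 0 ⟨le_refl _, ht⟩)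
    have hc : Tendsto (fun k => r k * ‖g k - exp ((1 / r k) • X)‖) atTop (𝓝 0) := by
      have h1 : Tendsto (fun k => (1 / r k)) atTop (𝓝[≠] (0 : ℝ)) := by
        rw [tendsto_nhdsWithin_iff]
        constructor
        · simpa [Function.comp_def, one_div] using tendsto_inv_atTop_zero.comp hr
        · filter_upwards [hr.eventually_gt_atTop 0] with k hk
          simp [hk.ne']
      have h2 := (hasDerivAt_iff_tendsto_slope_zero.1 (hasDerivAt_exp_smul_zero X)).comp h1
      have h3 : Tendsto (fun k => r k • (g k - exp ((1 / r k) • X))) atTop (𝓝 0) := by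
        have h4 := h.sub h2
        rw [sub_self] at h4
        refine h4.congr fun k => ?_
        simp only [Function.comp_apply, zero_add, zero_smul, exp_zero, one_div, inv_inv]
        rw [← smul_sub]
        congr 1
        abel
      have h5 := h3.norm
      rw [norm_zero] at h5
      refine h5.congr' ?_
      filter_upwards [hr.eventually_gt_atTop 0] with k hk
      rw [norm_smul, Real.norm_of_nonneg hk.le]
    have hd : Tendsto (fun k => g k ^ n k - exp (((n k : ℝ) / r k) • X)) atTop (𝓝 0) := by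
      rw [tendsto_zero_iff_norm_tendsto_zero]
      have hbound : Tendsto (fun k => t * ((r k * ‖g k - exp ((1 / r k) • X)‖) * C)) atTop
          (𝓝 0) := by
        have := (hc.mul_const C).const_mul t
        simpa using this
      refine squeeze_zero' (Eventually.of_forall fun k => norm_nonneg _) ?_ hbound
      filter_upwards [hr.eventually_gt_atTop 0] with k hk
      have hpow : exp (((n k : ℝ) / r k) • X) = exp ((1 / r k) • X) ^ n k := by
        rw [exp_smul_pow]
        congr 2
        field_simp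
      have hnk : (n k : ℝ) ≤ t * r k := Nat.floor_le (by positivity)
      rw [hpow]
      refine (norm_pow_sub_pow_le hS (hg k) (C := C) (n k) ?_).trans ?_
      · intro l hl
        rw [exp_smul_pow]
        refine hC _ ⟨by positivity, ?_⟩
        rw [mul_one_div, div_le_iff₀ hk]
        have : (l : ℝ) ≤ n k := by exact_mod_cast hl.le
        linarith
      · calc (n k : ℝ) * (‖g k - exp ((1 / r k) • X)‖ * C)
            ≤ (t * r k) * (‖g k - exp ((1 / r k) • X)‖ * C) := by gcongr
          _ = t * ((r k * ‖g k - exp ((1 / r k) • X)‖) * C) := by ring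
    have he : Tendsto (fun k => g k ^ n k) atTop (𝓝 (exp (t • X))) := by
      have := hd.add hb
      simpa using this
    exact hS.closed.mem_of_tendsto he (Eventually.of_forall fun k => hS.pow_mem (hg k) _)
  intro t
  rcases le_total 0 t with ht | ht
  · exact main t ht
  · obtain ⟨u, hu, hu1, hu2⟩ := hS.exists_inv (main (-t) (by linarith))
    have : u = exp (t • X) := by
      have h1 := exp_smul_mul_neg X t
      calc u = (exp (t • X) * exp (-t • X)) * u := by rw [h1, one_mul]
        _ = exp (t • X) * (exp (-t • X) * u) := by rw [mul_assoc]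
        _ = exp (t • X) := by rw [hu1, mul_one]
    rwa [← this]

theorem lieSet_zero_mem (hS : IsIsoGroup S) : (0 : A) ∈ lieSet S := by
  intro t
  simpa using hS.one_mem

theorem lieSet_smul_mem {X : A} (hX : X ∈ lieSet S) (c : ℝ) : c • X ∈ lieSet S := by
  intro t
  rw [smul_smul]
  exact hX _

theorem hasDerivAt_exp_mul_exp_zero (X Y : A) :
    HasDerivAt (fun t : ℝ => exp (t • X) * exp (t • Y)) (X + Y) 0 := by
  have h := (hasDerivAt_exp_smul_zero X).mul (hasDerivAt_exp_smul_zero Y)
  simpa [Pi.mul_def] using h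

theorem lieSet_add_mem (hS : IsIsoGroup S) {X Y : A} (hX : X ∈ lieSet S) (hY : Y ∈ lieSet S) :
    X + Y ∈ lieSet S := by
  have hr : Tendsto (fun k : ℕ => ((k : ℝ) + 1)) atTop atTop :=
    tendsto_atTop_add_const_right _ _ tendsto_natCast_atTop_atTop
  refine mem_lieSet_of_tendsto hS
    (g := fun k : ℕ => exp ((1 / ((k : ℝ) + 1)) • X) * exp ((1 / ((k : ℝ) + 1)) • Y))
    (fun k => hS.mul_mem (hX _) (hY _)) hr ?_
  have h1 : Tendsto (fun k : ℕ => (1 / ((k : ℝ) + 1))) atTop (𝓝[≠] (0 : ℝ)) := by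
    rw [tendsto_nhdsWithin_iff]
    constructor
    · simpa [Function.comp_def, one_div] using tendsto_inv_atTop_zero.comp hr
    · refine Eventually.of_forall fun k => ?_
      have : (0 : ℝ) < (k : ℝ) + 1 := by positivity
      simp only [mem_compl_iff, mem_singleton_iff]
      positivity
  have h2 := (hasDerivAt_iff_tendsto_slope_zero.1 (hasDerivAt_exp_mul_exp_zero X Y)).comp h1
  refine h2.congr fun k => ?_
  simp

/-- The Lie algebra of `S`. -/
def lieSub (hS : IsIsoGroup S) : Submodule ℝ A where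
  carrier := lieSet S
  add_mem' := lieSet_add_mem hS
  zero_mem' := lieSet_zero_mem hS
  smul_mem' := fun c _ hX => lieSet_smul_mem hX c

theorem mem_lieSub {hS : IsIsoGroup S} {X : A} : X ∈ lieSub hS ↔ X ∈ lieSet S := Iff.rfl

/-- **Local injectivity of projections to the Lie algebra.** -/
theorem exists_injOn (hS : IsIsoGroup S) (π : A →L[ℝ] A) (hπ : ∀ X ∈ lieSet S, π X = X) :
    ∃ ρ > 0, ∀ g ∈ S, ∀ h ∈ S, ‖g - 1‖ < ρ → ‖h - 1‖ < ρ → π g = π h → g = h := by
  haveI : ProperSpace A := FiniteDimensional.proper ℝ A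
  by_contra hcon
  push Not at hcon
  have hk : ∀ k : ℕ, ∃ g ∈ S, ∃ h ∈ S, ‖g - 1‖ < 1 / ((k : ℝ) + 1) ∧
      ‖h - 1‖ < 1 / ((k : ℝ) + 1) ∧ π g = π h ∧ g ≠ h := by
    intro k
    obtain ⟨g, hg, h, hh, h1, h2, h3, h4⟩ := hcon (1 / ((k : ℝ) + 1)) (by positivity)
    exact ⟨g, hg, h, hh, h1, h2, h3, h4⟩
  choose g hg h hh hg1 hh1 hπeq hne using hk
  have hlim0 : Tendsto (fun k : ℕ => 1 / ((k : ℝ) + 1)) atTop (𝓝 0) :=
    tendsto_one_div_add_atTop_nhds_zero_nat
  have hgl : Tendsto (fun k => g k - 1) atTop (𝓝 0) :=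
    squeeze_zero_norm (fun k => (hg1 k).le) hlim0
  have hhl : Tendsto (fun k => h k - 1) atTop (𝓝 0) :=
    squeeze_zero_norm (fun k => (hh1 k).le) hlim0
  have hpos : ∀ k, 0 < ‖g k - h k‖ := fun k => norm_pos_iff.2 (sub_ne_zero.2 (hne k))
  -- unit vectors
  set u : ℕ → A := fun k => ‖g k - h k‖⁻¹ • (g k - h k) with hu
  have hunit : ∀ k, u k ∈ Metric.sphere (0 : A) 1 := by
    intro k
    rw [mem_sphere_zero_iff_norm, hu]
    simp only
    rw [norm_smul, norm_inv, norm_norm, inv_mul_cancel₀ (hpos k).ne']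
  obtain ⟨X, hX, φ, hφ, hlim⟩ := (isCompact_sphere (0 : A) 1).tendsto_subseq hunit
  have hXnorm : ‖X‖ = 1 := mem_sphere_zero_iff_norm.1 hX
  -- `π X = 0`
  have hπX : π X = 0 := by
    have h1 : Tendsto (fun k => π (u (φ k))) atTop (𝓝 (π X)) := (π.continuous.tendsto X).comp hlim
    have h2 : ∀ k, π (u (φ k)) = 0 := by
      intro k
      simp only [hu, map_smul, map_sub, hπeq, sub_self, smul_zero]
    simp only [h2] at h1
    exact (tendsto_nhds_unique h1 tendsto_const_nhds)
  -- `X` is in the Lie algebra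
  choose i hi hi1 hi2 using fun k => hS.exists_inv (hh k)
  have hr : Tendsto (fun k => ‖g (φ k) - h (φ k)‖⁻¹) atTop atTop := by
    have h1 : Tendsto (fun k => ‖g (φ k) - h (φ k)‖) atTop (𝓝[>] 0) := by
      rw [tendsto_nhdsWithin_iff]
      constructor
      · have h2 : Tendsto (fun k => g k - h k) atTop (𝓝 0) := by
          have := hgl.sub hhl
          simpa using this
        have h3 := h2.norm.comp hφ.tendsto_atTop
        simpa [Function.comp_def] using h3
      · exact Eventually.of_forall fun k => hpos _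
    exact tendsto_inv_nhdsGT_zero.comp h1
  have hmem : X ∈ lieSet S := by
    refine mem_lieSet_of_tendsto hS (g := fun k => i (φ k) * g (φ k))
      (fun k => hS.mul_mem (hi _) (hg _)) hr ?_
    have h1 : ∀ k, ‖g (φ k) - h (φ k)‖⁻¹ • (i (φ k) * g (φ k) - 1) = i (φ k) * u (φ k) := by
      intro k
      simp only [hu]
      rw [mul_smul_comm, mul_sub, hi2]
    simp only [h1]
    have h2 : Tendsto (fun k => i (φ k) * u (φ k) - u (φ k)) atTop (𝓝 0) := by
      have h3 : ∀ k, ‖i (φ k) * u (φ k) - u (φ k)‖ ≤ ‖h (φ k) - 1‖ := by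
        intro k
        rw [← hS.norm_mul (hh (φ k)), mul_sub, ← mul_assoc, hi1, one_mul, ← norm_neg]
        have h4 : -(u (φ k) - h (φ k) * u (φ k)) = (h (φ k) - 1) * u (φ k) := by
          noncomm_ring
        rw [h4]
        calc ‖(h (φ k) - 1) * u (φ k)‖ ≤ ‖h (φ k) - 1‖ * ‖u (φ k)‖ := norm_mul_le _ _
          _ = ‖h (φ k) - 1‖ := by rw [mem_sphere_zero_iff_norm.1 (hunit _), mul_one]
      have h5 : Tendsto (fun k => ‖h (φ k) - 1‖) atTop (𝓝 0) := by
        have := hhl.norm.comp hφ.tendsto_atTop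
        simpa [Function.comp_def] using this
      exact squeeze_zero_norm h3 h5
    have h6 := h2.add hlim
    simpa using h6
  have : X = 0 := by rw [← hπ X hmem, hπX]
  rw [this, norm_zero] at hXnorm
  exact zero_ne_one hXnorm

end limit

end Pool.Agent.Work.MP_326c77_gt
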