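import Pool.Agent.Work.MP_326c77_gt.Rep

set_option autoImplicit false
set_option linter.style.haveILetI false
set_option linter.unusedSectionVars false

open NormedSpace Filter Topology Set MeasureTheory

namespace Pool.Agent.Work.MP_326c77_gt

namespace FRep

variable {G A : Type*} [Group G] [TopologicalSpace G] [NormedRing A] (R : FRep G A)
  [CompactSpace G] [NormedAlgebra ℝ A] [FiniteDimensional ℝ A] [InnerProductSpaceable A]
  [IsTopologicalGroup G]

/-- There is a `C¹` path in `G` from `x` to `y` of `p`-length at most `l`, constant outside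
`[0, 1]`. -/
def PathTo (p : Seminorm ℝ R.L) (x y : G) (l : ℝ) : Prop :=
  ∃ (γ : ℝ → G) (u : ℝ → R.L), Continuous u ∧ Continuous γ ∧
    (∀ t, HasDerivAt (fun t => R.ρ (γ t)) (R.ρ (γ t) * u t) t) ∧
    (∀ t ≤ 0, γ t = x) ∧ (∀ t, 1 ≤ t → γ t = y) ∧ (∀ t ≤ 0, u t = 0) ∧ (∀ t, 1 ≤ t → u t = 0) ∧
    ∫ t in (0 : ℝ)..1, p (u t) ≤ l

variable {R}

theorem continuous_seminorm (p : Seminorm ℝ R.L) : Continuous p :=
  p.convexOn.locallyLipschitz.continuous

theorem PathTo.mono {p : Seminorm ℝ R.L} {x y : G} {l l' : ℝ} (h : R.PathTo p x y l)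
    (hl : l ≤ l') : R.PathTo p x y l' := by
  obtain ⟨γ, u, h1, h2, h3, h4, h5, h6, h7, h8⟩ := h
  exact ⟨γ, u, h1, h2, h3, h4, h5, h6, h7, h8.trans hl⟩

theorem pathTo_refl (p : Seminorm ℝ R.L) (x : G) : R.PathTo p x x 0 := by
  refine ⟨fun _ => x, fun _ => 0, continuous_const, continuous_const, fun t => ?_, fun _ _ => rfl,
    fun _ _ => rfl, fun _ _ => rfl, fun _ _ => rfl, by simp⟩
  simpa using hasDerivAt_const t (R.ρ x)

theorem continuous_E_smul (X : R.L) : Continuous fun t : ℝ => R.E (t • X) := by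
  have h1 : IsClosedEmbedding R.ρ := R.cont.isClosedEmbedding R.inj
  rw [h1.isEmbedding.continuous_iff]
  have h2 : (R.ρ : G → A) ∘ (fun t : ℝ => R.E (t • X)) = fun t : ℝ => exp (t • (X : A)) := by
    funext t
    exact R.ρ_E_smul X t
  rw [h2]
  exact continuous_exp_smul _

theorem pathTo_E (p : Seminorm ℝ R.L) (x : G) (X : R.L) : R.PathTo p x (x * R.E X) (p X) := by
  haveI : CompleteSpace A := FiniteDimensional.complete ℝ A
  set φ := Real.smoothTransition with hφ
  have hsm : ContDiff ℝ 1 φ := Real.smoothTransition.contDiff (n := 1)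
  have hd : ∀ t, HasDerivAt φ (deriv φ t) t := fun t =>
    (hsm.differentiable (by norm_num)).differentiableAt.hasDerivAt
  have hdc : Continuous (deriv φ) := hsm.continuous_deriv (by norm_num)
  have hdnn : ∀ t, 0 ≤ deriv φ t := fun t => Real.smoothTransition.monotone.deriv_nonneg
  have hd0 : ∀ t ≤ 0, deriv φ t = 0 := by
    have h1 : ∀ t < 0, deriv φ t = 0 := by
      intro t ht
      have h2 : φ =ᶠ[𝓝 t] fun _ => 0 := by
        filter_upwards [gt_mem_nhds ht] with s hs
        exact Real.smoothTransition.zero_of_nonpos hs.le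
      rw [h2.deriv_eq]
      simp
    intro t ht
    rcases ht.lt_or_eq with h | h
    · exact h1 t h
    · rw [h]
      have h3 : closure (Iio (0 : ℝ)) ⊆ {t | deriv φ t = 0} :=
        closure_minimal (fun t ht => h1 t ht) (isClosed_eq hdc continuous_const)
      rw [closure_Iio] at h3
      exact h3 self_mem_Iic
  have hd1 : ∀ t, 1 ≤ t → deriv φ t = 0 := by
    have h1 : ∀ t, 1 < t → deriv φ t = 0 := by
      intro t ht
      have h2 : φ =ᶠ[𝓝 t] fun _ => 1 := by
        filter_upwards [lt_mem_nhds ht] with s hs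
        exact Real.smoothTransition.one_of_one_le (le_of_lt hs)
      rw [h2.deriv_eq]
      simp
    intro t ht
    rcases ht.lt_or_eq with h | h
    · exact h1 t h
    · rw [← h]
      have h3 : closure (Ioi (1 : ℝ)) ⊆ {t | deriv φ t = 0} :=
        closure_minimal (fun t ht => h1 t ht) (isClosed_eq hdc continuous_const)
      rw [closure_Ioi] at h3
      exact h3 self_mem_Ici
  refine ⟨fun t => x * R.E (φ t • X), fun t => deriv φ t • X, hdc.smul continuous_const,
    continuous_const.mul ((continuous_E_smul X).comp hsm.continuous), fun t => ?_, fun t ht => ?_,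
    fun t ht => ?_, fun t ht => ?_, fun t ht => ?_, ?_⟩
  · have h1 : HasDerivAt (fun s : ℝ => exp (s • (X : A))) (exp (φ t • (X : A)) * X) (φ t) :=
      hasDerivAt_exp_smul_const (𝕂 := ℝ) (X : A) (φ t)
    have h2 := (h1.scomp t (hd t)).const_mul (R.ρ x)
    have h3 : (fun t : ℝ => R.ρ (x * R.E (φ t • X)))
        = fun t : ℝ => R.ρ x * ((fun s : ℝ => exp (s • (X : A))) ∘ φ) t := by
      funext s
      rw [map_mul, ρ_E_smul]
      rfl
    have h4 : R.ρ (x * R.E (φ t • X)) * ((deriv φ t • X : R.L) : A)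
        = R.ρ x * (deriv φ t • (exp (φ t • (X : A)) * X)) := by
      rw [map_mul, ρ_E_smul, Submodule.coe_smul, mul_smul_comm, mul_smul_comm, mul_assoc]
    change HasDerivAt (fun t : ℝ => R.ρ (x * R.E (φ t • X)))
      (R.ρ (x * R.E (φ t • X)) * ((deriv φ t • X : R.L) : A)) t
    rw [h3, h4]
    exact h2
  · have h1 : φ t = 0 := Real.smoothTransition.zero_of_nonpos ht
    have h2 : R.E ((0 : ℝ) • X) = 1 := by
      rw [zero_smul]
      exact R.data.E_zero
    simp only [h1, h2, mul_one]
  · have h1 : φ t = 1 := Real.smoothTransition.one_of_one_le ht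
    simp only [h1, one_smul]
  · simp only [hd0 t ht, zero_smul]
  · simp only [hd1 t ht, zero_smul]
  · have h1 : ∀ t, p (deriv φ t • X) = deriv φ t * p X := by
      intro t
      rw [map_smul_eq_mul, Real.norm_of_nonneg (hdnn t)]
    simp only [h1]
    rw [intervalIntegral.integral_mul_const, intervalIntegral.integral_deriv_eq_sub
      (fun t _ => (hd t).differentiableAt) (hdc.intervalIntegrable _ _)]
    have h2 : φ 1 = 1 := Real.smoothTransition.one
    have h3 : φ 0 = 0 := Real.smoothTransition.zero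
    rw [h2, h3]
    simp

theorem PathTo.trans {p : Seminorm ℝ R.L} {x y z : G} {l l' : ℝ} (h : R.PathTo p x y l)
    (h' : R.PathTo p y z l') : R.PathTo p x z (l + l') := by
  obtain ⟨γ, u, hu, hγ, hd, h0, h1, hu0, hu1, hl⟩ := h
  obtain ⟨γ', u', hu', hγ', hd', h0', h1', hu0', hu1', hl'⟩ := h'
  refine ⟨fun t => γ (2 * t) * y⁻¹ * γ' (2 * t - 1),
    fun t => (2 : ℝ) • u (2 * t) + (2 : ℝ) • u' (2 * t - 1), ?_, ?_, fun t => ?_, fun t ht => ?_,
    fun t ht => ?_, fun t ht => ?_, fun t ht => ?_, ?_⟩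
  · fun_prop
  · fun_prop
  · have e1 : HasDerivAt (fun t : ℝ => 2 * t) 2 t := by
      simpa using (hasDerivAt_id t).const_mul (2 : ℝ)
    have e2 : HasDerivAt (fun t : ℝ => 2 * t - 1) 2 t := e1.sub_const 1
    have e3 : HasDerivAt (fun t : ℝ => R.ρ (γ (2 * t))) ((2 : ℝ) • (R.ρ (γ (2 * t)) * u (2 * t)))
        t := (hd (2 * t)).scomp t e1
    have e4 : HasDerivAt (fun t : ℝ => R.ρ (γ' (2 * t - 1)))
        ((2 : ℝ) • (R.ρ (γ' (2 * t - 1)) * u' (2 * t - 1))) t :=
      HasDerivAt.scomp (h := fun t : ℝ => 2 * t - 1) t (hd' (2 * t - 1)) e2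
    have e5 := (e3.mul_const (R.ρ y⁻¹)).mul e4
    have e6 : (fun t : ℝ => R.ρ (γ (2 * t) * y⁻¹ * γ' (2 * t - 1)))
        = (fun t : ℝ => R.ρ (γ (2 * t)) * R.ρ y⁻¹) * (fun t : ℝ => R.ρ (γ' (2 * t - 1))) := by
      funext s
      rw [Pi.mul_apply, map_mul, map_mul]
    rw [e6]
    convert e5 using 1
    rw [map_mul, map_mul, Submodule.coe_add, Submodule.coe_smul, Submodule.coe_smul]
    rcases le_total t (1 / 2) with ht | ht
    · have e7 : γ' (2 * t - 1) = y := h0' _ (by linarith)
      have e8 : u' (2 * t - 1) = 0 := hu0' _ (by linarith)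
      rw [e7, e8]
      simp only [ZeroMemClass.coe_zero, smul_zero, add_zero, mul_zero, mul_smul_comm,
        smul_mul_assoc]
      rw [mul_assoc (R.ρ (γ (2 * t))) (R.ρ y⁻¹), R.ρ_inv_mul, mul_one,
        mul_assoc (R.ρ (γ (2 * t)) * (u (2 * t) : A)), R.ρ_inv_mul, mul_one]
    · have e8 : u (2 * t) = 0 := hu1 _ (by linarith)
      rw [e8]
      simp only [ZeroMemClass.coe_zero, smul_zero, zero_add, mul_zero, zero_mul, mul_smul_comm,
        mul_assoc]
  · have e1 : γ (2 * t) = x := h0 _ (by linarith)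
    have e2 : γ' (2 * t - 1) = y := h0' _ (by linarith)
    simp only [e1, e2, inv_mul_cancel_right]
  · have e1 : γ (2 * t) = y := h1 _ (by linarith)
    have e2 : γ' (2 * t - 1) = z := h1' _ (by linarith)
    simp only [e1, e2, mul_inv_cancel, one_mul]
  · simp only [hu0 (2 * t) (by linarith), hu0' (2 * t - 1) (by linarith), smul_zero, add_zero]
  · simp only [hu1 (2 * t) (by linarith), hu1' (2 * t - 1) (by linarith), smul_zero, add_zero]
  · have hp := continuous_seminorm p
    have c1 : Continuous fun t => p (u t) := hp.comp hu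
    have c2 : Continuous fun t => p (u' t) := hp.comp hu'
    have c3 : Continuous fun t : ℝ => 2 * p (u (2 * t)) :=
      continuous_const.mul (c1.comp (continuous_const.mul continuous_id))
    have c4 : Continuous fun t : ℝ => 2 * p (u' (2 * t - 1)) :=
      continuous_const.mul (c2.comp ((continuous_const.mul continuous_id).sub continuous_const))
    have c5 : Continuous fun t : ℝ => p ((2 : ℝ) • u (2 * t) + (2 : ℝ) • u' (2 * t - 1)) :=
      hp.comp (by fun_prop)
    have i1 : ∫ t in (0 : ℝ)..1, p ((2 : ℝ) • u (2 * t) + (2 : ℝ) • u' (2 * t - 1))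
        ≤ ∫ t in (0 : ℝ)..1, (2 * p (u (2 * t)) + 2 * p (u' (2 * t - 1))) := by
      refine intervalIntegral.integral_mono_on zero_le_one (c5.intervalIntegrable _ _)
        ((c3.add c4).intervalIntegrable _ _) fun t _ => ?_
      refine (map_add_le_add p _ _).trans (le_of_eq ?_)
      rw [map_smul_eq_mul, map_smul_eq_mul]
      norm_num
    rw [intervalIntegral.integral_add (c3.intervalIntegrable _ _) (c4.intervalIntegrable _ _),
      intervalIntegral.integral_const_mul, intervalIntegral.integral_const_mul,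
      intervalIntegral.integral_comp_mul_left (fun s => p (u s)) (by norm_num : (2 : ℝ) ≠ 0),
      intervalIntegral.integral_comp_mul_sub (fun s => p (u' s)) (by norm_num : (2 : ℝ) ≠ 0)] at i1
    have i2 : ∫ t in (2 * (0 : ℝ))..(2 * 1), p (u t) = ∫ t in (0 : ℝ)..1, p (u t) := by
      rw [mul_zero, mul_one, ← intervalIntegral.integral_add_adjacent_intervals
        (c1.intervalIntegrable 0 1) (c1.intervalIntegrable 1 2)]
      have : ∫ t in (1 : ℝ)..2, p (u t) = 0 := by
        rw [intervalIntegral.integral_congr (g := fun _ => (0 : ℝ))]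
        · simp
        · intro t ht
          rw [uIcc_of_le (by norm_num)] at ht
          simp only [hu1 t ht.1, map_zero]
      rw [this, add_zero]
    have i3 : ∫ t in (2 * (0 : ℝ) - 1)..(2 * 1 - 1), p (u' t) = ∫ t in (0 : ℝ)..1, p (u' t) := by
      have e1 : (2 * (0 : ℝ) - 1) = -1 := by norm_num
      have e2 : (2 * (1 : ℝ) - 1) = 1 := by norm_num
      rw [e1, e2, ← intervalIntegral.integral_add_adjacent_intervals
        (c2.intervalIntegrable (-1) 0) (c2.intervalIntegrable 0 1)]
      have : ∫ t in (-1 : ℝ)..0, p (u' t) = 0 := by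
        rw [intervalIntegral.integral_congr (g := fun _ => (0 : ℝ))]
        · simp
        · intro t ht
          rw [uIcc_of_le (by norm_num)] at ht
          simp only [hu0' t ht.2, map_zero]
      rw [this, zero_add]
    rw [i2, i3] at i1
    simp only [smul_eq_mul] at i1
    linarith

theorem PathTo.of_reach {p : Seminorm ℝ R.L} {t : ℝ} {y : G} (h : R.data.Reach p t y) (x : G) :
    R.PathTo p x (x * y) t := by
  obtain ⟨l, rfl, hl⟩ := h
  refine PathTo.mono ?_ hl
  clear hl
  induction l generalizing x with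
  | nil => simpa using pathTo_refl p x
  | cons X l ih =>
    rw [List.map_cons, List.prod_cons, List.map_cons, List.sum_cons, ← mul_assoc]
    exact (pathTo_E p x X).trans (ih _)

end FRep

end Pool.Agent.Work.MP_326c77_gt
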