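import Pool.Agent.Work.MP_326c77_gt.DetTrick
import Pool.Agent.Work.MP_326c77_gt.Approx
import Pool.Agent.Work.MP_326c77_gt.Path

set_option autoImplicit false
set_option linter.style.haveILetI false
set_option linter.unusedSectionVars false

open NormedSpace Filter Topology Set MeasureTheory
open scoped Matrix Matrix.Norms.Frobenius ENNReal NNReal

namespace Pool.Agent.Work.MP_326c77_gt

variable {n : Type*} [Fintype n] [DecidableEq n]

/-- **Main estimate** for a compact connected group with a faithful unitary representation. -/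
theorem FRep.main {G : Type*} [Group G] [TopologicalSpace G] [IsTopologicalGroup G]
    [CompactSpace G] [ConnectedSpace G] (R : FRep G (Matrix n n ℂ))
    (hU : ∀ g, (R.ρ g)ᴴ * R.ρ g = 1) :
    ∃ K : ℝ, 0 < K ∧ ∀ (m : ℕ) (e : Module.Basis (Fin m) ℝ R.L) (p : Seminorm ℝ R.L) (c : ℝ),
      0 < c → (∀ i, p (e i) ≤ 1) →
      (∀ d (l : ℝ) (f : R.V d), 0 < l → f ≠ 0 → FRep.Lap R e d f = l • f → c ≤ l) →
      ∀ x y : G, ∀ ε > 0, R.PathTo p x y (Real.sqrt (K * m / c) + ε) := by
  haveI : T2Space G := (R.cont.isClosedEmbedding R.inj).isEmbedding.t2Space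
  letI : MeasurableSpace G := borel G
  haveI : BorelSpace G := ⟨rfl⟩
  set μ : Measure G := Measure.haarMeasure (⊤ : TopologicalSpace.PositiveCompacts G) with hμ
  haveI : IsProbabilityMeasure μ := ⟨by
    have := Measure.haarMeasure_self (K₀ := (⊤ : TopologicalSpace.PositiveCompacts G))
    simpa using this⟩
  obtain ⟨c₀, hc₀, hgood⟩ := R.good_bot (μ := μ) (R.noFixed_N₀ hU)
  refine ⟨1 / c₀, by positivity, fun m e p c hc hp heig x y ε hε => ?_⟩
  have hPB := FRep.PB_of_eigen (R := R) (μ := μ) e hc heig hp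
  have h1 := hgood p _ hPB (x⁻¹ * y)
  have h2 : R.data.ell p ⊥ (x⁻¹ * y) ≤ Real.sqrt (1 / c₀ * m / c) := by
    apply Real.le_sqrt_of_sq_le
    rw [one_div, inv_mul_eq_div, div_right_comm, le_div_iff₀ hc₀]
    linarith
  have h3 : R.data.ReachN p ⊥ (Real.sqrt (1 / c₀ * m / c) + ε) (x⁻¹ * y) := by
    apply GroupData.reachN_of_ell_lt
    linarith
  obtain ⟨z, hz, hzx⟩ := h3
  rw [Subgroup.mem_bot, inv_mul_eq_one] at hzx
  rw [hzx] at hz
  have h4 := FRep.PathTo.of_reach hz x
  rwa [mul_inv_cancel_left] at h4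

/-- Passage to extended nonnegative real numbers. -/
theorem mul_sq_le_of_forall {lam d : ℝ≥0∞} {K : ℝ} (hK : 0 ≤ K)
    (h : ∀ c : ℝ, 0 < c → ENNReal.ofReal c ≤ lam → d ≤ ENNReal.ofReal (Real.sqrt (K / c))) :
    lam * d ^ 2 ≤ ENNReal.ofReal K := by
  have key : ∀ c : ℝ, 0 < c → ENNReal.ofReal c ≤ lam → d ^ 2 ≤ ENNReal.ofReal (K / c) := by
    intro c hc hcl
    have h1 := h c hc hcl
    calc d ^ 2 ≤ (ENNReal.ofReal (Real.sqrt (K / c))) ^ 2 := by gcongr
      _ = ENNReal.ofReal (K / c) := by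
        rw [← ENNReal.ofReal_pow (Real.sqrt_nonneg _), Real.sq_sqrt (by positivity)]
  rcases eq_or_ne lam 0 with h0 | h0
  · rw [h0, zero_mul]
    exact zero_le
  rcases eq_or_ne lam ⊤ with ht | ht
  · have hd : d ^ 2 = 0 := by
      refine le_antisymm ?_ zero_le
      have hlim : Tendsto (fun k : ℕ => ENNReal.ofReal (K / ((k : ℝ) + 1))) atTop
          (𝓝 (ENNReal.ofReal 0)) := by
        refine ENNReal.tendsto_ofReal ?_
        have h1 := tendsto_one_div_add_atTop_nhds_zero_nat (𝕜 := ℝ)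
        have h2 := h1.const_mul K
        rw [mul_zero] at h2
        refine h2.congr fun k => ?_
        rw [mul_one_div]
      rw [ENNReal.ofReal_zero] at hlim
      refine ge_of_tendsto' hlim fun k => ?_
      refine key _ (by positivity) ?_
      rw [ht]
      exact le_top
    rw [hd, mul_zero]
    exact zero_le
  · have hpos : 0 < lam.toReal := ENNReal.toReal_pos h0 ht
    have h1 := key lam.toReal hpos (by rw [ENNReal.ofReal_toReal ht])
    calc lam * d ^ 2 ≤ lam * ENNReal.ofReal (K / lam.toReal) := by gcongr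
      _ = ENNReal.ofReal lam.toReal * ENNReal.ofReal (K / lam.toReal) := by
        rw [ENNReal.ofReal_toReal ht]
      _ = ENNReal.ofReal K := by
        rw [← ENNReal.ofReal_mul hpos.le, mul_div_cancel₀ _ hpos.ne']

end Pool.Agent.Work.MP_326c77_gt
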