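import Pool.Agent.Work.MP_326c77_gt.Main
import Pool.Agent.Work.MP_326c77_gt.MatrixDefs
import Pool.Agent.Work.MP_326c77_gt.CoreNorm

set_option autoImplicit false
set_option linter.style.haveILetI false
set_option linter.unusedSectionVars false

open NormedSpace Filter Topology Set MeasureTheory
open scoped Matrix Matrix.Norms.Frobenius ENNReal NNReal ContDiff

namespace Pool.Agent.Work.MP_326c77_gt

variable {N : ℕ} (G : Subgroup (UN N))

/-- The tautological representation. -/
noncomputable def matRep : FRep G (Mat N) where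
  ρ := (Submonoid.subtype (Matrix.unitaryGroup (Fin N) ℂ)).comp G.subtype
  cont := continuous_subtype_val.comp continuous_subtype_val
  inj := Subtype.val_injective.comp Subtype.val_injective
  norm_mul g x := norm_unitary_mul (Matrix.mem_unitaryGroup_iff'.1 g.1.2) x
  mul_norm g x := norm_mul_unitary (Matrix.mem_unitaryGroup_iff.1 g.1.2) x

theorem matRep_ρ (g : G) : (matRep G).ρ g = ((g : UN N) : Mat N) := rfl

theorem compactSpace_of_isClosed (hG : IsClosed (G : Set (UN N))) : CompactSpace G := by
  have h1 : IsClosed {a : Mat N | ∃ g ∈ G, (g : Mat N) = a} := (isIsoGroup_unitary G hG).closed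
  haveI : ProperSpace (Mat N) := FiniteDimensional.proper ℝ (Mat N)
  have h2 : IsCompact {a : Mat N | ∃ g ∈ G, (g : Mat N) = a} := by
    refine (isCompact_closedBall (0 : Mat N) ‖(1 : Mat N)‖).of_isClosed_subset h1 ?_
    rintro _ ⟨g, hg, rfl⟩
    rw [mem_closedBall_zero_iff]
    have := (isIsoGroup_unitary G hG).norm_mul ⟨g, hg, rfl⟩ 1
    rw [mul_one] at this
    exact this.le
  have h3 : IsEmbedding (fun g : G => ((g : UN N) : Mat N)) :=
    IsEmbedding.subtypeVal.comp IsEmbedding.subtypeVal
  rw [← isCompact_univ_iff, h3.isCompact_iff, image_univ]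
  have h4 : range (fun g : G => ((g : UN N) : Mat N)) = {a : Mat N | ∃ g ∈ G, (g : Mat N) = a} := by
    ext a
    constructor
    · rintro ⟨g, rfl⟩
      exact ⟨g, g.2, rfl⟩
    · rintro ⟨g, hg, rfl⟩
      exact ⟨⟨g, hg⟩, rfl⟩
  rw [h4]
  exact h2

/-- Elements of `V d` extend to smooth functions on the space of matrices. -/
theorem FRep.exists_smooth_ext {G A : Type*} [Group G] [TopologicalSpace G] [NormedRing A]
    {R : FRep G A} [CompactSpace G] [NormedAlgebra ℝ A] [FiniteDimensional ℝ A]
    [InnerProductSpaceable A] [IsTopologicalGroup G] {d : ℕ} {f : C(G, ℝ)} (hf : f ∈ R.V d) :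
    ∃ F : A → ℝ, ContDiff ℝ ∞ F ∧ ∀ x, f x = F (R.ρ x) := by
  let 𝒮 : Submodule ℝ C(G, ℝ) :=
    { carrier := {f | ∃ F : A → ℝ, ContDiff ℝ ∞ F ∧ ∀ x, f x = F (R.ρ x)}
      add_mem' := by
        rintro f g ⟨F, hF, hfF⟩ ⟨F', hF', hfF'⟩
        refine ⟨fun a => F a + F' a, hF.add hF', fun x => ?_⟩
        simp [hfF, hfF']
      zero_mem' := ⟨fun _ => 0, contDiff_const, fun x => rfl⟩
      smul_mem' := by
        rintro c f ⟨F, hF, hfF⟩
        refine ⟨fun a => c * F a, contDiff_const.mul hF, fun x => ?_⟩
        simp [hfF] }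
  have h1 : R.V₁ ≤ 𝒮 := by
    rintro _ ⟨z, rfl⟩
    exact ⟨fun a => z.1 a + z.2, z.1.contDiff.add contDiff_const, fun x => rfl⟩
  have h2 : ∀ d, R.V d ≤ 𝒮 := by
    intro d
    induction d with
    | zero =>
      unfold FRep.V
      rw [pow_zero, Submodule.one_le]
      exact h1 R.one_mem_V₁
    | succ d ih =>
      unfold FRep.V at ih ⊢
      rw [pow_succ, Submodule.mul_le]
      intro f hf g hg
      obtain ⟨F, hF, hfF⟩ := ih hf
      obtain ⟨F', hF', hfF'⟩ := h1 hg
      refine ⟨fun a => F a * F' a, hF.mul hF', fun x => ?_⟩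
      simp [hfF, hfF']
  exact h2 d hf

/-- **The EGS conjecture** for closed connected subgroups of `U(N)`. -/
theorem egs_matrix (hG : IsClosed (G : Set (UN N))) (hconn : ConnectedSpace G) :
    ∃ C : ℝ≥0, ∀ g : InnerProductSpace.Core ℝ (lieAlgebra G hG),
      lambda1 g * diameter g ^ 2 ≤ C := by
  haveI := compactSpace_of_isClosed G hG
  set R := matRep G with hR
  have hL : R.L = lieAlgebra G hG := by
    ext X
    constructor
    · intro h t
      obtain ⟨a, _, ha⟩ := h t
      exact ⟨a, a.2, ha⟩
    · intro h t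
      obtain ⟨a, ha, hae⟩ := h t
      exact ⟨⟨a, ha⟩, trivial, hae⟩
  let φ : R.L ≃ₗ[ℝ] lieAlgebra G hG := LinearEquiv.ofEq _ _ hL
  have hφ : ∀ X, ((φ X : lieAlgebra G hG) : Mat N) = X := fun X => rfl
  obtain ⟨K, hK, hmain⟩ := R.main (fun a => Matrix.mem_unitaryGroup_iff'.1 a.1.2)
  set m := Module.finrank ℝ (lieAlgebra G hG) with hm
  refine ⟨Real.toNNReal (K * m), fun g => ?_⟩
  change _ ≤ ENNReal.ofReal (K * m)
  obtain ⟨e, he⟩ := exists_orthonormal_basis g
  set p : Seminorm ℝ R.L := (coreSeminorm g).comp φ.toLinearMap with hp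
  have hpapp : ∀ X, p X = Real.sqrt (g.inner (φ X) (φ X)) := fun X => coreSeminorm_apply g (φ X)
  refine mul_sq_le_of_forall (by positivity) fun c hc hcl => ?_
  -- the distance bound
  have hdist : ∀ x y : G, riemannianDist g x y ≤ ENNReal.ofReal (Real.sqrt (K * m / c)) := by
    intro x y
    have key : ∀ ε > 0, riemannianDist g x y ≤ ENNReal.ofReal (Real.sqrt (K * m / c) + ε) := by
      intro ε hε
      obtain ⟨γ, u, hu, _, hγ, h0, h1, _, _, hl⟩ := hmain m (e.map φ.symm) p c hc
        (by
          intro i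
          rw [hpapp]
          simp [he])
        (by
          intro d l f hl hf hLf
          have h1 : ENNReal.ofReal c ≤ ENNReal.ofReal l := by
            refine hcl.trans ?_
            unfold lambda1
            refine iInf_le_of_le l (iInf_le_of_le hl (iInf_le_of_le ?_ le_rfl))
            obtain ⟨F, hF, hfF⟩ := FRep.exists_smooth_ext f.2
            refine ⟨F, m, e, hF, ?_, he, ?_⟩
            · by_contra hcon
              push Not at hcon
              apply hf
              ext x
              rw [hfF]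
              exact hcon x x.2
            · intro x hx
              have h2 := congrArg (fun f : R.V d => (f : C(G, ℝ)) ⟨x, hx⟩) hLf
              beta_reduce at h2
              rw [FRep.coe_Lap, ContinuousMap.neg_apply, ContinuousMap.sum_apply] at h2
              have h3 : ((l • f : R.V d) : C(G, ℝ)) ⟨x, hx⟩ = l * F x := by
                change l * (f : C(G, ℝ)) ⟨x, hx⟩ = l * F x
                rw [hfF]
                rfl
              rw [h3] at h2
              rw [← h2]
              congr 1
              refine Finset.sum_congr rfl fun i _ => ?_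
              rw [← FRep.deriv2_apply f.2]
              congr 1
              funext t
              rw [hfF, map_mul, R.ρ_E_smul]
              rfl
          exact (ENNReal.ofReal_le_ofReal_iff hl.le).1 h1) x y ε hε
      unfold riemannianDist
      refine iInf_le_of_le (fun t => R.ρ (γ t)) (iInf_le_of_le (fun t => φ (u t))
        (iInf_le_of_le ?_ ?_))
      · refine ⟨fun t _ => ⟨γ t, (γ t).2, rfl⟩, ?_, fun t _ => (hγ t).hasDerivWithinAt, ?_, ?_⟩
        · exact ((LinearMap.continuous_of_finiteDimensional φ.toLinearMap).comp hu).continuousOn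
        · rw [h0 0 le_rfl]
          rfl
        · rw [h1 1 le_rfl]
          rfl
      · apply ENNReal.ofReal_le_ofReal
        simp only [hpapp] at hl
        exact hl
    refine ENNReal.le_of_forall_pos_le_add fun ε hε _ => ?_
    have h1 := key ε (by exact_mod_cast hε)
    rwa [ENNReal.ofReal_add (Real.sqrt_nonneg _) (NNReal.coe_nonneg ε),
      ENNReal.ofReal_coe_nnreal] at h1
  unfold diameter
  exact iSup₂_le fun x hx => iSup₂_le fun y hy => hdist ⟨x, hx⟩ ⟨y, hy⟩

end Pool.Agent.Work.MP_326c77_gt
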