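import Pool.Agent.Work.MP_326c77_gt.MatrixMain

set_option autoImplicit false

open Pool.Agent.Work.MP_326c77_gt
open scoped ENNReal NNReal

namespace Pool.Agent.Results.MP_326c77_gt.EGSConjecture

/-- **The EGS conjecture** (Eldredge, Gordina, Saloff-Coste): for a compact connected Lie group
`G`, realised as a closed connected subgroup of a unitary group `U(N)`, the quantity
`λ₁(G, g) diam(G, g)²` is bounded uniformly over all left-invariant Riemannian metrics `g`. -/
theorem result (N : ℕ) (G : Subgroup (UN N)) (hG : IsClosed (G : Set (UN N)))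
    (hconn : ConnectedSpace G) :
    ∃ C : ℝ≥0, ∀ g : InnerProductSpace.Core ℝ (lieAlgebra G hG),
      lambda1 g * diameter g ^ 2 ≤ C :=
  egs_matrix G hG hconn

end Pool.Agent.Results.MP_326c77_gt.EGSConjecture
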