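import Pool.Agent.Work.MP_326c77_gt.Length

set_option autoImplicit false
set_option linter.style.haveILetI false
set_option linter.unusedSectionVars false

open Filter Topology Set MeasureTheory

namespace Pool.Agent.Work.MP_326c77_gt

namespace GroupData

variable {G L : Type*} [Group G] [TopologicalSpace G] [NormedAddCommGroup L]
  [InnerProductSpace ℝ L] {D : GroupData G L} {p : Seminorm ℝ L} {N : Subgroup G}
  [FiniteDimensional ℝ L] {𝔰 : Submodule ℝ L}

theorem E_mem_fixer (h : D.Inv 𝔰) {Z : L} (hZ : Z ∈ 𝔰ᗮ) : D.E Z ∈ D.fixer 𝔰 := fun Y hY =>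
  (D.ad_orth 𝔰 h Y hY Z hZ).1

theorem E_eq_proj_mul (h : D.Inv 𝔰) (X : L) :
    D.E X = D.E (𝔰.starProjection X) * D.E (X - 𝔰.starProjection X) := by
  have h1 := (D.ad_orth 𝔰 h _ (Submodule.starProjection_apply_mem 𝔰 X) _
    (Submodule.sub_starProjection_mem_orthogonal X)).2
  rw [← h1]
  congr 1
  abel

/-- Modulo the fixer of `𝔰`, the exponential only depends on the component in `𝔰`. -/
theorem E_proj_inv_mul_mem (h : D.Inv 𝔰) (X : L) :
    (D.E (𝔰.starProjection X))⁻¹ * D.E X ∈ D.fixer 𝔰 := by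
  rw [E_eq_proj_mul h X, inv_mul_cancel_left]
  exact E_mem_fixer h (Submodule.sub_starProjection_mem_orthogonal X)

theorem Ad_E_eq (h : D.Inv 𝔰) (X : L) {Y : L} (hY : Y ∈ 𝔰) :
    D.Ad (D.E X) Y = D.Ad (D.E (𝔰.starProjection X)) Y :=
  (D.inv_mul_mem_fixer.1 (E_proj_inv_mul_mem h X)) Y hY

theorem norm_Ad_E_sub_le (h : D.Inv 𝔰) (X : L) {Y : L} (hY : Y ∈ 𝔰) :
    ‖D.Ad (D.E X) Y - Y‖ ≤ 2 * ‖𝔰.starProjection X‖ * ‖Y‖ := by
  rw [Ad_E_eq h X hY]
  exact D.lip _ _

theorem norm_Ad_mul_sub_le (x y : G) (Y : L) :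
    ‖D.Ad (x * y) Y - Y‖ ≤ ‖D.Ad x Y - Y‖ + ‖D.Ad y Y - Y‖ := by
  have h1 : D.Ad (x * y) Y - Y = D.Ad x (D.Ad y Y - Y) + (D.Ad x Y - Y) := by
    rw [Ad_mul, map_sub]
    abel
  rw [h1]
  refine (norm_add_le _ _).trans ?_
  rw [norm_Ad, add_comm]

/-- Lipschitz estimate for the adjoint action. -/
theorem Reach.norm_Ad_sub_le (h : D.Inv 𝔰) {m : ℝ} (hm0 : 0 ≤ m)
    (hm : ∀ X, m * ‖𝔰.starProjection X‖ ≤ p X) {t : ℝ} {x : G} (hx : D.Reach p t x) {Y : L}
    (hY : Y ∈ 𝔰) : m * ‖D.Ad x Y - Y‖ ≤ 2 * t * ‖Y‖ := by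
  obtain ⟨l, rfl, hl⟩ := hx
  refine le_trans ?_ (mul_le_mul_of_nonneg_right (mul_le_mul_of_nonneg_left hl zero_le_two)
    (norm_nonneg Y))
  clear hl
  induction l with
  | nil => simp [D.Ad_one]
  | cons X l ih =>
    rw [List.map_cons, List.prod_cons, List.map_cons, List.sum_cons]
    have h1 := norm_Ad_mul_sub_le (D := D) (D.E X) (l.map D.E).prod Y
    have h2 := norm_Ad_E_sub_le h X hY
    have h3 := mul_le_mul_of_nonneg_left h1 hm0
    have h4 := mul_le_mul_of_nonneg_left h2 hm0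
    have h5 := mul_le_mul_of_nonneg_right (hm X) (norm_nonneg Y)
    nlinarith

theorem ReachN.norm_Ad_sub_le (h : D.Inv 𝔰) {m : ℝ} (hm0 : 0 ≤ m)
    (hm : ∀ X, m * ‖𝔰.starProjection X‖ ≤ p X) {t : ℝ} {x : G}
    (hx : D.ReachN p (D.fixer 𝔰) t x) {Y : L} (hY : Y ∈ 𝔰) :
    m * ‖D.Ad x Y - Y‖ ≤ 2 * t * ‖Y‖ := by
  obtain ⟨y, hy, hyx⟩ := hx
  rw [D.inv_mul_mem_fixer.1 hyx Y hY]
  exact hy.norm_Ad_sub_le h hm0 hm hY

/-- Conjugates of exponentials modulo the fixer. -/
theorem conj_E_inv_mul_mem (h : D.Inv 𝔰) (y : G) (X : L) :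
    (y * D.E X * y⁻¹)⁻¹ * D.E (D.Ad y (𝔰.starProjection X)) ∈ D.fixer 𝔰 := by
  have h1 := E_proj_inv_mul_mem h X
  have hn := h.normal_fixer
  rw [← D.conj]
  have h2 : (y * D.E X * y⁻¹)⁻¹ * (y * D.E (𝔰.starProjection X) * y⁻¹)
      = y * ((D.E (𝔰.starProjection X))⁻¹ * D.E X)⁻¹ * y⁻¹ := by group
  rw [h2]
  exact hn.conj_mem _ ((D.fixer 𝔰).inv_mem h1) _

theorem prod_ofFn_mem {H : Subgroup G} {m : ℕ} {f : Fin m → G} (hf : ∀ j, f j ∈ H) :
    (List.ofFn f).prod ∈ H := by
  refine H.list_prod_mem fun x hx => ?_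
  rw [List.mem_ofFn] at hx
  obtain ⟨j, rfl⟩ := hx
  exact hf j

/-- Products which agree factorwise modulo a normal subgroup agree modulo the subgroup. -/
theorem prod_ofFn_congr [N.Normal] {m : ℕ} {f g : Fin m → G} (hfg : ∀ j, (f j)⁻¹ * g j ∈ N) :
    (List.ofFn f).prod⁻¹ * (List.ofFn g).prod ∈ N := by
  induction m with
  | zero => simp [N.one_mem]
  | succ m ih =>
    simp only [List.ofFn_succ, List.prod_cons]
    have h1 := ih fun j => hfg j.succ
    set a := f 0
    set b := g 0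
    set x := (List.ofFn fun j : Fin m => f j.succ).prod
    set y := (List.ofFn fun j : Fin m => g j.succ).prod
    have h2 : (a * x)⁻¹ * (b * y) = (x⁻¹ * (a⁻¹ * b) * x⁻¹⁻¹) * (x⁻¹ * y) := by group
    rw [h2]
    exact N.mul_mem (Subgroup.Normal.conj_mem inferInstance _ (hfg 0) _) h1

/-- Uniform filling modulo the fixer of `𝔰`. -/
theorem fill_mod (h : D.Inv 𝔰) {n : ℕ} {P Q : Fin n → L}
    (hli : LinearIndependent ℝ fun j => P j - Q j)
    (hspan : Submodule.span ℝ (range fun j => P j - Q j) = 𝔰) {c : ℝ} (hc : 0 < c) :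
    ∃ U ∈ 𝓝 (1 : G), ∀ᶠ z in 𝓝 (P, Q), ∀ x ∈ U, ∃ s : Fin n → ℝ, (∀ j, |s j| ≤ c) ∧
      (List.ofFn fun j => D.E (s j • z.1 j) * D.E (-(s j) • z.2 j)).prod⁻¹ * x ∈ D.fixer 𝔰 := by
  set r := Module.finrank ℝ 𝔰ᗮ with hr
  set b : Module.Basis (Fin r) ℝ 𝔰ᗮ := Module.finBasis ℝ 𝔰ᗮ with hb
  set Z : Fin r → L := fun j => (b j : L) with hZ
  have hZli : LinearIndependent ℝ Z := by
    have := b.linearIndependent.map' 𝔰ᗮ.subtype (Submodule.ker_subtype _)
    exact this
  have hZspan : Submodule.span ℝ (range Z) = 𝔰ᗮ := by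
    have h1 : range Z = 𝔰ᗮ.subtype '' (range b) := by
      rw [← range_comp]
      rfl
    rw [h1, ← Submodule.map_span, b.span_eq, Submodule.map_top, Submodule.range_subtype]
  set app : ((Fin n → L) × (Fin n → L)) → ((Fin (n + r) → L) × (Fin (n + r) → L)) :=
    fun z => (Fin.append z.1 Z, Fin.append z.2 (fun _ => 0)) with happ
  have happc : Continuous app := by
    refine Continuous.prodMk ?_ ?_
    · rw [continuous_pi_iff]
      intro j
      refine Fin.addCases (fun i => ?_) (fun i => ?_) j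
      · simp only [Fin.append_left]
        exact (continuous_apply i).comp continuous_fst
      · simp only [Fin.append_right]
        exact continuous_const
    · rw [continuous_pi_iff]
      intro j
      refine Fin.addCases (fun i => ?_) (fun i => ?_) j
      · simp only [Fin.append_left]
        exact (continuous_apply i).comp continuous_snd
      · simp only [Fin.append_right]
        exact continuous_const
  have hsub : (fun j => (app (P, Q)).1 j - (app (P, Q)).2 j)
      = Fin.append (fun j => P j - Q j) Z := by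
    funext j
    refine Fin.addCases (fun i => ?_) (fun i => ?_) j
    · simp [happ]
    · simp [happ]
  have hrange : range (Fin.append (fun j => P j - Q j) Z)
      = range (fun j => P j - Q j) ∪ range Z := by
    ext x
    constructor
    · rintro ⟨j, rfl⟩
      refine Fin.addCases (fun i => ?_) (fun i => ?_) j
      · left
        exact ⟨i, by simp⟩
      · right
        exact ⟨i, by simp⟩
    · rintro (⟨i, rfl⟩ | ⟨i, rfl⟩)
      · exact ⟨Fin.castAdd r i, by simp⟩
      · exact ⟨Fin.natAdd n i, by simp⟩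
  have hspan' : Submodule.span ℝ (range (Fin.append (fun j => P j - Q j) Z)) = ⊤ := by
    rw [hrange, Submodule.span_union, hspan, hZspan, Submodule.sup_orthogonal_of_hasOrthogonalProjection]
  have hli' : LinearIndependent ℝ (Fin.append (fun j => P j - Q j) Z) := by
    have h1 : LinearIndependent ℝ (Sum.elim (fun j => P j - Q j) Z) := by
      refine LinearIndependent.sum_type hli hZli ?_
      rw [hspan, hZspan]
      exact Submodule.orthogonal_disjoint 𝔰
    have h2 := h1.comp finSumFinEquiv.symm finSumFinEquiv.symm.injective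
    convert h2 using 1
    funext j
    refine Fin.addCases (fun i => ?_) (fun i => ?_) j
    · simp
    · simp
  obtain ⟨U, hU, hfill⟩ := D.fill (app (P, Q)).1 (app (P, Q)).2 (by rw [hsub]; exact hli')
    (by rw [hsub]; exact hspan') c hc
  refine ⟨U, hU, ?_⟩
  have h1 : Tendsto app (𝓝 (P, Q)) (𝓝 ((app (P, Q)).1, (app (P, Q)).2)) := happc.tendsto (P, Q)
  filter_upwards [h1.eventually hfill] with z hz x hx
  obtain ⟨s, hs, hprod⟩ := hz x hx
  refine ⟨fun j => s (Fin.castAdd r j), fun j => hs _, ?_⟩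
  have h2 : (fun j => D.E (s j • (app z).1 j) * D.E (-(s j) • (app z).2 j))
      = Fin.append (fun j => D.E (s (Fin.castAdd r j) • z.1 j) *
          D.E (-(s (Fin.castAdd r j)) • z.2 j))
        (fun j => D.E (s (Fin.natAdd n j) • Z j) * D.E (-(s (Fin.natAdd n j)) • (0 : L))) := by
    funext j
    refine Fin.addCases (fun i => ?_) (fun i => ?_) j
    · simp [happ]
    · simp [happ]
  rw [h2, List.ofFn_fin_append, List.prod_append] at hprod
  rw [← hprod, inv_mul_cancel_left]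
  refine prod_ofFn_mem fun j => ?_
  rw [smul_zero, D.E_zero, mul_one]
  exact E_mem_fixer h (Submodule.smul_mem _ _ (b j).2)

end GroupData

end Pool.Agent.Work.MP_326c77_gt
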