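import Mathlib

set_option autoImplicit false
set_option linter.style.haveILetI false
set_option linter.unusedSectionVars false

open Filter Topology Set MeasureTheory
open scoped ENNReal Manifold ContDiff Pointwise

namespace Pool.Agent.Work.MP_326c77_gt

/-- Smooth dependence of integrals on parameters. -/
theorem contDiffOn_param_integral {P E A : Type*} [NormedAddCommGroup P] [NormedSpace ℝ P]
    [NormedAddCommGroup E] [NormedSpace ℝ E] [MeasurableSpace E] [BorelSpace E]
    [NormedAddCommGroup A] [NormedSpace ℝ A] {ν : Measure E} {f : E → A} {Q : P → E → ℝ}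
    {s : Set P} {k : Set E} (hs : IsOpen s) (hk : IsCompact k)
    (hQ : ∀ p t, p ∈ s → t ∉ k → Q p t = 0) (hf : LocallyIntegrable f ν)
    (hg : ContDiffOn ℝ ∞ (fun q : P × E => Q q.1 q.2) (s ×ˢ univ)) :
    ContDiffOn ℝ ∞ (fun p => ∫ t, Q p t • f t ∂ν) s := by
  have h1 := contDiffOn_convolution_right_with_param_comp (n := ⊤) (μ := ν)
    (ContinuousLinearMap.lsmul ℝ ℝ : ℝ →L[ℝ] A →L[ℝ] A).flip (s := s) (v := fun _ : P => (0 : E))
    contDiffOn_const (f := f) (g := fun p z => Q p (-z)) (k := -k) hs hk.neg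
    (by
      intro p x hp hx
      exact hQ p (-x) hp hx) hf
    (by
      have h2 : ContDiff ℝ ∞ (fun q : P × E => ((q.1, -q.2) : P × E)) :=
        contDiff_fst.prodMk contDiff_snd.neg
      have h3 := hg.comp (t := s ×ˢ univ) h2.contDiffOn (s := s ×ˢ univ) (by
        rintro ⟨p, x⟩ hq
        exact ⟨hq.1, trivial⟩)
      exact h3)
  refine h1.congr fun p _ => ?_
  simp only [convolution_def, zero_sub, neg_neg]
  rfl

end Pool.Agent.Work.MP_326c77_gt
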