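import Pool.Agent.Work.MP_326c77_gt.Poincare

set_option autoImplicit false
set_option linter.style.haveILetI false
set_option linter.unusedSectionVars false

open Filter Topology Set MeasureTheory
open scoped ENNReal

namespace Pool.Agent.Work.MP_326c77_gt

namespace PW

variable {G : Type*} [Group G] [TopologicalSpace G] [IsTopologicalGroup G] [CompactSpace G]
  [T2Space G] [MeasurableSpace G] [BorelSpace G] (μ : Measure G) [μ.IsHaarMeasure]
  [IsProbabilityMeasure μ]

/-- The embedding of continuous functions in `L²`. -/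
noncomputable def emb : C(G, ℝ) →L[ℝ] Lp ℝ 2 μ := ContinuousMap.toLp 2 μ ℝ

theorem emb_injective : Function.Injective (emb μ) := ContinuousMap.toLp_injective μ

theorem denseRange_emb : DenseRange (emb μ) :=
  ContinuousMap.toLp_denseRange ℝ μ ℝ (by norm_num)

theorem measurePreserving_mul_right' (h : G) : MeasurePreserving (fun x => x * h) μ μ :=
  ⟨measurable_mul_const h, map_mul_right_haar h⟩

/-- Right translation on `L²`. -/
noncomputable def tr (h : G) : Lp ℝ 2 μ →ₗᵢ[ℝ] Lp ℝ 2 μ :=
  Lp.compMeasurePreservingₗᵢ ℝ (fun x => x * h) (measurePreserving_mul_right' μ h)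

theorem tr_emb (h : G) (f : C(G, ℝ)) : tr μ h (emb μ f) = emb μ (rtr h f) := rfl

theorem tr_mul (h h' : G) (f : Lp ℝ 2 μ) : tr μ (h * h') f = tr μ h (tr μ h' f) := by
  have h1 : (fun f => tr μ (h * h') f) = fun f => tr μ h (tr μ h' f) := by
    apply (denseRange_emb μ).equalizer (tr μ (h * h')).continuous
      ((tr μ h).continuous.comp (tr μ h').continuous)
    funext f
    simp only [Function.comp_apply, tr_emb, rtr_mul]
  exact congrFun h1 f

theorem tr_one (f : Lp ℝ 2 μ) : tr μ 1 f = f := by
  have h1 : (fun f => tr μ 1 f) = fun f => f := by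
    apply (denseRange_emb μ).equalizer (tr μ 1).continuous continuous_id
    funext f
    simp only [Function.comp_apply, tr_emb, rtr_one]
    rfl
  exact congrFun h1 f

theorem inner_tr (h : G) (f g : Lp ℝ 2 μ) :
    inner ℝ (tr μ h f) g = inner ℝ f (tr μ h⁻¹ g) := by
  have h1 : g = tr μ h (tr μ h⁻¹ g) := by
    rw [← tr_mul, mul_inv_cancel, tr_one]
  conv_lhs => rw [h1]
  exact (tr μ h).inner_map_map f _

section kernel

variable (k : C(G, ℝ))

/-- The translates of the kernel, as continuous functions. -/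
noncomputable def kap : C(G, C(G, ℝ)) :=
  ContinuousMap.curry ⟨fun q : G × G => k (q.1 * q.2⁻¹),
    k.continuous.comp (continuous_fst.mul continuous_snd.inv)⟩

theorem kap_apply (x y : G) : kap k x y = k (x * y⁻¹) := rfl

theorem rtr_inv_kap (h x : G) : rtr h⁻¹ (kap k x) = kap k (x * h) := by
  ext y
  rw [rtr_apply, kap_apply, kap_apply]
  congr 1
  group

/-- The translates of the kernel in `L²`. -/
noncomputable def kapL : C(G, Lp ℝ 2 μ) := ⟨fun x => emb μ (kap k x),
  (emb μ).continuous.comp (kap k).continuous⟩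

theorem kapL_apply (x : G) : kapL μ k x = emb μ (kap k x) := rfl

/-- The integral operator from `L²` to continuous functions. -/
noncomputable def K : Lp ℝ 2 μ →L[ℝ] C(G, ℝ) :=
  LinearMap.mkContinuous
    { toFun := fun f => ⟨fun x => inner ℝ (kapL μ k x) f,
        (kapL μ k).continuous.inner continuous_const⟩
      map_add' := by
        intro f g
        ext x
        simp [inner_add_right]
      map_smul' := by
        intro c f
        ext x
        simp [inner_smul_right] } ‖kapL μ k‖ fun f => by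
    rw [ContinuousMap.norm_le _ (by positivity)]
    intro x
    refine (abs_real_inner_le_norm (kapL μ k x) f).trans ?_
    exact mul_le_mul_of_nonneg_right ((kapL μ k).norm_coe_le_norm x) (norm_nonneg _)

theorem K_apply (f : Lp ℝ 2 μ) (x : G) : K μ k f x = inner ℝ (kapL μ k x) f := rfl

theorem K_tr (h : G) (f : Lp ℝ 2 μ) : K μ k (tr μ h f) = rtr h (K μ k f) := by
  ext x
  rw [K_apply, rtr_apply, K_apply, real_inner_comm, inner_tr, real_inner_comm, kapL_apply,
    tr_emb, rtr_inv_kap]
  rfl

theorem isCompactOperator_K : IsCompactOperator (K μ k) := by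
  refine (isCompactOperator_iff_image_closedBall_subset_compact
    (K μ k : Lp ℝ 2 μ →ₗ[ℝ] C(G, ℝ)) one_pos).2 ?_
  set M := ‖kapL μ k‖ with hM
  set S : Set C(G, ℝ) := {f | (∀ x, |f x| ≤ M) ∧
    ∀ x y, |f x - f y| ≤ ‖kapL μ k x - kapL μ k y‖} with hS
  have himage : ContinuousMap.toFun '' S = {f : G → ℝ | (∀ x, |f x| ≤ M) ∧
      ∀ x y, |f x - f y| ≤ ‖kapL μ k x - kapL μ k y‖} := by
    ext f
    constructor
    · rintro ⟨g, hg, rfl⟩
      exact hg
    · rintro ⟨h1, h2⟩
      refine ⟨⟨f, ?_⟩, ⟨h1, h2⟩, rfl⟩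
      rw [continuous_iff_continuousAt]
      intro x
      rw [ContinuousAt, tendsto_iff_dist_tendsto_zero]
      have h3 : Tendsto (fun y => ‖kapL μ k y - kapL μ k x‖) (𝓝 x) (𝓝 0) := by
        have h4 := (kapL μ k).continuous.tendsto x
        have h5 := tendsto_iff_norm_sub_tendsto_zero.1 h4
        exact h5
      exact squeeze_zero (fun y => dist_nonneg) (fun y => h2 y x) h3
  have hcomp : IsCompact S := by
    apply ArzelaAscoli.isCompact_of_equicontinuous
    · rw [himage]
      have h1 : IsCompact (Set.pi univ fun _ : G => Icc (-M) M) :=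
        isCompact_univ_pi fun _ => isCompact_Icc
      refine h1.of_isClosed_subset ?_ ?_
      · have e1 : {f : G → ℝ | (∀ x, |f x| ≤ M) ∧
            ∀ x y, |f x - f y| ≤ ‖kapL μ k x - kapL μ k y‖}
            = (⋂ x, {f : G → ℝ | |f x| ≤ M}) ∩
              ⋂ x, ⋂ y, {f : G → ℝ | |f x - f y| ≤ ‖kapL μ k x - kapL μ k y‖} := by
          ext f
          simp
        rw [e1]
        refine IsClosed.inter (isClosed_iInter fun x => ?_)
          (isClosed_iInter fun x => isClosed_iInter fun y => ?_)
        · exact isClosed_le (continuous_apply x).abs continuous_const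
        · exact isClosed_le ((continuous_apply x).sub (continuous_apply y)).abs continuous_const
      · intro f hf x _
        exact abs_le.1 (hf.1 x)
    · intro x
      rw [Metric.equicontinuousAt_iff_right]
      intro ε hε
      have h3 : Tendsto (fun y => ‖kapL μ k x - kapL μ k y‖) (𝓝 x) (𝓝 0) := by
        have h4 := (kapL μ k).continuous.tendsto x
        have h5 := tendsto_iff_norm_sub_tendsto_zero.1 h4
        refine h5.congr fun y => norm_sub_rev _ _
      filter_upwards [h3.eventually (gt_mem_nhds hε)] with y hy f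
      rw [Real.dist_eq]
      exact (f.2.2 x y).trans_lt hy
  refine ⟨S, hcomp, ?_⟩
  rintro _ ⟨f, hf, rfl⟩
  rw [mem_closedBall_zero_iff] at hf
  refine ⟨fun x => ?_, fun x y => ?_⟩
  · change |inner ℝ (kapL μ k x) f| ≤ M
    refine (abs_real_inner_le_norm _ _).trans ?_
    calc ‖kapL μ k x‖ * ‖f‖ ≤ M * 1 := by
          gcongr
          exact (kapL μ k).norm_coe_le_norm x
      _ = M := mul_one M
  · change |inner ℝ (kapL μ k x) f - inner ℝ (kapL μ k y) f| ≤ _
    rw [← inner_sub_left]
    refine (abs_real_inner_le_norm _ _).trans ?_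
    calc ‖kapL μ k x - kapL μ k y‖ * ‖f‖ ≤ ‖kapL μ k x - kapL μ k y‖ * 1 := by gcongr
      _ = _ := mul_one _

/-- The integral operator on `L²`. -/
noncomputable def S : Lp ℝ 2 μ →L[ℝ] Lp ℝ 2 μ := (emb μ).comp (K μ k)

theorem S_apply (f : Lp ℝ 2 μ) : S μ k f = emb μ (K μ k f) := rfl

theorem S_tr (h : G) (f : Lp ℝ 2 μ) : S μ k (tr μ h f) = tr μ h (S μ k f) := by
  rw [S_apply, K_tr, S_apply, tr_emb]

theorem isCompactOperator_S : IsCompactOperator (S μ k) :=
  (isCompactOperator_K μ k).clm_comp (emb μ)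

theorem adjoint_S_tr (h : G) (f : Lp ℝ 2 μ) :
    (S μ k).adjoint (tr μ h f) = tr μ h ((S μ k).adjoint f) := by
  refine ext_inner_right ℝ fun g => ?_
  rw [ContinuousLinearMap.adjoint_inner_left, inner_tr, inner_tr, ← S_tr,
    ContinuousLinearMap.adjoint_inner_left]

/-- The positive compact operator. -/
noncomputable def T : Lp ℝ 2 μ →L[ℝ] Lp ℝ 2 μ := (S μ k).comp (S μ k).adjoint

theorem T_apply (f : Lp ℝ 2 μ) : T μ k f = S μ k ((S μ k).adjoint f) := rfl

theorem T_tr (h : G) (f : Lp ℝ 2 μ) : T μ k (tr μ h f) = tr μ h (T μ k f) := by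
  rw [T_apply, adjoint_S_tr, S_tr, T_apply]

theorem isCompactOperator_T : IsCompactOperator (T μ k) :=
  (isCompactOperator_S μ k).comp_clm _

theorem isSymmetric_T : (T μ k).IsSymmetric := by
  intro f g
  change inner ℝ (T μ k f) g = inner ℝ f (T μ k g)
  rw [T_apply, T_apply, ← ContinuousLinearMap.adjoint_inner_right,
    ContinuousLinearMap.adjoint_inner_left]

/-- Continuous eigenfunctions. -/
noncomputable def F (l : ℝ) : Submodule ℝ C(G, ℝ) :=
  (Module.End.eigenspace (T μ k).toLinearMap l).comap (emb μ).toLinearMap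

theorem mem_F {l : ℝ} {f : C(G, ℝ)} : f ∈ F μ k l ↔ T μ k (emb μ f) = l • emb μ f :=
  Module.End.mem_eigenspace_iff

theorem finiteDimensional_F {l : ℝ} (hl : l ≠ 0) : FiniteDimensional ℝ (F μ k l) := by
  haveI : FiniteDimensional ℝ (Module.End.eigenspace (T μ k).toLinearMap l) :=
    ContinuousLinearMap.finite_dimensional_eigenspace (isCompactOperator_T μ k) l hl
  let φ : F μ k l →ₗ[ℝ] Module.End.eigenspace (T μ k).toLinearMap l :=
    (emb μ).toLinearMap.restrict (p := F μ k l) fun f hf => hf
  refine FiniteDimensional.of_injective φ fun f g hfg => ?_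
  apply Subtype.ext
  apply emb_injective μ
  exact congrArg Subtype.val hfg

theorem rtr_mem_F {l : ℝ} (h : G) {f : C(G, ℝ)} (hf : f ∈ F μ k l) : rtr h f ∈ F μ k l := by
  rw [mem_F] at hf ⊢
  rw [← tr_emb, T_tr, hf, map_smul]

theorem exists_mem_F {l : ℝ} (hl : l ≠ 0) {g : Lp ℝ 2 μ} (hg : T μ k g = l • g) :
    ∃ f ∈ F μ k l, emb μ f = g := by
  have h1 : emb μ (l⁻¹ • K μ k ((S μ k).adjoint g)) = g := by
    rw [map_smul, ← S_apply, ← T_apply, hg, smul_smul, inv_mul_cancel₀ hl, one_smul]
  refine ⟨_, ?_, h1⟩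
  rw [mem_F, h1, hg]

/-- The eigenfunctions separate points separated by the kernel. -/
theorem separation (x : G) (hx : ∀ l ≠ 0, ∀ f ∈ F μ k l, rtr x f = f) : k x = k 1 := by
  -- translation by `x` fixes the range of `T`
  have h1 : ∀ g, tr μ x (T μ k g) = T μ k g := by
    have hle : (⨆ l, Module.End.eigenspace (T μ k).toLinearMap l) ≤
        LinearMap.eqLocus ((tr μ x).toLinearMap ∘ₗ (T μ k).toLinearMap) (T μ k).toLinearMap := by
      refine iSup_le fun l g hg => ?_
      rw [Module.End.mem_eigenspace_iff] at hg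
      have hg' : T μ k g = l • g := hg
      change tr μ x (T μ k g) = T μ k g
      rcases eq_or_ne l 0 with hl | hl
      · rw [hg', hl, zero_smul, map_zero]
      · obtain ⟨f, hf, rfl⟩ := exists_mem_F μ k hl hg'
        rw [hg', map_smul, tr_emb, hx l hl f hf]
    have hbot := ContinuousLinearMap.orthogonalComplement_iSup_eigenspaces_eq_bot
      (isCompactOperator_T μ k) (isSymmetric_T μ k)
    have hdense : (⨆ l, Module.End.eigenspace (T μ k).toLinearMap l).topologicalClosure = ⊤ :=
      Submodule.topologicalClosure_eq_top_iff.2 hbot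
    intro g
    have hclosed : IsClosed {g | tr μ x (T μ k g) = T μ k g} :=
      isClosed_eq ((tr μ x).continuous.comp (T μ k).continuous) (T μ k).continuous
    have hsub : ((⨆ l, Module.End.eigenspace (T μ k).toLinearMap l : Submodule ℝ (Lp ℝ 2 μ)) :
        Set (Lp ℝ 2 μ)) ⊆ {g | tr μ x (T μ k g) = T μ k g} := fun g hg => hle hg
    have h2 := closure_minimal hsub hclosed
    have h3 : g ∈ (⨆ l, Module.End.eigenspace (T μ k).toLinearMap l).topologicalClosure := by
      rw [hdense]
      trivial
    exact h2 h3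
  have h2 : ∀ g, (S μ k).adjoint (tr μ x g - g) = 0 := by
    intro g
    have h3 : T μ k (tr μ x g - g) = 0 := by
      rw [map_sub, T_tr, h1, sub_self]
    have h4 : inner ℝ ((S μ k).adjoint (tr μ x g - g)) ((S μ k).adjoint (tr μ x g - g))
        = (0 : ℝ) := by
      rw [ContinuousLinearMap.adjoint_inner_left, ← T_apply, h3, inner_zero_right]
    exact inner_self_eq_zero.1 h4
  have h5 : ∀ h, tr μ x (S μ k h) = S μ k h := by
    intro h
    have h6 : tr μ x⁻¹ (S μ k h) - S μ k h = 0 := by
      rw [← inner_self_eq_zero (𝕜 := ℝ)]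
      set w := tr μ x⁻¹ (S μ k h) - S μ k h with hw
      have h7 : inner ℝ (tr μ x w - w) (S μ k h) = (0 : ℝ) := by
        rw [← ContinuousLinearMap.adjoint_inner_left, h2, inner_zero_left]
      rw [inner_sub_left, inner_tr, ← inner_sub_right] at h7
      exact h7
    have h8 : tr μ x⁻¹ (S μ k h) = S μ k h := sub_eq_zero.1 h6
    rw [← h8, ← tr_mul, mul_inv_cancel, tr_one, h8]
  have h9 : kapL μ k x = kapL μ k 1 := by
    refine ext_inner_right ℝ fun h => ?_
    have h10 : rtr x (K μ k h) = K μ k h := emb_injective μ (h5 h)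
    have h11 := congrArg (fun f : C(G, ℝ) => f 1) h10
    simpa [K_apply] using h11
  have h12 : kap k x = kap k 1 := emb_injective μ h9
  have h13 := congrArg (fun f : C(G, ℝ) => f 1) h12
  simpa [kap_apply] using h13

end kernel

end PW

namespace PW

variable {G : Type*} [Group G] [TopologicalSpace G] [IsTopologicalGroup G] [CompactSpace G]
  [T2Space G]

/-- Points are separated by finite-dimensional translation-invariant spaces of functions. -/
theorem exists_separating (x : G) (hx : x ≠ 1) : ∃ F : Submodule ℝ C(G, ℝ),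
    FiniteDimensional ℝ F ∧ (∀ h, ∀ f ∈ F, rtr h f ∈ F) ∧ ∃ f ∈ F, rtr x f ≠ f := by
  letI : MeasurableSpace G := borel G
  haveI : BorelSpace G := ⟨rfl⟩
  set μ : Measure G := Measure.haarMeasure (⊤ : TopologicalSpace.PositiveCompacts G) with hμ
  haveI : IsProbabilityMeasure μ := ⟨by
    have := Measure.haarMeasure_self (K₀ := (⊤ : TopologicalSpace.PositiveCompacts G))
    simpa using this⟩
  obtain ⟨k, hk0, hk1, _⟩ := exists_continuous_zero_one_of_isClosed (isClosed_singleton (x := x))
    (isClosed_singleton (x := (1 : G))) (by simpa using hx)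
  by_contra hcon
  push Not at hcon
  have h1 := separation μ k x fun l hl f hf =>
    hcon (F μ k l) (finiteDimensional_F μ k hl) (fun h f hf => rtr_mem_F μ k h hf) f hf
  have h2 : k x = 0 := hk0 rfl
  have h3 : k 1 = 1 := hk1 rfl
  rw [h2, h3] at h1
  exact zero_ne_one h1

/-- Absence of small subgroups. -/
def NSS (G : Type*) [Group G] [TopologicalSpace G] : Prop :=
  ∃ U ∈ 𝓝 (1 : G), ∀ x : G, (∀ n : ℕ, x ^ n ∈ U) → x = 1

theorem continuous_rtr (f : C(G, ℝ)) : Continuous fun y : G => rtr y f := by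
  let Φ : C(G, C(G, ℝ)) := ContinuousMap.curry ⟨fun q : G × G => f (q.2 * q.1),
    f.continuous.comp (continuous_snd.mul continuous_fst)⟩
  exact Φ.continuous

theorem exists_faithful (hG : NSS G) : ∃ F : Submodule ℝ C(G, ℝ),
    FiniteDimensional ℝ F ∧ (∀ h, ∀ f ∈ F, rtr h f ∈ F) ∧
      ∀ x, (∀ f ∈ F, rtr x f = f) → x = 1 := by
  obtain ⟨U, hU, hNSS⟩ := hG
  set C : Set G := (interior U)ᶜ with hC
  have hCc : IsCompact C := isOpen_interior.isClosed_compl.isCompact
  have h1U : (1 : G) ∈ interior U := mem_interior_iff_mem_nhds.2 hU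
  have hne : ∀ x : C, (x : G) ≠ 1 := by
    rintro ⟨x, hx⟩ rfl
    exact hx h1U
  choose F hFfin hFinv f hfF hf using fun x : C => exists_separating (x : G) (hne x)
  obtain ⟨t, ht⟩ := hCc.elim_finite_subcover (fun x : C => {y : G | rtr y (f x) ≠ f x})
    (fun x => isOpen_ne_fun (continuous_rtr (f x)) continuous_const) (by
      intro x hx
      exact mem_iUnion.2 ⟨⟨x, hx⟩, hf ⟨x, hx⟩⟩)
  haveI := hFfin
  refine ⟨t.sup F, Submodule.finiteDimensional_finset_sup t F, ?_, ?_⟩
  · intro h g hg
    have h1 : (t.sup F).map (rtr h).toLinearMap ≤ t.sup F := by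
      rw [Submodule.map_le_iff_le_comap]
      refine Finset.sup_le fun i hi g hg => ?_
      exact (Finset.le_sup hi : F i ≤ t.sup F) (hFinv i h g hg)
    exact h1 ⟨g, hg, rfl⟩
  · intro x hx
    apply hNSS
    intro n
    by_contra hn
    have hxn : x ^ n ∈ C := fun h => hn (interior_subset h)
    have h1 := ht hxn
    simp only [mem_iUnion, exists_prop] at h1
    obtain ⟨i, hi, hne⟩ := h1
    apply hne
    have h2 : f i ∈ t.sup F := (Finset.le_sup hi : F i ≤ t.sup F) (hfF i)
    have h3 := hx _ h2
    clear hn hxn hne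
    induction n with
    | zero => rw [pow_zero, rtr_one]
    | succ n ih => rw [pow_succ, rtr_mul, h3, ih]

end PW

end Pool.Agent.Work.MP_326c77_gt
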