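import Mathlib

set_option autoImplicit false
set_option linter.style.haveILetI false
set_option linter.unusedSectionVars false

open Filter Topology Set

namespace Pool.Agent.Work.MP_326c77_gt

/-- Spectral bound for symmetric operators, for a positive definite symmetric bilinear form given
by a function `B`. -/
theorem spectral_bound {W : Type*} [AddCommGroup W] [Module ℝ W] [FiniteDimensional ℝ W]
    (B : W →ₗ[ℝ] W →ₗ[ℝ] ℝ) (hsymm : ∀ x y, B x y = B y x) (hpos : ∀ x, x ≠ 0 → 0 < B x x)
    (T : W →ₗ[ℝ] W) (hT : ∀ x y, B (T x) y = B x (T y)) {c : ℝ}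
    (hc : ∀ (l : ℝ) (x : W), x ≠ 0 → T x = l • x → c ≤ l) (x : W) : c * B x x ≤ B (T x) x := by
  have hnonneg : ∀ x, 0 ≤ B x x := by
    intro x
    by_cases hx : x = 0
    · rw [hx]
      simp
    · exact (hpos x hx).le
  let core : InnerProductSpace.Core ℝ W :=
    { inner := fun x y => B x y
      conj_inner_symm := by
        intro x y
        simp [hsymm y x]
      re_inner_nonneg := by
        intro x
        simpa using hnonneg x
      add_left := by
        intro x y z
        simp
      smul_left := by
        intro x y r
        simp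
      definite := by
        intro x hx
        by_contra h
        exact (hpos x h).ne' hx }
  letI : NormedAddCommGroup W := core.toNormedAddCommGroup
  letI : InnerProductSpace ℝ W := InnerProductSpace.ofCore core.toCore
  have hinner : ∀ x y : W, inner ℝ x y = B x y := fun x y => rfl
  have hsymT : T.IsSymmetric := fun x y => hT x y
  set b := hsymT.eigenvectorBasis rfl with hb
  set l := hsymT.eigenvalues rfl with hl
  have hle : ∀ i, c ≤ l i := by
    intro i
    refine hc (l i) (b i) ?_ ?_
    · intro h0
      have := b.orthonormal.1 i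
      rw [h0, norm_zero] at this
      exact zero_ne_one this
    · exact hsymT.apply_eigenvectorBasis rfl i
  have h1 : B x x = ∑ i, (inner ℝ (b i) x) ^ 2 := by
    rw [← hinner, ← b.sum_inner_mul_inner x x]
    refine Finset.sum_congr rfl fun i _ => ?_
    rw [real_inner_comm, sq]
  have h2 : B (T x) x = ∑ i, l i * (inner ℝ (b i) x) ^ 2 := by
    rw [← hinner, ← b.sum_inner_mul_inner (T x) x]
    refine Finset.sum_congr rfl fun i _ => ?_
    have h3 : inner ℝ (T x) (b i) = l i * inner ℝ (b i) x := by
      rw [hsymT x (b i), hsymT.apply_eigenvectorBasis rfl i]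
      rw [real_inner_comm]
      simp [inner_smul_left, hl, hb]
    rw [h3]
    ring
  rw [h1, h2, Finset.mul_sum]
  refine Finset.sum_le_sum fun i _ => ?_
  exact mul_le_mul_of_nonneg_right (hle i) (sq_nonneg _)

end Pool.Agent.Work.MP_326c77_gt
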