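import Pool.Agent.Work.MP_326c77_gt.Poly
import Pool.Agent.Work.MP_326c77_gt.Haar
import Pool.Agent.Work.MP_326c77_gt.Spectral

set_option autoImplicit false
set_option linter.style.haveILetI false
set_option linter.unusedSectionVars false

open NormedSpace Filter Topology Set MeasureTheory

namespace Pool.Agent.Work.MP_326c77_gt

section integral

variable {G : Type*} [Group G] [TopologicalSpace G] [IsTopologicalGroup G] [CompactSpace G]
  [MeasurableSpace G] [BorelSpace G] (μ : Measure G) [IsProbabilityMeasure μ]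

theorem integrable_cont {f : G → ℝ} (hf : Continuous f) : Integrable f μ :=
  hf.integrable_of_hasCompactSupport (HasCompactSupport.of_compactSpace _)

/-- The integral as a continuous linear functional. -/
noncomputable def Itg : C(G, ℝ) →L[ℝ] ℝ :=
  LinearMap.mkContinuous
    { toFun := fun f => ∫ x, f x ∂μ
      map_add' := by
        intro f g
        exact integral_add (integrable_cont μ f.continuous) (integrable_cont μ g.continuous)
      map_smul' := by
        intro c f
        exact integral_const_mul c f } 1 fun f => by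
    have h1 := norm_integral_le_of_norm_le_const (μ := μ) (f := fun x => f x) (C := ‖f‖)
      (Eventually.of_forall fun x => f.norm_coe_le_norm x)
    simp only [probReal_univ, mul_one] at h1
    rw [one_mul]
    exact h1

theorem Itg_apply (f : C(G, ℝ)) : Itg μ f = ∫ x, f x ∂μ := rfl

theorem Itg_one : Itg μ (1 : C(G, ℝ)) = 1 := by
  rw [Itg_apply]
  simp

theorem Itg_rtr [μ.IsHaarMeasure] (y : G) (f : C(G, ℝ)) : Itg μ (rtr y f) = Itg μ f :=
  integral_mul_right_haar (fun x => f x) y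

theorem Itg_mul_self_pos [μ.IsHaarMeasure] {f : C(G, ℝ)} (hf : f ≠ 0) : 0 < Itg μ (f * f) := by
  have h1 : ∃ x, f x ≠ 0 := by
    by_contra h
    push Not at h
    exact hf (ContinuousMap.ext h)
  obtain ⟨x, hx⟩ := h1
  exact (f * f).continuous.integral_pos_of_hasCompactSupport_nonneg_nonzero
    (HasCompactSupport.of_compactSpace _) (fun y => mul_self_nonneg _)
    (x := x) (mul_self_ne_zero.2 hx)

theorem Itg_mul_self_nonneg (f : C(G, ℝ)) : 0 ≤ Itg μ (f * f) :=
  integral_nonneg fun _ => mul_self_nonneg _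

end integral

namespace FRep

variable {G A : Type*} [Group G] [TopologicalSpace G] [NormedRing A] {R : FRep G A}
  [CompactSpace G] [NormedAlgebra ℝ A] [FiniteDimensional ℝ A] [InnerProductSpaceable A]
  [IsTopologicalGroup G] [MeasurableSpace G] [BorelSpace G] {μ : Measure G} [μ.IsHaarMeasure]
  [IsProbabilityMeasure μ]

theorem Itg_Dv {d : ℕ} {f : C(G, ℝ)} (hf : f ∈ R.V d) (X : R.L) : Itg μ (R.Dv X f) = 0 := by
  have h1 := (Itg μ).hasFDerivAt.comp_hasDerivAt (0 : ℝ) (hasDerivAt_zero hf X)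
  have h2 : (fun t : ℝ => Itg μ (rtr (R.E (t • X)) f)) = fun _ => Itg μ f := by
    funext t
    exact Itg_rtr μ _ _
  have h3 : HasDerivAt (fun t : ℝ => Itg μ (rtr (R.E (t • X)) f)) (Itg μ (R.Dv X f)) 0 := h1
  rw [h2] at h3
  exact h3.unique (hasDerivAt_const _ _)

theorem by_parts {d : ℕ} {f g : C(G, ℝ)} (hf : f ∈ R.V d) (hg : g ∈ R.V d) (X : R.L) :
    Itg μ (R.Dv X f * g) = -Itg μ (f * R.Dv X g) := by
  have h0 := (hasDerivAt_zero hf X).mul (hasDerivAt_zero hg X)
  have h1 := (Itg μ).hasFDerivAt.comp_hasDerivAt (0 : ℝ) h0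
  have h2 : (fun t : ℝ => Itg μ (rtr (R.E (t • X)) f * rtr (R.E (t • X)) g))
      = fun _ => Itg μ (f * g) := by
    funext t
    rw [← map_mul, Itg_rtr]
  have h3 : HasDerivAt (fun t : ℝ => Itg μ (rtr (R.E (t • X)) f * rtr (R.E (t • X)) g))
      (Itg μ (R.Dv X f * rtr (R.E ((0 : ℝ) • X)) g + rtr (R.E ((0 : ℝ) • X)) f * R.Dv X g)) 0 :=
    h1
  rw [h2] at h3
  have h4 := h3.unique (hasDerivAt_const _ _)
  rw [E_zero_smul, rtr_one, rtr_one, map_add] at h4
  linarith

/-- A function in `V d` all of whose derivatives vanish is constant. -/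
theorem eq_const_of_Dv_eq_zero [ConnectedSpace G] {m : ℕ} (e : Module.Basis (Fin m) ℝ R.L)
    {d : ℕ} {f : C(G, ℝ)} (hf : f ∈ R.V d) (h : ∀ i, R.Dv (e i) f = 0) (x : G) :
    f x = f 1 := by
  let H : Subgroup G :=
    { carrier := {y | rtr y f = f}
      mul_mem' := by
        intro a b ha hb
        rw [mem_ofPred_eq] at ha hb ⊢
        rw [rtr_mul, hb, ha]
      one_mem' := rtr_one f
      inv_mem' := by
        intro a ha
        rw [mem_ofPred_eq] at ha ⊢
        nth_rewrite 1 [← ha]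
        rw [← rtr_mul, inv_mul_cancel, rtr_one] }
  have hE : ∀ i (t : ℝ), R.E (t • e i) ∈ H := by
    intro i t
    change rtr (R.E (t • e i)) f = f
    have h1 : ∀ t, HasDerivAt (fun t : ℝ => rtr (R.E (t • e i)) f) 0 t := by
      intro t
      have := hasDerivAt_rtr hf (e i) t
      rwa [h i, map_zero] at this
    have h2 := is_const_of_deriv_eq_zero (fun y => (h1 y).differentiableAt)
      (fun y => (h1 y).deriv) t 0
    simp only [E_zero_smul, rtr_one] at h2
    exact h2
  have hH : H = ⊤ := by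
    refine eq_top_of_mem_nhds H ?_
    obtain ⟨U, hU, hfill⟩ := R.data.fill (fun j => e j) (fun _ => 0)
      (by simpa using e.linearIndependent) (by simpa using e.span_eq) 1 one_pos
    refine mem_of_superset hU fun y hy => ?_
    obtain ⟨s, _, rfl⟩ := hfill.self_of_nhds y hy
    refine GroupData.prod_ofFn_mem fun j => ?_
    have h3 : R.data.E (-(s j) • (0 : R.L)) = 1 := by
      rw [smul_zero]
      exact R.data.E_zero
    simp only [h3, mul_one]
    exact hE j (s j)
  have hx : x ∈ H := by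
    rw [hH]
    trivial
  have h4 : rtr x f = f := hx
  have h5 := congrArg (fun g : C(G, ℝ) => g 1) h4
  simpa using h5

theorem Itg_Lap_mul {m : ℕ} (e : Fin m → R.L) (d : ℕ) (f g : R.V d) :
    Itg μ ((Lap R e d f : C(G, ℝ)) * g)
      = ∑ i, Itg μ (R.Dv (e i) f * R.Dv (e i) g) := by
  rw [coe_Lap, neg_mul, map_neg, Finset.sum_mul, map_sum, ← Finset.sum_neg_distrib]
  refine Finset.sum_congr rfl fun i _ => ?_
  rw [by_parts (Dv_mem f.2 _) g.2, neg_neg]

/-- The **Poincaré inequality** on `V d`. -/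
theorem poincare_V [ConnectedSpace G] {m : ℕ} (e : Module.Basis (Fin m) ℝ R.L) (d : ℕ) {c : ℝ}
    (hc : ∀ (l : ℝ) (f : R.V d), 0 < l → f ≠ 0 → Lap R e d f = l • f → c ≤ l) (f : R.V d) :
    c * Itg μ (((f : C(G, ℝ)) - Itg μ f • (1 : C(G, ℝ))) *
      ((f : C(G, ℝ)) - Itg μ f • (1 : C(G, ℝ))))
      ≤ ∑ i, Itg μ (R.Dv (e i) f * R.Dv (e i) f) := by
  -- mean zero functions
  let J : R.V d →ₗ[ℝ] ℝ := (Itg μ).toLinearMap ∘ₗ (R.V d).subtype
  have hJ : ∀ g : R.V d, J g = Itg μ g := fun g => rfl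
  set W : Submodule ℝ (R.V d) := LinearMap.ker J with hW
  have hLapW : ∀ g ∈ W, Lap R e d g ∈ W := by
    intro g _
    rw [hW, LinearMap.mem_ker, hJ, coe_Lap, map_neg, map_sum]
    rw [Finset.sum_eq_zero fun i _ => Itg_Dv (Dv_mem g.2 (e i)) (e i), neg_zero]
  let T : W →ₗ[ℝ] W := (Lap R e d).restrict hLapW
  let B : W →ₗ[ℝ] W →ₗ[ℝ] ℝ := LinearMap.mk₂ ℝ
    (fun g h => Itg μ (((g : R.V d) : C(G, ℝ)) * ((h : R.V d) : C(G, ℝ))))
    (by
      intro a b c
      simp [add_mul])
    (by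
      intro r a b
      simp)
    (by
      intro a b c
      simp [mul_add])
    (by
      intro r a b
      simp)
  have hBapp : ∀ g h : W, B g h = Itg μ (((g : R.V d) : C(G, ℝ)) * ((h : R.V d) : C(G, ℝ))) :=
    fun g h => rfl
  have hBsymm : ∀ g h, B g h = B h g := by
    intro g h
    rw [hBapp, hBapp, mul_comm]
  have hBpos : ∀ g, g ≠ 0 → 0 < B g g := by
    intro g hg
    rw [hBapp]
    apply Itg_mul_self_pos
    intro h0
    exact hg (Subtype.ext (Subtype.ext h0))
  have hTapp : ∀ g h : W, B (T g) h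
      = ∑ i, Itg μ (R.Dv (e i) (g : R.V d) * R.Dv (e i) (h : R.V d)) := by
    intro g h
    exact Itg_Lap_mul (fun i => e i) d (g : R.V d) (h : R.V d)
  have hTsymm : ∀ g h, B (T g) h = B g (T h) := by
    intro g h
    rw [hBsymm g, hTapp, hTapp]
    refine Finset.sum_congr rfl fun i _ => ?_
    rw [mul_comm]
  -- the function `f` minus its mean
  set f₀ : R.V d := f - Itg μ f • ⟨1, R.one_mem_V d⟩ with hf₀
  have hf₀coe : (f₀ : C(G, ℝ)) = (f : C(G, ℝ)) - Itg μ f • (1 : C(G, ℝ)) := by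
    rw [hf₀]
    rfl
  have hf₀W : f₀ ∈ W := by
    rw [hW, LinearMap.mem_ker, hJ, hf₀coe, map_sub, map_smul, Itg_one, smul_eq_mul, mul_one,
      sub_self]
  have hT' : ∀ (l : ℝ) (g : W), g ≠ 0 → T g = l • g → c ≤ l := by
    intro l g hg hTg
    have hg' : (g : R.V d) ≠ 0 := fun h => hg (Subtype.ext h)
    have hLg : Lap R e d (g : R.V d) = l • (g : R.V d) := congrArg Subtype.val hTg
    refine hc l (g : R.V d) ?_ hg' hLg
    -- positivity of the eigenvalue
    have h1 : B (T g) g = l * B g g := by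
      rw [hTg]
      simp
    have h2 : 0 < B (T g) g := by
      rw [hTapp]
      have hnn : ∀ i ∈ Finset.univ, 0 ≤ Itg μ (R.Dv (e i) (g : R.V d) * R.Dv (e i) (g : R.V d)) :=
        fun i _ => Itg_mul_self_nonneg μ _
      rcases (Finset.sum_nonneg hnn).lt_or_eq with h3 | h3
      · exact h3
      · exfalso
        have h4 : ∀ i, R.Dv (e i) (g : R.V d) = 0 := by
          intro i
          by_contra h5
          have h6 := (Finset.sum_eq_zero_iff_of_nonneg hnn).1 h3.symm i (Finset.mem_univ i)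
          exact (Itg_mul_self_pos μ h5).ne' h6
        have h7 := eq_const_of_Dv_eq_zero e (g : R.V d).2 h4
        have h8 : ((g : R.V d) : C(G, ℝ)) = ((g : R.V d) : C(G, ℝ)) 1 • (1 : C(G, ℝ)) := by
          ext x
          simp [h7 x]
        have h9 : Itg μ ((g : R.V d) : C(G, ℝ)) = 0 := g.2
        rw [h8, map_smul, Itg_one, smul_eq_mul, mul_one] at h9
        rw [h9, zero_smul] at h8
        exact hg' (Subtype.ext h8)
    rw [h1] at h2
    exact (pos_iff_pos_of_mul_pos h2).2 (hBpos g hg)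
  have key := spectral_bound B hBsymm hBpos T hTsymm hT' (⟨f₀, hf₀W⟩ : W)
  rw [hTapp, hBapp] at key
  have hD : ∀ i, R.Dv (e i) (f₀ : C(G, ℝ)) = R.Dv (e i) f := by
    intro i
    have h1 : (DvL R d (e i)) ⟨1, R.one_mem_V d⟩ = 0 := by
      apply Subtype.ext
      rw [coe_DvL]
      have h2 : HasDerivAt (fun t : ℝ => rtr (R.E (t • e i)) (1 : C(G, ℝ))) 0 0 := by
        have : (fun t : ℝ => rtr (R.E (t • e i)) (1 : C(G, ℝ))) = fun _ => 1 := by
          funext t
          exact map_one _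
        rw [this]
        exact hasDerivAt_const _ _
      exact (hasDerivAt_zero (R.one_mem_V d) (e i)).unique h2
    have h3 : (DvL R d (e i)) f₀ = (DvL R d (e i)) f := by
      rw [hf₀, map_sub, map_smul, h1, smul_zero, sub_zero]
    exact congrArg Subtype.val h3
  have hD' : ∀ i, R.Dv (e i) ((f : C(G, ℝ)) - Itg μ f • (1 : C(G, ℝ))) = R.Dv (e i) f := by
    intro i
    rw [← hf₀coe]
    exact hD i
  simp only [hf₀coe, hD'] at key
  exact key

/-- The variance bound for functions in `V d`. -/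
theorem var_le_of_mem_V [ConnectedSpace G] {m : ℕ} (e : Module.Basis (Fin m) ℝ R.L) {c : ℝ}
    (hcpos : 0 < c)
    (hc : ∀ d (l : ℝ) (f : R.V d), 0 < l → f ≠ 0 → Lap R e d f = l • f → c ≤ l)
    {p : Seminorm ℝ R.L} (hp : ∀ i, p (e i) ≤ 1) {d : ℕ} {f : C(G, ℝ)} (hf : f ∈ R.V d)
    (hlip : ∀ x X, |f (x * R.E X) - f x| ≤ p X) :
    ∫ x, (f x - ∫ y, f y ∂μ) ^ 2 ∂μ ≤ m / c := by
  have h1 := poincare_V (μ := μ) e d (hc d) ⟨f, hf⟩
  have h2 : ∀ i, Itg μ (R.Dv (e i) f * R.Dv (e i) f) ≤ 1 := by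
    intro i
    have h3 : ∀ x, |R.Dv (e i) f x| ≤ 1 := by
      intro x
      have h4 := hasDerivAt_apply hf (e i) x 0
      rw [E_zero_smul, mul_one] at h4
      have h5 := hasDerivAt_iff_tendsto_slope_zero.1 h4
      have h6 := h5.norm
      refine le_of_tendsto h6 (Eventually.of_forall fun t => ?_)
      rw [norm_smul, norm_inv, Real.norm_eq_abs, Real.norm_eq_abs]
      simp only [zero_add, E_zero_smul, mul_one]
      have h7 := hlip x (t • e i)
      rw [map_smul_eq_mul, Real.norm_eq_abs] at h7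
      rcases eq_or_ne t 0 with ht | ht
      · rw [ht]
        simp
      · have h8 : 0 < |t| := abs_pos.2 ht
        rw [inv_mul_le_iff₀ h8, mul_one]
        refine h7.trans ?_
        exact mul_le_of_le_one_right h8.le (hp i)
    have h9 : Itg μ (R.Dv (e i) f * R.Dv (e i) f) ≤ ∫ _ : G, (1 : ℝ) ∂μ := by
      refine integral_mono (integrable_cont μ (R.Dv (e i) f * R.Dv (e i) f).continuous)
        (integrable_const _) fun x => ?_
      have := abs_le.1 (h3 x)
      change R.Dv (e i) f x * R.Dv (e i) f x ≤ 1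
      nlinarith
    simpa using h9
  have h3 : ∑ i : Fin m, Itg μ (R.Dv (e i) f * R.Dv (e i) f) ≤ m := by
    refine (Finset.sum_le_sum fun i _ => h2 i).trans ?_
    simp
  have h4 : ∫ x, (f x - ∫ y, f y ∂μ) ^ 2 ∂μ
      = Itg μ ((f - Itg μ f • (1 : C(G, ℝ))) * (f - Itg μ f • (1 : C(G, ℝ)))) := by
    rw [Itg_apply]
    refine integral_congr_ae (Eventually.of_forall fun x => ?_)
    change (f x - ∫ y, f y ∂μ) ^ 2 = (f x - Itg μ f • 1) * (f x - Itg μ f • 1)
    rw [Itg_apply, smul_eq_mul, mul_one, sq]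
  rw [h4, le_div_iff₀ hcpos]
  have h5 := h1.trans h3
  linarith

end FRep

end Pool.Agent.Work.MP_326c77_gt
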