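import Pool.Agent.Work.MP_326c77_gt.Rep

set_option autoImplicit false
set_option linter.style.haveILetI false
set_option linter.unusedSectionVars false

open NormedSpace Filter Topology Set MeasureTheory

namespace Pool.Agent.Work.MP_326c77_gt

section translations

variable {G : Type*} [Group G] [TopologicalSpace G] [IsTopologicalGroup G]

/-- Right translation of continuous functions. -/
def rtr (y : G) : C(G, ℝ) →ₐ[ℝ] C(G, ℝ) :=
  ContinuousMap.compRightAlgHom ℝ ℝ ⟨fun x => x * y, continuous_id.mul continuous_const⟩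

@[simp]
theorem rtr_apply (y : G) (f : C(G, ℝ)) (x : G) : rtr y f x = f (x * y) := rfl

theorem rtr_mul (y z : G) (f : C(G, ℝ)) : rtr (y * z) f = rtr y (rtr z f) := by
  ext x
  simp [mul_assoc]

theorem rtr_one (f : C(G, ℝ)) : rtr 1 f = f := by
  ext x
  simp

variable [CompactSpace G]

theorem norm_rtr_le (y : G) (f : C(G, ℝ)) : ‖rtr y f‖ ≤ ‖f‖ := by
  rw [ContinuousMap.norm_le _ (norm_nonneg _)]
  intro x
  exact f.norm_coe_le_norm _

/-- Right translation as a continuous linear map. -/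
noncomputable def rtrL (y : G) : C(G, ℝ) →L[ℝ] C(G, ℝ) :=
  LinearMap.mkContinuous (rtr y).toLinearMap 1 fun f => by
    rw [one_mul]
    exact norm_rtr_le y f

theorem rtrL_apply (y : G) (f : C(G, ℝ)) : rtrL y f = rtr y f := rfl

end translations

namespace FRep

variable {G A : Type*} [Group G] [TopologicalSpace G] [NormedRing A] (R : FRep G A)
  [CompactSpace G] [NormedAlgebra ℝ A] [FiniteDimensional ℝ A] [InnerProductSpaceable A]
  [IsTopologicalGroup G]

/-- Affine functions of the matrix coefficients. -/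
noncomputable def coordMap : ((A →L[ℝ] ℝ) × ℝ) →ₗ[ℝ] C(G, ℝ) where
  toFun z := ⟨fun x => z.1 (R.ρ x) + z.2, (z.1.continuous.comp R.cont).add continuous_const⟩
  map_add' z w := by
    ext x
    simp
    ring
  map_smul' c z := by
    ext x
    simp
    ring

theorem coordMap_apply (z : (A →L[ℝ] ℝ) × ℝ) (x : G) : R.coordMap z x = z.1 (R.ρ x) + z.2 := rfl

/-- The space of affine functions of the matrix coefficients. -/
noncomputable def V₁ : Submodule ℝ C(G, ℝ) := LinearMap.range R.coordMap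

/-- Polynomials of degree at most `d` in the matrix coefficients. -/
noncomputable def V (d : ℕ) : Submodule ℝ C(G, ℝ) := R.V₁ ^ d

theorem one_mem_V₁ : (1 : C(G, ℝ)) ∈ R.V₁ := ⟨(0, 1), by ext x; simp [coordMap_apply]⟩

theorem fg_V (d : ℕ) : (R.V d).FG := by
  apply Submodule.FG.pow
  exact Module.Finite.iff_fg.1 (inferInstanceAs (Module.Finite ℝ (LinearMap.range R.coordMap)))

instance (d : ℕ) : FiniteDimensional ℝ (R.V d) := Module.Finite.iff_fg.2 (R.fg_V d)

theorem V_mono : Monotone R.V := by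
  apply monotone_nat_of_le_succ
  intro d
  unfold V
  rw [pow_succ]
  intro f hf
  have := Submodule.mul_mem_mul hf R.one_mem_V₁
  rwa [mul_one] at this

theorem one_mem_V (d : ℕ) : (1 : C(G, ℝ)) ∈ R.V d := by
  apply R.V_mono (Nat.zero_le d)
  unfold V
  rw [pow_zero]
  exact Submodule.one_le.1 le_rfl

theorem rtr_mem_V (d : ℕ) (y : G) {f : C(G, ℝ)} (hf : f ∈ R.V d) : rtr y f ∈ R.V d := by
  have h1 : R.V₁.map (rtr y).toLinearMap ≤ R.V₁ := by
    rintro _ ⟨_, ⟨z, rfl⟩, rfl⟩
    refine ⟨(z.1.comp ((ContinuousLinearMap.mul ℝ A).flip (R.ρ y)), z.2), ?_⟩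
    ext x
    change z.1 (R.ρ x * R.ρ y) + z.2 = z.1 (R.ρ (x * y)) + z.2
    rw [map_mul R.ρ]
  have h2 : (R.V d).map (rtr y).toLinearMap ≤ R.V d := by
    unfold V
    rw [Submodule.map_pow]
    exact pow_le_pow_left' h1 d
  exact h2 ⟨f, hf, rfl⟩

/-- Functions which are differentiable along the one-parameter subgroups. -/
def Diff (f : C(G, ℝ)) : Prop :=
  ∀ X : R.L, DifferentiableAt ℝ (fun t : ℝ => rtr (R.E (t • X)) f) 0

theorem Diff.mul {f g : C(G, ℝ)} (hf : R.Diff f) (hg : R.Diff g) : R.Diff (f * g) := by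
  intro X
  have h1 := (hf X).mul (hg X)
  refine h1.congr_of_eventuallyEq (Eventually.of_forall fun t => ?_)
  exact map_mul _ _ _

theorem E_zero_smul (X : R.L) : R.E ((0 : ℝ) • X) = 1 := by
  rw [zero_smul]
  exact R.data.E_zero

theorem diff_coordMap (z : (A →L[ℝ] ℝ) × ℝ) : R.Diff (R.coordMap z) := by
  intro X
  -- the linear map `b ↦ (x ↦ z.1 (ρ x * b))`
  let Ψ : A →ₗ[ℝ] C(G, ℝ) :=
    { toFun := fun b => ⟨fun x => z.1 (R.ρ x * b), z.1.continuous.comp
        (R.cont.mul continuous_const)⟩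
      map_add' := by
        intro a b
        ext x
        simp [mul_add]
      map_smul' := by
        intro c a
        ext x
        simp }
  have h1 : DifferentiableAt ℝ (fun t : ℝ => Ψ (exp (t • (X : A)))) 0 := by
    have h2 : DifferentiableAt ℝ (fun t : ℝ => exp (t • (X : A))) 0 :=
      (hasDerivAt_exp_smul_zero (X : A)).differentiableAt
    exact (LinearMap.toContinuousLinearMap Ψ).differentiableAt.comp (0 : ℝ) h2
  have h3 := h1.add_const (algebraMap ℝ C(G, ℝ) z.2)
  refine h3.congr_of_eventuallyEq (Eventually.of_forall fun t => ?_)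
  ext x
  change z.1 (R.ρ (x * R.E (t • X))) + z.2 = z.1 (R.ρ x * exp (t • (X : A))) + z.2
  rw [map_mul, ρ_E_smul]

theorem diff_of_mem_V (d : ℕ) {f : C(G, ℝ)} (hf : f ∈ R.V d) : R.Diff f := by
  let 𝒮 : Submodule ℝ C(G, ℝ) :=
    { carrier := {f | R.Diff f}
      add_mem' := by
        intro f g hf hg X
        refine ((hf X).add (hg X)).congr_of_eventuallyEq (Eventually.of_forall fun t => ?_)
        exact map_add _ _ _
      zero_mem' := by
        intro X
        refine (differentiableAt_const (0 : C(G, ℝ))).congr_of_eventuallyEq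
          (Eventually.of_forall fun t => ?_)
        exact map_zero _
      smul_mem' := by
        intro c f hf X
        refine ((hf X).const_smul c).congr_of_eventuallyEq (Eventually.of_forall fun t => ?_)
        exact map_smul _ _ _ }
  have h1 : R.V₁ ≤ 𝒮 := by
    rintro _ ⟨z, rfl⟩
    exact R.diff_coordMap z
  have h2 : ∀ d, R.V d ≤ 𝒮 := by
    intro d
    induction d with
    | zero =>
      unfold V
      rw [pow_zero, Submodule.one_le]
      exact h1 R.one_mem_V₁
    | succ d ih =>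
      unfold V at ih ⊢
      rw [pow_succ, Submodule.mul_le]
      intro f hf g hg
      exact Diff.mul R (ih hf) (h1 hg)
  exact h2 d hf

/-- The derivative along the left-invariant vector field of `X`. -/
noncomputable def Dv (X : R.L) (f : C(G, ℝ)) : C(G, ℝ) :=
  deriv (fun t : ℝ => rtr (R.E (t • X)) f) 0

variable {R}

theorem hasDerivAt_zero {d : ℕ} {f : C(G, ℝ)} (hf : f ∈ R.V d) (X : R.L) :
    HasDerivAt (fun t : ℝ => rtr (R.E (t • X)) f) (R.Dv X f) 0 :=
  (R.diff_of_mem_V d hf X).hasDerivAt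

theorem Dv_mem {d : ℕ} {f : C(G, ℝ)} (hf : f ∈ R.V d) (X : R.L) : R.Dv X f ∈ R.V d := by
  have h1 := hasDerivAt_iff_tendsto_slope_zero.1 (hasDerivAt_zero hf X)
  have hcl : IsClosed (R.V d : Set C(G, ℝ)) := (R.V d).closed_of_finiteDimensional
  refine hcl.mem_of_tendsto h1 (Eventually.of_forall fun t => ?_)
  exact (R.V d).smul_mem _ ((R.V d).sub_mem (R.rtr_mem_V d _ hf) (R.rtr_mem_V d _ hf))

theorem hasDerivAt_rtr {d : ℕ} {f : C(G, ℝ)} (hf : f ∈ R.V d) (X : R.L) (t : ℝ) :
    HasDerivAt (fun t : ℝ => rtr (R.E (t • X)) f) (rtr (R.E (t • X)) (R.Dv X f)) t := by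
  have h1 : HasDerivAt (fun s : ℝ => rtr (R.E ((s - t) • X)) f) (R.Dv X f) t := by
    have h2 := hasDerivAt_zero hf X
    have h3 : HasDerivAt (fun t : ℝ => rtr (R.E (t • X)) f) (R.Dv X f) (t - t) := by
      rwa [sub_self]
    exact h3.comp_sub_const t t
  have h4 := (rtrL (R.E (t • X))).hasFDerivAt.comp_hasDerivAt t h1
  refine h4.congr_of_eventuallyEq (Eventually.of_forall fun s => ?_)
  change rtr (R.E (s • X)) f = rtr (R.E (t • X)) (rtr (R.E ((s - t) • X)) f)
  rw [← rtr_mul]
  congr 2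
  have := R.data.E_add X t (s - t)
  rw [add_sub_cancel] at this
  exact this

/-- Pointwise derivative. -/
theorem hasDerivAt_apply {d : ℕ} {f : C(G, ℝ)} (hf : f ∈ R.V d) (X : R.L) (x : G) (t : ℝ) :
    HasDerivAt (fun t : ℝ => f (x * R.E (t • X))) (R.Dv X f (x * R.E (t • X))) t := by
  have h1 := hasDerivAt_rtr hf X t
  exact (ContinuousMap.evalCLM ℝ x).hasFDerivAt.comp_hasDerivAt t h1

theorem deriv2_apply {d : ℕ} {f : C(G, ℝ)} (hf : f ∈ R.V d) (X : R.L) (x : G) :
    iteratedDeriv 2 (fun t : ℝ => f (x * R.E (t • X))) 0 = R.Dv X (R.Dv X f) x := by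
  rw [iteratedDeriv_succ, iteratedDeriv_one]
  have h1 : deriv (fun t : ℝ => f (x * R.E (t • X)))
      = fun t : ℝ => R.Dv X f (x * R.E (t • X)) := by
    funext t
    exact (hasDerivAt_apply hf X x t).deriv
  rw [h1, (hasDerivAt_apply (Dv_mem hf X) X x 0).deriv, E_zero_smul, mul_one]

/-- The derivative as a linear endomorphism of `V d`. -/
noncomputable def DvL (R : FRep G A) (d : ℕ) (X : R.L) : R.V d →ₗ[ℝ] R.V d where
  toFun f := ⟨R.Dv X f, Dv_mem f.2 X⟩
  map_add' f g := by
    ext1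
    change R.Dv X ((f : C(G, ℝ)) + g) = R.Dv X f + R.Dv X g
    have h1 := (hasDerivAt_zero f.2 X).add (hasDerivAt_zero g.2 X)
    have h2 := hasDerivAt_zero ((R.V d).add_mem f.2 g.2) X
    refine h2.unique (h1.congr_of_eventuallyEq (Eventually.of_forall fun t => ?_))
    exact map_add _ _ _
  map_smul' c f := by
    ext1
    change R.Dv X (c • (f : C(G, ℝ))) = c • R.Dv X f
    have h1 := (hasDerivAt_zero f.2 X).const_smul c
    have h2 := hasDerivAt_zero ((R.V d).smul_mem c f.2) X
    refine h2.unique (h1.congr_of_eventuallyEq (Eventually.of_forall fun t => ?_))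
    exact map_smul _ _ _

theorem coe_DvL (d : ℕ) (X : R.L) (f : R.V d) : ((DvL R d X f : R.V d) : C(G, ℝ)) = R.Dv X f := rfl

/-- The Laplacian on `V d`. -/
noncomputable def Lap (R : FRep G A) {m : ℕ} (e : Fin m → R.L) (d : ℕ) : R.V d →ₗ[ℝ] R.V d :=
  -∑ i, (DvL R d (e i)) ∘ₗ (DvL R d (e i))

theorem coe_Lap {m : ℕ} (e : Fin m → R.L) (d : ℕ) (f : R.V d) :
    ((Lap R e d f : R.V d) : C(G, ℝ)) = -∑ i, R.Dv (e i) (R.Dv (e i) f) := by
  simp [Lap, coe_DvL]

end FRep

end Pool.Agent.Work.MP_326c77_gt
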