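import Pool.Agent.Work.MP_326c77_gt.Filling
import Pool.Agent.Work.MP_326c77_gt.Assembly

set_option autoImplicit false
set_option linter.style.haveILetI false
set_option linter.unusedSectionVars false

open NormedSpace Filter Topology Set MeasureTheory

namespace Pool.Agent.Work.MP_326c77_gt

section algebra

variable {A : Type*} [NormedRing A] [NormedAlgebra ℝ A] [FiniteDimensional ℝ A]

theorem hasDerivAt_conj_exp (X Y : A) (t : ℝ) :
    HasDerivAt (fun s : ℝ => exp (s • X) * Y * exp (-s • X))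
      (exp (t • X) * (X * Y - Y * X) * exp (-t • X)) t := by
  haveI : CompleteSpace A := FiniteDimensional.complete ℝ A
  have h1 : HasDerivAt (fun s : ℝ => exp (s • X)) (exp (t • X) * X) t :=
    hasDerivAt_exp_smul_const (𝕂 := ℝ) X t
  have h2 : HasDerivAt (fun s : ℝ => exp (-s • X)) (-(X * exp (-t • X))) t := by
    have h3 : HasDerivAt (fun s : ℝ => exp (s • X)) (X * exp (-t • X)) (-t) :=
      hasDerivAt_exp_smul_const' (𝕂 := ℝ) X (-t)
    have h4 := h3.scomp t (hasDerivAt_neg t)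
    simpa [Function.comp_def] using h4
  have h5 := (h1.mul_const Y).mul h2
  have h6 : exp (t • X) * (X * Y - Y * X) * exp (-t • X)
      = exp (t • X) * X * Y * exp (-t • X) + exp (t • X) * Y * -(X * exp (-t • X)) := by
    generalize exp (t • X) = a
    generalize exp (-t • X) = b
    noncomm_ring
  rw [h6]
  exact h5

theorem bracket_mem {X Y : A} (V : Submodule ℝ A)
    (hV : ∀ t : ℝ, exp (t • X) * Y * exp (-t • X) ∈ V) : X * Y - Y * X ∈ V := by
  have h1 := hasDerivAt_conj_exp X Y 0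
  simp only [zero_smul, neg_zero, exp_zero, one_mul, mul_one] at h1
  have h2 := hasDerivAt_iff_tendsto_slope_zero.1 h1
  have hcl : IsClosed (V : Set A) := V.closed_of_finiteDimensional
  refine hcl.mem_of_tendsto h2 (Eventually.of_forall fun t => ?_)
  refine V.smul_mem _ (V.sub_mem ?_ ?_)
  · exact hV _
  · exact hV _

theorem norm_conj_exp_sub_le {S : Set A} (hS : IsIsoGroup S) {X : A} (hX : X ∈ lieSet S) (Y : A) :
    ‖exp X * Y * exp (-X) - Y‖ ≤ 2 * ‖X‖ * ‖Y‖ := by
  have h1 : ∀ t : ℝ, HasDerivAt (fun s : ℝ => exp (s • X) * Y * exp (-s • X))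
      (exp (t • X) * (X * Y - Y * X) * exp (-t • X)) t := hasDerivAt_conj_exp X Y
  have h2 : ∀ t : ℝ, ‖exp (t • X) * (X * Y - Y * X) * exp (-t • X)‖ ≤ 2 * ‖X‖ * ‖Y‖ := by
    intro t
    rw [hS.mul_norm (hX (-t)), hS.norm_mul (hX t)]
    calc ‖X * Y - Y * X‖ ≤ ‖X * Y‖ + ‖Y * X‖ := norm_sub_le _ _
      _ ≤ ‖X‖ * ‖Y‖ + ‖Y‖ * ‖X‖ := add_le_add (norm_mul_le _ _) (norm_mul_le _ _)
      _ = 2 * ‖X‖ * ‖Y‖ := by ring
  have h3 := norm_image_sub_le_of_norm_deriv_le_segment_01'
    (f := fun s : ℝ => exp (s • X) * Y * exp (-s • X))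
    (f' := fun t => exp (t • X) * (X * Y - Y * X) * exp (-t • X)) (C := 2 * ‖X‖ * ‖Y‖)
    (fun t _ => (h1 t).hasDerivWithinAt) (fun t _ => h2 t)
  simpa using h3

end algebra

/-- A faithful isometric representation of `G` in a normed algebra `A`. -/
structure FRep (G A : Type*) [Group G] [TopologicalSpace G] [NormedRing A] where
  ρ : G →* A
  cont : Continuous ρ
  inj : Function.Injective ρ
  norm_mul : ∀ (g : G) (x : A), ‖ρ g * x‖ = ‖x‖
  mul_norm : ∀ (g : G) (x : A), ‖x * ρ g‖ = ‖x‖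

namespace FRep

variable {G A : Type*} [Group G] [TopologicalSpace G] [NormedRing A] (R : FRep G A)

theorem ρ_mul_inv (g : G) : R.ρ g * R.ρ g⁻¹ = 1 := by
  rw [← map_mul, mul_inv_cancel, map_one]

theorem ρ_inv_mul (g : G) : R.ρ g⁻¹ * R.ρ g = 1 := by
  rw [← map_mul, inv_mul_cancel, map_one]

variable [CompactSpace G]

theorem isIsoGroup (H : Subgroup G) (hH : IsClosed (H : Set G)) :
    IsIsoGroup (R.ρ '' (H : Set G)) where
  one_mem := ⟨1, H.one_mem, map_one _⟩
  mul_mem := by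
    rintro _ _ ⟨g, hg, rfl⟩ ⟨h, hh, rfl⟩
    exact ⟨g * h, H.mul_mem hg hh, map_mul _ _ _⟩
  exists_inv := by
    rintro _ ⟨g, hg, rfl⟩
    exact ⟨R.ρ g⁻¹, ⟨g⁻¹, H.inv_mem hg, rfl⟩, R.ρ_mul_inv g, R.ρ_inv_mul g⟩
  norm_mul := by
    rintro _ ⟨g, _, rfl⟩ x
    exact R.norm_mul g x
  mul_norm := by
    rintro _ ⟨g, _, rfl⟩ x
    exact R.mul_norm g x
  closed := (hH.isCompact.image R.cont).isClosed

variable [NormedAlgebra ℝ A] [FiniteDimensional ℝ A]

/-- The Lie algebra of a closed subgroup. -/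
def lie (H : Subgroup G) (hH : IsClosed (H : Set G)) : Submodule ℝ A := lieSub (R.isIsoGroup H hH)

theorem mem_lie {H : Subgroup G} {hH : IsClosed (H : Set G)} {X : A} :
    X ∈ R.lie H hH ↔ ∀ t : ℝ, ∃ g ∈ H, R.ρ g = exp (t • X) := Iff.rfl

/-- The Lie algebra of `G`. -/
abbrev L : Submodule ℝ A := R.lie ⊤ isClosed_univ

theorem exists_E (X : R.L) (t : ℝ) : ∃ g, R.ρ g = exp (t • (X : A)) := by
  obtain ⟨g, _, hg⟩ := X.2 t
  exact ⟨g, hg⟩

/-- The exponential map. -/
noncomputable def E (X : R.L) : G := (R.exists_E X 1).choose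

theorem ρ_E (X : R.L) : R.ρ (R.E X) = exp (X : A) := by
  have h1 : R.ρ (R.E X) = exp ((1 : ℝ) • (X : A)) := (R.exists_E X 1).choose_spec
  rwa [one_smul] at h1

theorem ρ_E_smul (X : R.L) (t : ℝ) : R.ρ (R.E (t • X)) = exp (t • (X : A)) := by
  rw [ρ_E, Submodule.coe_smul]

theorem conj_mem_lie (H : Subgroup G) (hH : IsClosed (H : Set G)) (g : G)
    (hg : ∀ x ∈ H, g * x * g⁻¹ ∈ H) {X : A} (hX : X ∈ R.lie H hH) :
    R.ρ g * X * R.ρ g⁻¹ ∈ R.lie H hH := by
  haveI : CompleteSpace A := FiniteDimensional.complete ℝ A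
  letI : NormedAlgebra ℚ A := NormedAlgebra.restrictScalars ℚ ℝ A
  intro t
  obtain ⟨x, hx, hxe⟩ := hX t
  refine ⟨g * x * g⁻¹, hg x hx, ?_⟩
  rw [map_mul, map_mul, hxe]
  have h1 := exp_units_conj (MonoidHom.toHomUnits R.ρ g) (t • X)
  have h2 : ((MonoidHom.toHomUnits R.ρ g)⁻¹ : Aˣ).1 = R.ρ g⁻¹ := by
    rw [← map_inv]
    rfl
  rw [h2, MonoidHom.coe_toHomUnits] at h1
  rw [← h1, mul_smul_comm, smul_mul_assoc]

/-- The adjoint action of one element as a linear isometry equivalence. -/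
noncomputable def AdIso (g : G) : R.L ≃ₗᵢ[ℝ] R.L where
  toFun X := ⟨R.ρ g * X * R.ρ g⁻¹, R.conj_mem_lie ⊤ isClosed_univ g (fun _ _ => trivial) X.2⟩
  invFun X := ⟨R.ρ g⁻¹ * X * R.ρ g, by
    have := R.conj_mem_lie ⊤ isClosed_univ g⁻¹ (fun _ _ => trivial) X.2
    rwa [inv_inv] at this⟩
  map_add' X Y := by
    ext
    simp [mul_add, add_mul]
  map_smul' c X := by
    ext
    simp
  left_inv X := by
    ext
    simp only
    rw [← mul_assoc, ← mul_assoc, ρ_inv_mul, one_mul, mul_assoc, ρ_inv_mul, mul_one]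
  right_inv X := by
    ext
    simp only
    rw [← mul_assoc, ← mul_assoc, ρ_mul_inv, one_mul, mul_assoc, ρ_mul_inv, mul_one]
  norm_map' X := by
    change ‖R.ρ g * (X : A) * R.ρ g⁻¹‖ = ‖(X : A)‖
    rw [R.mul_norm, R.norm_mul]

theorem coe_AdIso (g : G) (X : R.L) : ((R.AdIso g X : R.L) : A) = R.ρ g * X * R.ρ g⁻¹ := rfl

/-- The adjoint action. -/
noncomputable def Ad : G →* (R.L ≃ₗᵢ[ℝ] R.L) where
  toFun := R.AdIso
  map_one' := by
    ext X
    simp [coe_AdIso]
  map_mul' g h := by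
    ext X
    rw [LinearIsometryEquiv.coe_mul, Function.comp_apply, coe_AdIso, coe_AdIso, coe_AdIso,
      mul_inv_rev, map_mul, map_mul]
    simp only [mul_assoc]

theorem coe_Ad (g : G) (X : R.L) : ((R.Ad g X : R.L) : A) = R.ρ g * X * R.ρ g⁻¹ := rfl

variable [InnerProductSpaceable A]

noncomputable instance : InnerProductSpace ℝ R.L :=
  InnerProductSpace.ofNorm ℝ fun x y =>
    InnerProductSpaceable.parallelogram_identity (x : A) (y : A)

theorem cprod_eq_ρ {m : ℕ} (P Q : Fin m → R.L) (s : Fin m → ℝ) :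
    cprod (fun j => (P j : A)) (fun j => (Q j : A)) s
      = R.ρ (List.ofFn fun j => R.E (s j • P j) * R.E (-(s j) • Q j)).prod := by
  unfold cprod
  rw [map_list_prod, List.map_ofFn]
  congr 2
  funext j
  rw [Function.comp_apply, map_mul, ρ_E_smul, ρ_E_smul]

variable [IsTopologicalGroup G]

/-- The abstract data attached to a faithful isometric representation. -/
noncomputable def data : GroupData G R.L where
  E := R.E
  Ad := R.Ad
  E_zero := by
    apply R.inj
    rw [ρ_E, map_one]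
    simp
  E_add X s t := by
    apply R.inj
    rw [map_mul, ρ_E_smul, ρ_E_smul, ρ_E_smul]
    exact exp_add_smul _ _ _
  conj g X := by
    haveI : CompleteSpace A := FiniteDimensional.complete ℝ A
    letI : NormedAlgebra ℚ A := NormedAlgebra.restrictScalars ℚ ℝ A
    apply R.inj
    rw [map_mul, map_mul, ρ_E, ρ_E, coe_Ad]
    have h1 := exp_units_conj (MonoidHom.toHomUnits R.ρ g) (X : A)
    have h2 : ((MonoidHom.toHomUnits R.ρ g)⁻¹ : Aˣ).1 = R.ρ g⁻¹ := by
      rw [← map_inv]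
      rfl
    rw [h2, MonoidHom.coe_toHomUnits] at h1
    exact h1.symm
  cont_Ad Y := by
    rw [continuous_induced_rng]
    exact (R.cont.mul continuous_const).mul (R.cont.comp continuous_inv)
  ad_orth 𝔰 h𝔰 Y hY Z hZ := by
    haveI : CompleteSpace A := FiniteDimensional.complete ℝ A
    -- the bracket vanishes
    have hinv : ∀ g, ∀ W ∈ 𝔰ᗮ, R.Ad g W ∈ 𝔰ᗮ := by
      intro g W hW
      rw [Submodule.mem_orthogonal] at hW ⊢
      intro V hV
      have h1 := hW (R.Ad g⁻¹ V) (h𝔰 _ _ hV)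
      rw [← (R.Ad g).inner_map_map] at h1
      have h2 : R.Ad g (R.Ad g⁻¹ V) = V := by
        have : (R.Ad g * R.Ad g⁻¹) V = V := by
          rw [← map_mul, mul_inv_cancel, map_one]
          rfl
        exact this
      rwa [h2] at h1
    have key : ∀ (𝔱 : Submodule ℝ R.L), (∀ g, ∀ W ∈ 𝔱, R.Ad g W ∈ 𝔱) → ∀ (X : R.L), ∀ W ∈ 𝔱,
        (X : A) * W - W * X ∈ 𝔱.map R.L.subtype := by
      intro 𝔱 h𝔱 X W hW
      apply bracket_mem
      intro t
      refine ⟨R.Ad (R.E (t • X)) W, h𝔱 _ _ hW, ?_⟩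
      change ((R.Ad (R.E (t • X)) W : R.L) : A) = _
      rw [coe_Ad, ρ_E_smul]
      congr 1
      have h1 : R.ρ (R.E (t • X))⁻¹ = R.ρ (R.E ((-t) • X)) := by
        have h2 : R.ρ (R.E (t • X)) * R.ρ (R.E ((-t) • X)) = 1 := by
          rw [ρ_E_smul, ρ_E_smul]
          exact exp_smul_mul_neg _ _
        calc R.ρ (R.E (t • X))⁻¹ = R.ρ (R.E (t • X))⁻¹ * (R.ρ (R.E (t • X)) *
              R.ρ (R.E ((-t) • X))) := by rw [h2, mul_one]
          _ = R.ρ (R.E ((-t) • X)) := by rw [← mul_assoc, ρ_inv_mul, one_mul]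
      rw [h1, ρ_E_smul]
    obtain ⟨a, ha, hae⟩ := key 𝔰 h𝔰 Z Y hY
    obtain ⟨b, hb, hbe⟩ := key 𝔰ᗮ hinv Y Z hZ
    have hab : a = -b := by
      ext
      change (a : A) = -(b : A)
      have h1 : (a : A) = Z * Y - Y * Z := hae
      have h2 : (b : A) = Y * Z - Z * Y := hbe
      rw [h1, h2]
      abel
    have ha0 : a = 0 := by
      have h1 : a ∈ 𝔰ᗮ := by
        rw [hab]
        exact 𝔰ᗮ.neg_mem hb
      have h2 : inner ℝ a a = (0 : ℝ) := (Submodule.mem_orthogonal _ _).1 h1 a ha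
      exact inner_self_eq_zero.1 h2
    have hcomm : Commute (Z : A) (Y : A) := by
      have h1 : (a : A) = Z * Y - Y * Z := hae
      rw [ha0] at h1
      exact (sub_eq_zero.1 h1.symm)
    letI : NormedAlgebra ℚ A := NormedAlgebra.restrictScalars ℚ ℝ A
    constructor
    · ext
      rw [coe_Ad, ρ_E]
      have h2 : Commute (exp (Z : A)) (Y : A) := hcomm.exp_left
      rw [h2.eq, mul_assoc, ← ρ_E, ρ_mul_inv, mul_one]
    · apply R.inj
      rw [map_mul, ρ_E, ρ_E, ρ_E, Submodule.coe_add]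
      exact exp_add_of_commute hcomm.symm
  lip X Y := by
    have h1 : ‖(R.ρ (R.E X) * (Y : A) * R.ρ (R.E X)⁻¹ - Y : A)‖ ≤ 2 * ‖(X : A)‖ * ‖(Y : A)‖ := by
      have h2 := norm_conj_exp_sub_le (R.isIsoGroup ⊤ isClosed_univ) X.2 (Y : A)
      have h3 : R.ρ (R.E X)⁻¹ = exp (-(X : A)) := by
        have h4 : exp (X : A) * exp (-(X : A)) = 1 := by
          have := exp_smul_mul_neg (X : A) 1
          simpa using this
        calc R.ρ (R.E X)⁻¹ = R.ρ (R.E X)⁻¹ * (exp (X : A) * exp (-(X : A))) := by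
              rw [h4, mul_one]
          _ = exp (-(X : A)) := by rw [← mul_assoc, ← ρ_E, ρ_inv_mul, one_mul]
      rw [h3, ρ_E]
      exact h2
    exact h1
  fill := by
    intro m P Q hli hspan c hc
    have hS := R.isIsoGroup ⊤ isClosed_univ
    have hli' : LinearIndependent ℝ fun j => (P j : A) - (Q j : A) := by
      have := hli.map' R.L.subtype (Submodule.ker_subtype _)
      exact this
    have hspan' : ∀ X ∈ lieSet (R.ρ '' ((⊤ : Subgroup G) : Set G)),
        X ∈ Submodule.span ℝ (range fun j => (P j : A) - (Q j : A)) := by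
      intro X hX
      have h1 : (⟨X, hX⟩ : R.L) ∈ Submodule.span ℝ (range fun j => P j - Q j) := by
        rw [hspan]
        trivial
      have h2 : R.L.subtype ⟨X, hX⟩ ∈ (Submodule.span ℝ (range fun j => P j - Q j)).map
          R.L.subtype := ⟨_, h1, rfl⟩
      rw [Submodule.map_span, ← range_comp] at h2
      exact h2
    obtain ⟨δ, hδ, h⟩ := uniform_local_filling hS (P := fun j => (P j : A))
      (Q := fun j => (Q j : A)) (fun j => (P j).2) (fun j => (Q j).2) hli' hspan' hc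
    refine ⟨{x | ‖R.ρ x - 1‖ < δ}, ?_, ?_⟩
    · have h1 : Continuous fun x => ‖R.ρ x - 1‖ := (R.cont.sub continuous_const).norm
      have h2 : IsOpen {x | ‖R.ρ x - 1‖ < δ} := isOpen_lt h1 continuous_const
      refine h2.mem_nhds ?_
      simpa using hδ
    · set c : (Fin m → R.L) × (Fin m → R.L) → (Fin m → A) × (Fin m → A) :=
        fun z => (fun j => (z.1 j : A), fun j => (z.2 j : A)) with hcdef
      have hcont : Continuous c := by
        refine Continuous.prodMk ?_ ?_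
        · exact continuous_pi fun j => continuous_subtype_val.comp
            ((continuous_apply j).comp continuous_fst)
        · exact continuous_pi fun j => continuous_subtype_val.comp
            ((continuous_apply j).comp continuous_snd)
      filter_upwards [(hcont.tendsto (P, Q)).eventually h] with z hz x hx
      obtain ⟨s, hs, hsx⟩ := hz (fun j => (z.1 j).2) (fun j => (z.2 j).2) (R.ρ x)
        ⟨x, trivial, rfl⟩ hx
      refine ⟨s, hs, ?_⟩
      apply R.inj
      rw [← hsx]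
      exact (R.cprod_eq_ρ z.1 z.2 s).symm

end FRep

end Pool.Agent.Work.MP_326c77_gt
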