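import Pool.Agent.Work.MP_326c77_gt.ModFill

set_option autoImplicit false
set_option linter.style.haveILetI false
set_option linter.unusedSectionVars false

open Filter Topology Set MeasureTheory
open scoped NNReal

namespace Pool.Agent.Work.MP_326c77_gt

namespace GroupData

variable {G L : Type*} [Group G] [TopologicalSpace G] [NormedAddCommGroup L]
  [InnerProductSpace ℝ L] {D : GroupData G L} {p : Seminorm ℝ L} {N : Subgroup G}
  [FiniteDimensional ℝ L] {𝔰 : Submodule ℝ L}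

/-! ### Scaling -/

theorem reach_smul {a : ℝ≥0} {t : ℝ} {x : G} (h : D.Reach p t x) :
    D.Reach (a • p) (a * t) x := by
  obtain ⟨l, hl, hs⟩ := h
  refine ⟨l, hl, ?_⟩
  have h1 : (l.map (a • p : Seminorm ℝ L)).sum = a * (l.map p).sum := by
    rw [← List.sum_map_mul_left]
    rfl
  rw [h1]
  exact mul_le_mul_of_nonneg_left hs a.2

theorem reachN_smul {a : ℝ≥0} {t : ℝ} {x : G} (h : D.ReachN p N t x) :
    D.ReachN (a • p) N (a * t) x := by
  obtain ⟨y, hy, hyx⟩ := h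
  exact ⟨y, reach_smul hy, hyx⟩

theorem smul_inv_smul_seminorm {a : ℝ≥0} (ha : a ≠ 0) : a⁻¹ • a • p = p := by
  rw [smul_smul, inv_mul_cancel₀ ha, one_smul]

variable [IsTopologicalGroup G] [ConnectedSpace G]

theorem ell_smul_le {a : ℝ≥0} (x : G) : D.ell (a • p) N x ≤ a * D.ell p N x := by
  refine le_of_forall_pos_le_add fun ε hε => ?_
  have h1 := reachN_of_ell_lt (D := D) (p := p) (N := N) (x := x)
    (t := D.ell p N x + ε / (a + 1)) (by linarith [div_pos hε (by positivity : (0 : ℝ) < a + 1)])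
  have h2 := (reachN_smul (a := a) h1).ell_le
  have h3 : (a : ℝ) * (ε / (a + 1)) ≤ ε := by
    rw [mul_div_assoc', div_le_iff₀ (by positivity)]
    nlinarith [a.2]
  nlinarith

theorem ell_smul {a : ℝ≥0} (ha : a ≠ 0) (x : G) : D.ell (a • p) N x = a * D.ell p N x := by
  refine le_antisymm (ell_smul_le x) ?_
  have h1 := ell_smul_le (D := D) (p := a • p) (N := N) (a := a⁻¹) x
  rw [smul_inv_smul_seminorm ha, NNReal.coe_inv] at h1
  have h2 : (0 : ℝ) < a := by positivity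
  rw [inv_mul_eq_div, le_div_iff₀ h2] at h1
  linarith

variable [MeasurableSpace G] [BorelSpace G] {μ : Measure G}

theorem PB.smul {v : ℝ} (h : D.PB μ p v) {a : ℝ≥0} (ha : a ≠ 0) :
    D.PB μ (a • p) ((a : ℝ) ^ 2 * v) := by
  intro f hf hlip
  have h2 : (0 : ℝ) < a := by positivity
  have h1 := h (fun x => (a : ℝ)⁻¹ * f x) (continuous_const.mul hf) (by
    intro x X
    rw [← mul_sub, abs_mul, abs_of_pos (inv_pos.2 h2), inv_mul_eq_div, div_le_iff₀ h2]
    have := hlip x X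
    have h3 : (a • p : Seminorm ℝ L) X = a * p X := rfl
    rw [h3] at this
    linarith)
  have h4 : ∀ x, ((a : ℝ)⁻¹ * f x - ∫ y, (a : ℝ)⁻¹ * f y ∂μ) ^ 2
      = ((a : ℝ)⁻¹) ^ 2 * (f x - ∫ y, f y ∂μ) ^ 2 := by
    intro x
    rw [integral_const_mul]
    ring
  simp only [h4] at h1
  rw [integral_const_mul] at h1
  have h5 : ∫ x, (f x - ∫ y, f y ∂μ) ^ 2 ∂μ
      = (a : ℝ) ^ 2 * (((a : ℝ)⁻¹) ^ 2 * ∫ x, (f x - ∫ y, f y ∂μ) ^ 2 ∂μ) := by
    field_simp
  rw [h5]
  exact mul_le_mul_of_nonneg_left h1 (by positivity)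

theorem PB.nonneg {v : ℝ} (h : D.PB μ p v) : 0 ≤ v := by
  have h1 := h (fun _ => 0) continuous_const (by
    intro x X
    simp)
  simpa using h1

/-- The variance of `1`-Lipschitz functions controls the square of the diameter of `G / N`. -/
def Good (D : GroupData G L) (μ : Measure G) (N : Subgroup G) : Prop :=
  ∃ c : ℝ, 0 < c ∧ ∀ (p : Seminorm ℝ L) (v : ℝ), D.PB μ p v → ∀ x, c * D.ell p N x ^ 2 ≤ v

/-- Normalised sequences contradicting `Good`. -/
structure BadSeq (D : GroupData G L) (μ : Measure G) (N : Subgroup G) where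
  p : ℕ → Seminorm ℝ L
  v : ℕ → ℝ
  hPB : ∀ k, D.PB μ (p k) (v k)
  hv : Tendsto v atTop (𝓝 0)
  hle : ∀ k x, D.ell (p k) N x ≤ 1
  hone : ∀ k, ∃ x, D.ell (p k) N x = 1

theorem exists_badSeq [CompactSpace G] [N.Normal] (h : ¬ D.Good μ N) :
    Nonempty (BadSeq D μ N) := by
  unfold Good at h
  push Not at h
  have h1 : ∀ k : ℕ, ∃ (p : Seminorm ℝ L) (v : ℝ), D.PB μ p v ∧ v ≤ 1 / ((k : ℝ) + 1) ∧
      (∀ x, D.ell p N x ≤ 1) ∧ ∃ x, D.ell p N x = 1 := by
    intro k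
    obtain ⟨p, v, hp, x, hx⟩ := h (1 / ((k : ℝ) + 1)) (by positivity)
    have hv0 := hp.nonneg
    obtain ⟨x₀, _, hx₀⟩ := isCompact_univ.exists_isMaxOn (univ_nonempty (α := G))
      (continuous_ell (D := D) (p := p) (N := N)).continuousOn
    have hmax : ∀ y, D.ell p N y ≤ D.ell p N x₀ := fun y => hx₀ (mem_univ y)
    have hxpos : 0 < D.ell p N x := by
      have h2 := ell_nonneg (D := D) (p := p) (N := N) x
      rcases h2.lt_or_eq with h3 | h3
      · exact h3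
      · rw [← h3] at hx
        simp at hx
        linarith
    have hM : 0 < D.ell p N x₀ := hxpos.trans_le (hmax x)
    set a : ℝ≥0 := ⟨(D.ell p N x₀)⁻¹, by positivity⟩ with ha
    have ha0 : a ≠ 0 := by
      intro h0
      have : (a : ℝ) = 0 := by rw [h0]; rfl
      have h3 : (a : ℝ) = (D.ell p N x₀)⁻¹ := rfl
      rw [h3] at this
      exact (inv_pos.2 hM).ne' this
    have hacoe : (a : ℝ) = (D.ell p N x₀)⁻¹ := rfl
    refine ⟨a • p, (a : ℝ) ^ 2 * v, hp.smul ha0, ?_, ?_, x₀, ?_⟩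
    · have h3 : (a : ℝ) ^ 2 * v ≤ (a : ℝ) ^ 2 * (1 / ((k : ℝ) + 1) * D.ell p N x ^ 2) := by
        gcongr
      have h4 : ((a : ℝ) * D.ell p N x) ^ 2 ≤ 1 := by
        have h5 : (a : ℝ) * D.ell p N x ≤ 1 := by
          rw [hacoe, inv_mul_le_iff₀ hM, mul_one]
          exact hmax x
        have h6 : 0 ≤ (a : ℝ) * D.ell p N x := by positivity
        nlinarith
      calc (a : ℝ) ^ 2 * v ≤ (a : ℝ) ^ 2 * (1 / ((k : ℝ) + 1) * D.ell p N x ^ 2) := h3
        _ = (1 / ((k : ℝ) + 1)) * ((a : ℝ) * D.ell p N x) ^ 2 := by ring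
        _ ≤ (1 / ((k : ℝ) + 1)) * 1 := by gcongr
        _ = 1 / ((k : ℝ) + 1) := mul_one _
    · intro y
      rw [ell_smul ha0, hacoe, inv_mul_le_iff₀ hM, mul_one]
      exact hmax y
    · rw [ell_smul ha0, hacoe, inv_mul_cancel₀ hM.ne']
  choose p v hp hv hle hone using h1
  refine ⟨⟨p, v, hp, ?_, hle, hone⟩⟩
  exact squeeze_zero (fun k => (hp k).nonneg) hv tendsto_one_div_add_atTop_nhds_zero_nat

/-- Consequence of `Good` for a sequence. -/
theorem Good.tendsto (h : D.Good μ N) {p : ℕ → Seminorm ℝ L} {v : ℕ → ℝ}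
    (hPB : ∀ k, D.PB μ (p k) (v k)) (hv : Tendsto v atTop (𝓝 0)) :
    ∃ τ : ℕ → ℝ, Tendsto τ atTop (𝓝 0) ∧ ∀ k x, D.ReachN (p k) N (τ k) x := by
  obtain ⟨c, hc, h⟩ := h
  refine ⟨fun k => Real.sqrt (v k / c) + 1 / ((k : ℝ) + 1), ?_, ?_⟩
  · have h1 : Tendsto (fun k => Real.sqrt (v k / c)) atTop (𝓝 0) := by
      have h2 := (hv.div_const c).sqrt
      simpa using h2
    simpa using h1.add tendsto_one_div_add_atTop_nhds_zero_nat
  · intro k x
    apply reachN_of_ell_lt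
    have h1 := h (p k) (v k) (hPB k) x
    have h2 : D.ell (p k) N x ≤ Real.sqrt (v k / c) := by
      apply Real.le_sqrt_of_sq_le
      rw [le_div_iff₀ hc]
      linarith
    have h3 : (0 : ℝ) < 1 / ((k : ℝ) + 1) := by positivity
    linarith

end GroupData

end Pool.Agent.Work.MP_326c77_gt
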