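import Pool.Agent.Work.MP_326c77_gt.CaseTwo

set_option autoImplicit false
set_option linter.style.haveILetI false
set_option linter.unusedSectionVars false

open Filter Topology Set MeasureTheory
open scoped NNReal

namespace Pool.Agent.Work.MP_326c77_gt

namespace GroupData

variable {G L : Type*} [Group G] [TopologicalSpace G] [NormedAddCommGroup L]
  [InnerProductSpace ℝ L] {D : GroupData G L} {N : Subgroup G}
  [FiniteDimensional ℝ L] {W W' 𝔰 : Submodule ℝ L}

theorem mem_orbitSpan (Y : L) : Y ∈ D.orbitSpan Y univ :=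
  Submodule.subset_span ⟨1, mem_univ _, D.Ad_one Y⟩

theorem orbitSpan_le (hinv : D.Inv 𝔰) {Y : L} (hY : Y ∈ 𝔰) : D.orbitSpan Y univ ≤ 𝔰 := by
  unfold orbitSpan
  rw [Submodule.span_le]
  rintro _ ⟨x, _, rfl⟩
  exact hinv x Y hY

theorem norm_starProjection_le_of_le (h : W' ≤ 𝔰) (Z : L) :
    ‖W'.starProjection Z‖ ≤ ‖𝔰.starProjection Z‖ := by
  have h1 : W'.starProjection Z = W'.starProjection (𝔰.starProjection Z) := by
    have := Submodule.starProjection_comp_starProjection_of_le h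
    exact (congrArg (fun f : L →L[ℝ] L => f Z) this).symm
  rw [h1]
  exact Submodule.norm_starProjection_apply_le _ _

theorem starProjection_of_le (h : W' ≤ 𝔰) (Z : L) :
    W'.starProjection Z = W'.starProjection (𝔰.starProjection Z) := by
  have := Submodule.starProjection_comp_starProjection_of_le h
  exact (congrArg (fun f : L →L[ℝ] L => f Z) this).symm

/-- **Theorem A.**  If `𝔰` is an invariant subspace without fixed vectors then the variance of
`1`-Lipschitz functions controls the square of the diameter of `G` modulo the fixer of `𝔰`,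
uniformly over all norms. -/
theorem good_fixer [IsTopologicalGroup G] [CompactSpace G] [ConnectedSpace G] [MeasurableSpace G]
    [BorelSpace G] {μ : Measure G} [μ.IsHaarMeasure] [IsProbabilityMeasure μ] :
    ∀ (n : ℕ) (𝔰 : Submodule ℝ L), Module.finrank ℝ 𝔰 = n → D.Inv 𝔰 → D.NoFixed 𝔰 →
      D.Good μ (D.fixer 𝔰) := by
  intro n
  induction n using Nat.strong_induction_on with
  | _ n ih =>
  intro 𝔰 hn hinv hnf
  haveI := hinv.normal_fixer
  by_contra hbad
  obtain ⟨B⟩ := exists_badSeq hbad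
  -- `𝔰` is not trivial
  have h𝔰 : 𝔰 ≠ ⊥ := by
    rintro rfl
    obtain ⟨x, hx⟩ := B.hone 0
    have h1 : D.ReachN (B.p 0) (D.fixer ⊥) 0 x := by
      refine ⟨1, reach_one, ?_⟩
      intro Y hY
      rw [Submodule.mem_bot] at hY
      rw [hY, map_zero]
    have := h1.ell_le
    linarith
  -- choice of directions
  have hdir : ∀ k : ℕ, ∃ (m : ℝ) (X : L), 0 ≤ m ∧ (∀ Z, m * ‖𝔰.starProjection Z‖ ≤ B.p k Z) ∧
      ‖𝔰.starProjection X‖ = 1 ∧ B.p k X ≤ m + 1 / ((k : ℝ) + 1) := fun k =>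
    exists_direction h𝔰 (B.p k) (by positivity)
  choose m X hm0 hm hX hpX using hdir
  set 𝒰 : Ultrafilter ℕ := hyperfilter ℕ with h𝒰def
  have h𝒰 : (𝒰 : Filter ℕ) ≤ atTop := Nat.hyperfilter_le_atTop
  haveI : ProperSpace L := FiniteDimensional.proper ℝ L
  have hsph : ∀ᶠ k in (𝒰 : Filter ℕ), 𝔰.starProjection (X k) ∈ Metric.sphere (0 : L) 1 :=
    Eventually.of_forall fun k => by
      rw [mem_sphere_zero_iff_norm]
      exact hX k
  obtain ⟨Y, hYsphere, hYlim⟩ := (isCompact_sphere (0 : L) 1).ultrafilter_le_nhds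
    (𝒰.map fun k => 𝔰.starProjection (X k)) (by
      rw [le_principal_iff]
      exact hsph)
  have hYlim' : Tendsto (fun k => 𝔰.starProjection (X k)) (𝒰 : Filter ℕ) (𝓝 Y) := hYlim
  have hYnorm : ‖Y‖ = 1 := mem_sphere_zero_iff_norm.1 hYsphere
  have hYne : Y ≠ 0 := by
    intro h
    rw [h, norm_zero] at hYnorm
    exact zero_ne_one hYnorm
  have hY𝔰 : Y ∈ 𝔰 := by
    have hclosed : IsClosed (𝔰 : Set L) := 𝔰.closed_of_finiteDimensional
    exact hclosed.mem_of_tendsto hYlim' (Eventually.of_forall fun k =>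
      Submodule.starProjection_apply_mem 𝔰 _)
  by_cases hspan : D.orbitSpan Y univ = 𝔰
  · -- first case
    obtain ⟨Y₀, hY₀, g₀, hg₀⟩ := hnf.exists_moved h𝔰
    have hδ : 0 < ‖D.Ad g₀ Y₀ - Y₀‖ := norm_pos_iff.2 (sub_ne_zero.2 hg₀)
    refine case_one hinv B 𝒰 h𝒰 X Y hYlim' (4 * ‖Y₀‖ / ‖D.Ad g₀ Y₀ - Y₀‖ + 1) ?_ hspan
    intro k
    have h1 : D.ReachN (B.p k) (D.fixer 𝔰) 2 g₀ := by
      apply reachN_of_ell_lt
      have := B.hle k g₀
      linarith
    have h2 := h1.norm_Ad_sub_le hinv (hm0 k) (hm k) hY₀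
    have h3 : m k ≤ 4 * ‖Y₀‖ / ‖D.Ad g₀ Y₀ - Y₀‖ := by
      rw [le_div_iff₀ hδ]
      linarith
    have h4 : 1 / ((k : ℝ) + 1) ≤ 1 := by
      rw [div_le_one (by positivity)]
      have : (0 : ℝ) ≤ k := by positivity
      linarith
    linarith [hpX k]
  · -- second case
    set W := D.orbitSpan Y univ with hWdef
    have hWle : W ≤ 𝔰 := orbitSpan_le hinv hY𝔰
    have hYW : Y ∈ W := mem_orbitSpan Y
    have hWinv : D.Inv W := inv_orbitSpan_univ Y
    set W' := 𝔰 ⊓ Wᗮ with hW'def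
    have hW'le : W' ≤ 𝔰 := inf_le_left
    have hW'inv : D.Inv W' := hinv.inf D hWinv.orth
    have hWnf : D.NoFixed W := fun Z hZ h => hnf Z (hWle hZ) h
    have hW'nf : D.NoFixed W' := fun Z hZ h => hnf Z (hW'le hZ) h
    have hYW' : W'.starProjection Y = 0 := by
      rw [Submodule.starProjection_apply_eq_zero_iff, Submodule.mem_orthogonal]
      intro Z hZ
      exact (Submodule.mem_orthogonal' _ _).1 hZ.2 Y hYW
    have hW'ne : W' ≠ ⊥ := by
      intro h
      apply hspan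
      refine le_antisymm hWle fun Z hZ => ?_
      have h1 : Z - W.starProjection Z ∈ W' :=
        ⟨𝔰.sub_mem hZ (hWle (Submodule.starProjection_apply_mem W Z)),
          Submodule.sub_starProjection_mem_orthogonal Z⟩
      rw [h, Submodule.mem_bot, sub_eq_zero] at h1
      rw [h1]
      exact Submodule.starProjection_apply_mem W Z
    have hWlt : W < 𝔰 := lt_of_le_of_ne hWle hspan
    have hW'lt : W' < 𝔰 := by
      refine lt_of_le_of_ne hW'le fun h => ?_
      have h1 : Y ∈ W' := by rw [h]; exact hY𝔰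
      have h2 : inner ℝ Y Y = (0 : ℝ) := (Submodule.mem_orthogonal' _ _).1 h1.2 Y hYW
      rw [inner_self_eq_zero] at h2
      exact hYne h2
    have hgood : D.Good μ (D.fixer W) := ih _ (by
      rw [← hn]
      exact Submodule.finrank_lt_finrank_of_lt hWlt) W rfl hWinv hWnf
    have hgood' : D.Good μ (D.fixer W') := ih _ (by
      rw [← hn]
      exact Submodule.finrank_lt_finrank_of_lt hW'lt) W' rfl hW'inv hW'nf
    obtain ⟨τ, hτ, hreach⟩ := hgood.tendsto B.hPB B.hv
    obtain ⟨τ', hτ', hreach'⟩ := hgood'.tendsto B.hPB B.hv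
    have hτ𝒰 : Tendsto τ (𝒰 : Filter ℕ) (𝓝 0) := hτ.mono_left h𝒰
    have hτ'𝒰 : Tendsto τ' (𝒰 : Filter ℕ) (𝓝 0) := hτ'.mono_left h𝒰
    -- `m k → 0`
    obtain ⟨Y₀, hY₀, g₀, hg₀⟩ := hW'nf.exists_moved hW'ne
    have hδ : 0 < ‖D.Ad g₀ Y₀ - Y₀‖ := norm_pos_iff.2 (sub_ne_zero.2 hg₀)
    have hmlim : Tendsto m (𝒰 : Filter ℕ) (𝓝 0) := by
      refine squeeze_zero (fun k => hm0 k) (g := fun k => τ' k * (2 * ‖Y₀‖ / ‖D.Ad g₀ Y₀ - Y₀‖))
        (fun k => ?_) (by simpa using hτ'𝒰.mul_const (2 * ‖Y₀‖ / ‖D.Ad g₀ Y₀ - Y₀‖))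
      have h2 := (hreach' k g₀).norm_Ad_sub_le hW'inv (hm0 k) (fun Z => by
        refine le_trans ?_ (hm k Z)
        exact mul_le_mul_of_nonneg_left (norm_starProjection_le_of_le hW'le Z) (hm0 k)) hY₀
      rw [mul_div_assoc', le_div_iff₀ hδ]
      linarith
    have hpXlim : Tendsto (fun k => B.p k (X k)) (𝒰 : Filter ℕ) (𝓝 0) := by
      have h1 : Tendsto (fun k : ℕ => m k + 1 / ((k : ℝ) + 1)) (𝒰 : Filter ℕ) (𝓝 0) := by
        have := hmlim.add ((tendsto_one_div_add_atTop_nhds_zero_nat (𝕜 := ℝ)).mono_left h𝒰)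
        simpa using this
      exact squeeze_zero (fun k => apply_nonneg _ _) hpX h1
    have hYW_lim : Tendsto (fun k => W.starProjection (X k)) (𝒰 : Filter ℕ) (𝓝 Y) := by
      have h1 := (W.starProjection.continuous.tendsto Y).comp hYlim'
      rw [Submodule.starProjection_eq_self_iff.2 hYW] at h1
      refine h1.congr fun k => ?_
      exact (starProjection_of_le hWle (X k)).symm
    have hYW'_lim : Tendsto (fun k => W'.starProjection (X k)) (𝒰 : Filter ℕ) (𝓝 0) := by
      have h1 := (W'.starProjection.continuous.tendsto Y).comp hYlim'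
      rw [hYW'] at h1
      refine h1.congr fun k => ?_
      exact (starProjection_of_le hW'le (X k)).symm
    obtain ⟨t, η, ht, hη, hrep⟩ := exists_slow_reps hWinv hW'inv hYW_lim rfl hYW'_lim hpXlim
      hτ𝒰 hreach
    have happrox := exists_fixer_approx hWinv hη hrep hreach'
    obtain ⟨ρ', hρ', hfin⟩ := exists_fixer_reps hWinv hW'inv hW'nf
      (ρ := fun k => τ' k + t k) (by simpa using hτ'𝒰.add ht) hτ'𝒰 happrox hreach'
    -- conclusion
    have hlim : Tendsto (fun k => τ k + ρ' k) (𝒰 : Filter ℕ) (𝓝 0) := by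
      simpa using hτ𝒰.add hρ'
    obtain ⟨k, hk1, hk2⟩ := ((hlim.eventually (gt_mem_nhds one_pos)).and hfin).exists
    obtain ⟨x, hx⟩ := B.hone k
    obtain ⟨s, hs, hsN⟩ := hreach k x
    obtain ⟨q, hqW, hq, hqN⟩ := hk2 (s⁻¹ * x)
    have h1 : D.ReachN (B.p k) (D.fixer 𝔰) (τ k + ρ' k) x := by
      refine ⟨s * q, hs.mul hq, ?_⟩
      have hA : (s * q)⁻¹ * x ∈ D.fixer W := by
        have h2 : (s * q)⁻¹ * x = q⁻¹ * (s⁻¹ * x) := by group
        rw [h2]
        exact (D.fixer W).mul_mem ((D.fixer W).inv_mem hqW) hsN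
      have hB : (s * q)⁻¹ * x ∈ D.fixer W' := by
        have h2 : (s * q)⁻¹ * x = q⁻¹ * (s⁻¹ * x) := by group
        rw [h2]
        exact hqN
      intro Z hZ
      have h3 : Z - W.starProjection Z ∈ W' :=
        ⟨𝔰.sub_mem hZ (hWle (Submodule.starProjection_apply_mem W Z)),
          Submodule.sub_starProjection_mem_orthogonal Z⟩
      have h4 : Z = W.starProjection Z + (Z - W.starProjection Z) := by abel
      rw [h4, map_add, hA _ (Submodule.starProjection_apply_mem W Z), hB _ h3]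
    have h2 := h1.ell_le
    rw [hx] at h2
    linarith

end GroupData

end Pool.Agent.Work.MP_326c77_gt
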